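import Pool.Agent.H78.N64.Geo
import Pool.Agent.H62.N6.BlkH

/-!
MP_4f0605_nt, geometry, module GlueG: translation of `geometry_six` into the form used by the main line
(`Fin 12` instead of `Fin 6 ⊕ Fin 6`, a prime ideal `P` with `HasDim P D` instead of a point).
-/

set_option autoImplicit false

namespace N64Y

open MvPolynomial

/-- the bijection of the index types -/
def e12 : Fin 6 ⊕ Fin 6 ≃ Fin 12 := finSumFinEquiv

theorem sg_e12_inl (i : Fin 6) : Pool.Agent.H62.N6.sg (e12 (Sum.inl i)) = 1 := by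
  have h : ((e12 (Sum.inl i) : Fin 12) : ℕ) = i := rfl
  unfold Pool.Agent.H62.N6.sg
  rw [h, if_pos i.2]

theorem sg_e12_inr (j : Fin 6) : Pool.Agent.H62.N6.sg (e12 (Sum.inr j)) = -1 := by
  have h : ((e12 (Sum.inr j) : Fin 12) : ℕ) = 6 + j := rfl
  unfold Pool.Agent.H62.N6.sg
  rw [h, if_neg (by omega)]

theorem sg_e12 (k : Type*) [CommRing k] (t : Fin 6 ⊕ Fin 6) :
    ((Pool.Agent.H62.N6.sg (e12 t) : ℤ) : k) = sg k t := by
  rcases t with i | j
  · rw [sg_e12_inl]; simp [sg]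
  · rw [sg_e12_inr]; simp [sg]

theorem rename_pab {k : Type} [CommRing k] (ξ : Fin 12 → k) (a b : ℕ) :
    rename e12 (pab (ξ ∘ e12) a b) = Pool.Agent.H62.N6.pab Pool.Agent.H62.N6.sg ξ a b := by
  unfold pab Pool.Agent.H62.N6.pab
  rw [map_sum, ← e12.sum_comp]
  refine Finset.sum_congr rfl fun t _ => ?_
  rw [map_mul, rename_C, map_pow, rename_X, sg_e12]
  rfl

theorem rename_lin {k : Type} [CommRing k] (c : Fin 6 ⊕ Fin 6 → ℤ) :
    rename e12 (lin k c) = Pool.Agent.H62.N6.lin k (fun i => c (e12.symm i)) := by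
  unfold lin Pool.Agent.H62.N6.lin
  rw [map_sum, ← e12.sum_comp]
  refine Finset.sum_congr rfl fun t _ => ?_
  rw [map_mul, rename_C, rename_X]
  simp only [Equiv.symm_apply_apply]

theorem cone_glue {k : Type} [CommRing k] (ξ : Fin 12 → k) {f : ℕ}
    (l : Fin f → (Fin 6 ⊕ Fin 6) → ℤ) (M : ℕ) (h : ConeAt (ξ ∘ e12) l M) :
    Pool.Agent.H62.N6.Cone Pool.Agent.H62.N6.sg ξ (fun t i => l t (e12.symm i)) := by
  refine ⟨M, ?_⟩
  have h1 : Ideal.map (rename e12 : MvPolynomial (Fin 6 ⊕ Fin 6) k →ₐ[k] _)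
      (mX k (Fin 6 ⊕ Fin 6)) = Ideal.span (Set.range (X : Fin 12 → MvPolynomial (Fin 12) k)) := by
    unfold mX
    rw [Ideal.map_span, ← Set.range_comp]
    congr 1
    ext F
    constructor
    · rintro ⟨t, rfl⟩
      exact ⟨e12 t, by simp⟩
    · rintro ⟨i, rfl⟩
      exact ⟨e12.symm i, by simp⟩
  rw [← h1, ← Ideal.map_pow]
  refine (Ideal.map_mono h).trans ?_
  rw [Ideal.map_sup]
  refine sup_le ?_ ?_
  · unfold ICone
    rw [Ideal.map_span, Ideal.span_le]
    rintro _ ⟨_, ⟨a, b, hb, hab, rfl⟩, rfl⟩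
    refine Ideal.subset_span (Or.inl ⟨a, b, hb, hab, ?_⟩)
    exact rename_pab ξ a b
  · unfold LCone
    rw [Ideal.map_span, Ideal.span_le]
    rintro _ ⟨_, ⟨t, rfl⟩, rfl⟩
    refine Ideal.subset_span (Or.inr ⟨t, ?_⟩)
    exact (rename_lin (l t)).symm

theorem td_eq_of_hasDim {K : Type} [Field K] (P : Ideal (MvPolynomial (Fin 12) K)) [hP : P.IsPrime]
    {D : ℕ} (hD : Pool.Agent.H62.N6.HasDim P D) {ι : Type} [Finite ι] (z : ι → FractionRing
      (MvPolynomial (Fin 12) K ⧸ P)) (hz : Set.range z = Set.range (gpt P)) : td K z = D := by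
  have hmem : ∀ w : FractionRing (MvPolynomial (Fin 12) K ⧸ P),
      w ∈ IntermediateField.adjoin K (Set.range z) := by
    have h1 : ∀ a : MvPolynomial (Fin 12) K ⧸ P,
        algebraMap _ (FractionRing (MvPolynomial (Fin 12) K ⧸ P)) a ∈
          IntermediateField.adjoin K (Set.range z) := by
      intro a
      obtain ⟨F, rfl⟩ := Ideal.Quotient.mk_surjective a
      rw [← aeval_gpt]
      induction F using MvPolynomial.induction_on with
      | C a =>
        rw [aeval_C]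
        exact (IntermediateField.adjoin K (Set.range z)).algebraMap_mem a
      | add p q hp hq => rw [map_add]; exact add_mem hp hq
      | mul_X p i hp =>
        rw [map_mul, aeval_X]
        refine mul_mem hp (IntermediateField.subset_adjoin _ _ ?_)
        rw [hz]
        exact ⟨i, rfl⟩
    intro w
    obtain ⟨a, b, hb, rfl⟩ := IsFractionRing.div_surjective (A := MvPolynomial (Fin 12) K ⧸ P) w
    exact div_mem (h1 a) (h1 b)
  have halg : Algebra.IsAlgebraic (IntermediateField.adjoin K (Set.range z))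
      (FractionRing (MvPolynomial (Fin 12) K ⧸ P)) :=
    ⟨fun w => isAlgebraic_algebraMap (⟨w, hmem w⟩ : IntermediateField.adjoin K (Set.range z))⟩
  have h2 := _root_.trdeg_add_eq (R := K) (S := MvPolynomial (Fin 12) K ⧸ P)
    (A := FractionRing (MvPolynomial (Fin 12) K ⧸ P))
  have h3 : Algebra.trdeg (MvPolynomial (Fin 12) K ⧸ P)
      (FractionRing (MvPolynomial (Fin 12) K ⧸ P)) = 0 := by
    have : Algebra.IsAlgebraic (MvPolynomial (Fin 12) K ⧸ P)
      (FractionRing (MvPolynomial (Fin 12) K ⧸ P)) :=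
      IsLocalization.isAlgebraic _ (nonZeroDivisors (MvPolynomial (Fin 12) K ⧸ P))
    exact _root_.trdeg_eq_zero
  rw [td_eq_trdeg z halg, ← h2, h3, add_zero, Pool.Agent.H62.N6.HasDim.trdeg hP hD,
    Cardinal.toNat_natCast]

theorem aeval_int_glue {K : Type} [Field K] {F : Type} [Field F] [Algebra K F] (g : Fin 12 → F)
    (N : MvPolynomial (Fin 6 ⊕ Fin 6) ℤ) :
    aeval g (MvPolynomial.map (Int.castRingHom K) (rename e12 N)) = aeval (g ∘ e12) N := by
  have h2 : (algebraMap K F).comp (Int.castRingHom K) = algebraMap ℤ F := RingHom.ext_int _ _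
  rw [aeval_def, eval₂_map, h2, eval₂_rename, aeval_def]

theorem geo_glue {K : Type} [Field K] [CharZero K] (P : Ideal (MvPolynomial (Fin 12) K))
    (hP : P.IsPrime) (hF : ∀ n, 1 ≤ n → n ≤ 4 → Pool.Agent.H62.N6.pF K Pool.Agent.H62.N6.sg n ∈ P)
    (hx : ∀ i j, Pool.Agent.H62.N6.sg i ≠ Pool.Agent.H62.N6.sg j →
      (X i - X j : MvPolynomial (Fin 12) K) ∉ P)
    {D : ℕ} (hD : Pool.Agent.H62.N6.HasDim P D) :
    D ≤ 8 ∧ ∃ f : ℕ, D + f ≤ 10 ∧ ∃ (h : Fin f → Fin 12 → ℤ) (N : MvPolynomial (Fin 12) ℤ),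
      MvPolynomial.map (Int.castRingHom K) N ∉ P ∧
      ∀ (k : Type) [Field k] [CharZero k] (ξ : Fin 12 → k),
        Pool.Agent.H62.N6.Sol Pool.Agent.H62.N6.sg ξ →
        aeval ξ N ≠ 0 → Pool.Agent.H62.N6.Cone Pool.Agent.H62.N6.sg ξ h := by
  have hsplit : Sum.elim (fun i => gpt P (e12 (Sum.inl i))) (fun j => gpt P (e12 (Sum.inr j))) =
      gpt P ∘ e12 := by
    funext t
    rcases t with i | j <;> rfl
  have hrel : ∀ a ∈ Finset.Icc 1 4, ∑ i, gpt P (e12 (Sum.inl i)) ^ a =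
      ∑ j, gpt P (e12 (Sum.inr j)) ^ a := by
    intro a ha
    rw [Finset.mem_Icc] at ha
    have h1 := (aeval_gpt_eq_zero P _).2 (hF a ha.1 ha.2)
    unfold Pool.Agent.H62.N6.pF at h1
    rw [map_sum, ← e12.sum_comp, Fintype.sum_sum_type] at h1
    simp only [map_mul, map_pow, aeval_X, sg_e12_inl, sg_e12_inr] at h1
    simp only [Int.cast_one, map_one, one_mul, Int.cast_neg, map_neg, neg_mul,
      Finset.sum_neg_distrib] at h1
    exact add_neg_eq_zero.1 h1
  have hne : ∀ i j, gpt P (e12 (Sum.inl i)) ≠ gpt P (e12 (Sum.inr j)) := by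
    intro i j hij
    refine hx (e12 (Sum.inl i)) (e12 (Sum.inr j)) ?_ ((aeval_gpt_eq_zero P _).1 ?_)
    · rw [sg_e12_inl, sg_e12_inr]; norm_num
    · rw [map_sub, aeval_X, aeval_X, hij, sub_self]
  obtain ⟨h8, f, l, M, N, hf, hN, hC⟩ := geometry_six (K := K) _ _ hrel hne
  rw [hsplit] at h8 hf hN
  have htd : td K (gpt P ∘ e12) = D :=
    td_eq_of_hasDim P hD _ (by rw [e12.surjective.range_comp])
  rw [htd] at h8 hf
  refine ⟨h8, f, hf.le, fun t i => l t (e12.symm i), rename e12 N, ?_, ?_⟩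
  · intro hmem
    apply hN
    have h1 := (aeval_gpt_eq_zero P _).2 hmem
    rw [aeval_int_glue] at h1
    exact h1
  · intro k _ _ ξ _ hξ
    rw [aeval_rename] at hξ
    exact cone_glue ξ l M (hC k (ξ ∘ e12) hξ)

end N64Y
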