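import Mathlib

/-!
MP_4f0605_nt, section 6, module Dep: two polynomials in two variables are algebraically dependent modulo an irreducible polynomial.

PROOF of `dep_mod`. The three elements `f, g, q` of `MvPolynomial (Fin 2) Ω` are algebraically dependent over `Ω` (transcendence degree 2:
`MvPolynomial.trdeg_of_isDomain`, `AlgebraicIndependent.lift_cardinalMk_le_trdeg`): there is `P0 ≠ 0` in `MvPolynomial (Fin 3) Ω` with `aeval ![f,g,q] P0 = 0`.
View `P0` as a polynomial `p` in one variable `V` over `MvPolynomial (Fin 2) Ω` (`MvPolynomial.finSuccEquiv` or `Option`-indexed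
`optionEquivLeft`; order the variables so that `q` is the distinguished one: use `![q,f,g]` and `finSuccEquiv Ω 2`, variable `0` ↦ `X`).
Among all `p ≠ 0` with `sum_i (coeff_i)(f,g) q^i = 0` take one with minimal `natDegree`: if its constant coefficient is `0`, `p = X p'`, and
`q * p'(q) = 0` with `q ≠ 0`, so `p'` is a smaller one. So the constant coefficient `P := p.coeff 0 ∈ MvPolynomial (Fin 2) Ω` is nonzero, and
`aeval ![f,g] P = - sum_{i ≥ 1} (coeff_i)(f,g) q^i` is divisible by `q`.
(Only `q ≠ 0` is used.)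
-/

set_option autoImplicit false

namespace N64Y

open MvPolynomial

private theorem Dep_min {A B : Type*} [CommRing A] [CommRing B] [IsDomain B] (φ : A →+* B) (q : B)
    (hq : q ≠ 0) : ∀ (n : ℕ) (p : Polynomial A), p.natDegree ≤ n → p ≠ 0 → p.eval₂ φ q = 0 →
      ∃ c : A, c ≠ 0 ∧ q ∣ φ c := by
  intro n
  induction n with
  | zero =>
    intro p hn hp he
    have h := Polynomial.eq_C_of_natDegree_le_zero hn
    refine ⟨p.coeff 0, ?_, ?_⟩
    · intro h0
      apply hp
      rw [h, h0, Polynomial.C_0]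
    · rw [h, Polynomial.eval₂_C] at he
      rw [he]
      exact dvd_zero _
  | succ n ih =>
    intro p hn hp he
    have hd := Polynomial.divX_mul_X_add p
    by_cases h0 : p.coeff 0 = 0
    · rw [h0, Polynomial.C_0, add_zero] at hd
      have hp' : p.divX ≠ 0 := by
        intro h
        apply hp
        rw [← hd, h, zero_mul]
      refine ih p.divX ?_ hp' ?_
      · rw [Polynomial.natDegree_divX_eq_natDegree_tsub_one]
        omega
      · rw [← hd, Polynomial.eval₂_mul, Polynomial.eval₂_X] at he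
        exact (mul_eq_zero.1 he).resolve_right hq
    · refine ⟨p.coeff 0, h0, ?_⟩
      rw [← hd, Polynomial.eval₂_add, Polynomial.eval₂_mul, Polynomial.eval₂_X,
        Polynomial.eval₂_C] at he
      exact ⟨- p.divX.eval₂ φ q, by linear_combination he⟩

theorem dep_mod {Ω : Type*} [Field Ω] (q : MvPolynomial (Fin 2) Ω) (hq : q ≠ 0)
    (f g : MvPolynomial (Fin 2) Ω) :
    ∃ P : MvPolynomial (Fin 2) Ω, P ≠ 0 ∧ q ∣ aeval ![f, g] P := by
  have hnot : ¬ AlgebraicIndependent Ω (![q, f, g] : Fin 3 → MvPolynomial (Fin 2) Ω) := by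
    intro h
    have h1 := h.lift_cardinalMk_le_trdeg
    rw [MvPolynomial.trdeg_of_isDomain] at h1
    simp only [Cardinal.mk_fin, Cardinal.lift_natCast] at h1
    have h2 : (3 : ℕ) ≤ 2 := by exact_mod_cast h1
    omega
  rw [algebraicIndependent_iff] at hnot
  push Not at hnot
  obtain ⟨P0, h0, hP0⟩ := hnot
  set ψ : Polynomial (MvPolynomial (Fin 2) Ω) →+* MvPolynomial (Fin 2) Ω :=
    Polynomial.eval₂RingHom ((aeval ![f, g] : MvPolynomial (Fin 2) Ω →ₐ[Ω] MvPolynomial (Fin 2) Ω) :
      MvPolynomial (Fin 2) Ω →+* MvPolynomial (Fin 2) Ω) q with hψ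
  have hcomp : ψ.comp ((finSuccEquiv Ω 2 : MvPolynomial (Fin 3) Ω ≃ₐ[Ω] _) :
      MvPolynomial (Fin 3) Ω →+* Polynomial (MvPolynomial (Fin 2) Ω))
      = ((aeval ![q, f, g] : MvPolynomial (Fin 3) Ω →ₐ[Ω] MvPolynomial (Fin 2) Ω) :
        MvPolynomial (Fin 3) Ω →+* MvPolynomial (Fin 2) Ω) := by
    apply MvPolynomial.ringHom_ext
    · intro r
      simp [hψ, finSuccEquiv_apply]
    · intro i
      refine Fin.cases ?_ (fun j => ?_) i
      · simp [hψ, finSuccEquiv_X_zero]
      · fin_cases j
        · have := finSuccEquiv_X_succ (R := Ω) (n := 2) (j := 0)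
          simp only [RingHom.comp_apply, hψ]
          simp
          rw [show (1 : Fin 3) = Fin.succ 0 from rfl, this]
          simp
        · have := finSuccEquiv_X_succ (R := Ω) (n := 2) (j := 1)
          simp only [RingHom.comp_apply, hψ]
          simp
          rw [show (2 : Fin 3) = Fin.succ 1 from rfl, this]
          simp
  have he : ((finSuccEquiv Ω 2) P0).eval₂ ((aeval ![f, g] : MvPolynomial (Fin 2) Ω →ₐ[Ω] MvPolynomial (Fin 2) Ω) :
      MvPolynomial (Fin 2) Ω →+* MvPolynomial (Fin 2) Ω) q = 0 := by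
    have h3 := RingHom.congr_fun hcomp P0
    simp only [RingHom.comp_apply, hψ] at h3
    have h4 : ((aeval ![q, f, g] : MvPolynomial (Fin 3) Ω →ₐ[Ω] MvPolynomial (Fin 2) Ω) :
        MvPolynomial (Fin 3) Ω →+* MvPolynomial (Fin 2) Ω) P0 = 0 := h0
    rw [h4] at h3
    exact h3
  have hne : (finSuccEquiv Ω 2) P0 ≠ 0 := by
    intro h
    exact hP0 ((map_eq_zero_iff _ (finSuccEquiv Ω 2).injective).1 h)
  obtain ⟨c, hc, hd⟩ := Dep_min _ q hq _ _ le_rfl hne he
  exact ⟨c, hc, hd⟩

end N64Y
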