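import Pool.Agent.H78.N64.Defs
import Pool.Agent.H78.N64.Dep

/-!
MP_4f0605_nt, section 6, module ConstMod: a polynomial with zero derivative along an irreducible plane curve is constant on it.

PROOF of `const_mod`. `D G := br G q = G_X q_U - G_U q_X` is a derivation of `MvPolynomial (Fin 2) Ω` (over `Ω`) with `D q = 0`; so `q ∣ G` implies `q ∣ D G`
(`D (q r) = q D r`). `D (X 0) = pderiv 1 q`, `D (X 1) = - pderiv 0 q`. Not both `pderiv 0 q`, `pderiv 1 q` are `0` (characteristic 0: otherwise `q` is a constant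
- `MvPolynomial` with all partial derivatives zero is `C c`: look at the coefficients, `(d i + 1) * coeff = 0` -, but an irreducible polynomial is not a constant).
Let `e : Fin 2` with `D (X e) ≠ 0`. `D (X e)` is not divisible by `q`: if `q ∣ r ≠ 0` then `totalDegree q ≤ totalDegree r` (`totalDegree_mul_of_isDomain`), but
`totalDegree (pderiv i q) < totalDegree q` when `q` is not constant (`totalDegree (pderiv i q) ≤ totalDegree q - 1`).
By `dep_mod` there is `P ≠ 0` with `q ∣ aeval ![X e, F] P`; take one with minimal `P.totalDegree`. Chain rule for the derivation `D`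
(`Derivation` / `MvPolynomial` induction: `D (aeval g P) = sum_i aeval g (pderiv i P) * D (g i)`; Mathlib: `MvPolynomial.mkDerivation`, `Derivation.map_aeval`):
`D (aeval ![X e, F] P) = aeval ![X e, F] (pderiv 0 P) * D (X e) + aeval ![X e, F] (pderiv 1 P) * D F`, the left side and `D F` are divisible by `q`, `q` is prime
(`Irreducible.prime`), `q ∤ D (X e)`: `q ∣ aeval ![X e, F] (pderiv 0 P)`. `pderiv 0 P` has smaller total degree than `P` unless `P` is a constant; a nonzero constant `P`
is impossible (`q ∣ C c` makes `q` a unit); by minimality `pderiv 0 P = 0`. So (char 0) `P` does not involve the variable `0`: `P = rename`-image of a polynomial in the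
variable `1`, i.e. there is `p : Polynomial Ω`, `p ≠ 0`, with `aeval ![X e, F] P = Polynomial.aeval F p`
(e.g. via `finSuccEquiv Ω 1`/ coefficients: `coeff d P = 0` unless `d 0 = 0`; `p = sum_{d ∈ support} monomial (d 1) (coeff d P)`).
`Ω` algebraically closed: `p = C a * ∏ (X - C c_i)` (`IsAlgClosed.splits`, `Polynomial.Splits...eq_prod_roots`), so `q ∣ C a * ∏ (F - C c_i)`, `q` prime: `q ∣ F - C c_i` for some `i`
(`q ∤ C a`).
-/

set_option autoImplicit false

namespace N64Y

open MvPolynomial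

theorem totalDegree_pderiv_le {Ω : Type*} [Field Ω] (i : Fin 2) (q : MvPolynomial (Fin 2) Ω) :
    (pderiv i q).totalDegree ≤ q.totalDegree - 1 := by
  refine Finset.sup_le fun s hs => ?_
  have h1 : coeff s (pderiv i q) ≠ 0 := mem_support_iff.1 hs
  rw [coeff_pderiv] at h1
  have h2 : coeff (s + Finsupp.single i 1) q ≠ 0 := left_ne_zero_of_mul h1
  have h3 := le_totalDegree (mem_support_iff.2 h2)
  rw [Finsupp.sum_add_index' (fun _ => rfl) (fun _ _ _ => rfl), Finsupp.sum_single_index rfl] at h3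
  omega

theorem eq_C_of_pderiv {Ω : Type*} [Field Ω] [CharZero Ω] (q : MvPolynomial (Fin 2) Ω)
    (h0 : pderiv 0 q = 0) (h1 : pderiv 1 q = 0) : ∃ c : Ω, q = C c := by
  have key : ∀ i : Fin 2, pderiv i q = 0 := by
    intro i
    fin_cases i
    · exact h0
    · exact h1
  refine ⟨coeff 0 q, ?_⟩
  ext d
  rw [coeff_C]
  by_cases hd : 0 = d
  · rw [if_pos hd, hd]
  · rw [if_neg hd]
    have hd' : d ≠ 0 := fun h => hd h.symm
    obtain ⟨i, hi⟩ := Finsupp.ne_iff.1 hd'
    have hi1 : 1 ≤ d i := Nat.one_le_iff_ne_zero.2 hi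
    have h2 : coeff (d - Finsupp.single i 1) (pderiv i q) = 0 := by rw [key i]; rfl
    rw [coeff_pderiv, tsub_add_cancel_of_le (Finsupp.single_le_iff.2 hi1)] at h2
    rcases mul_eq_zero.1 h2 with h3 | h3
    · exact h3
    · exfalso
      have h4 : (((d - Finsupp.single i 1 : Fin 2 →₀ ℕ) i : ℕ) : Ω) + 1 ≠ 0 := by
        exact Nat.cast_add_one_ne_zero _
      exact h4 h3

private theorem ConstMod_chain {Ω A : Type*} [Field Ω] [CommRing A] [Algebra Ω A]
    (D : Derivation Ω A A) (g : Fin 2 → A) (P : MvPolynomial (Fin 2) Ω) :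
    D (aeval g P) = ∑ i, aeval g (pderiv i P) * D (g i) := by
  induction P using MvPolynomial.induction_on with
  | C a =>
    simp only [pderiv_C, map_zero, zero_mul, Finset.sum_const_zero]
    rw [aeval_C, D.map_algebraMap]
  | add p q hp hq =>
    simp only [map_add, hp, hq, add_mul, Finset.sum_add_distrib]
  | mul_X p n hp =>
    simp only [map_mul, aeval_X, Derivation.leibniz, hp, smul_eq_mul, pderiv_X, map_add,
      Fin.sum_univ_two]
    fin_cases n <;> simp <;> ring

private theorem ConstMod_one_var {Ω : Type*} [Field Ω] [CharZero Ω]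
    (P : MvPolynomial (Fin 2) Ω) (h : pderiv 0 P = 0) :
    ∃ p : Polynomial Ω, Polynomial.aeval (X 1 : MvPolynomial (Fin 2) Ω) p = P := by
  have hd : ∀ d ∈ P.support, d 0 = 0 := by
    intro d hd
    by_contra hne
    have hi1 : 1 ≤ d 0 := Nat.one_le_iff_ne_zero.2 hne
    have h2 : coeff (d - Finsupp.single 0 1) (pderiv 0 P) = 0 := by rw [h]; rfl
    rw [coeff_pderiv, tsub_add_cancel_of_le (Finsupp.single_le_iff.2 hi1)] at h2
    rcases mul_eq_zero.1 h2 with h3 | h3
    · exact mem_support_iff.1 hd h3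
    · have h4 : (((d - Finsupp.single 0 1 : Fin 2 →₀ ℕ) 0 : ℕ) : Ω) + 1 ≠ 0 := by
        exact Nat.cast_add_one_ne_zero _
      exact h4 h3
  refine ⟨∑ d ∈ P.support, Polynomial.monomial (d 1) (coeff d P), ?_⟩
  rw [map_sum]
  conv_rhs => rw [P.as_sum]
  refine Finset.sum_congr rfl fun d hdm => ?_
  rw [Polynomial.aeval_monomial, monomial_eq, Finsupp.prod_fintype _ _ (fun _ => pow_zero _),
    Fin.prod_univ_two, hd d hdm, pow_zero, one_mul]
  rfl

theorem const_mod {Ω : Type*} [Field Ω] [CharZero Ω] [IsAlgClosed Ω] (q F : MvPolynomial (Fin 2) Ω)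
    (hq : Irreducible q) (hF : q ∣ br F q) : ∃ c : Ω, q ∣ F - C c := by
  have hq0 : q ≠ 0 := hq.ne_zero
  have hprime : Prime q := hq.prime
  have hCunit : ∀ c : Ω, c ≠ 0 → ¬ q ∣ C c := by
    intro c hc hdv
    exact hq.not_isUnit (isUnit_of_dvd_unit hdv ((isUnit_iff_ne_zero.2 hc).map C))
  have hnC : ∀ c : Ω, q ≠ C c := by
    intro c hc
    have hc0 : c ≠ 0 := by
      rintro rfl
      exact hq0 (by rw [hc, map_zero])
    exact hCunit c hc0 (by rw [hc])
  -- the derivation
  let D : Derivation Ω (MvPolynomial (Fin 2) Ω) (MvPolynomial (Fin 2) Ω) :=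
    (pderiv 1 q) • (pderiv 0 : Derivation Ω (MvPolynomial (Fin 2) Ω) (MvPolynomial (Fin 2) Ω))
      - (pderiv 0 q) • (pderiv 1 : Derivation Ω (MvPolynomial (Fin 2) Ω) (MvPolynomial (Fin 2) Ω))
  have hDdef : ∀ G, D G = pderiv 1 q * pderiv 0 G - pderiv 0 q * pderiv 1 G := fun G => rfl
  have hDq : D q = 0 := by rw [hDdef]; ring
  have hDdvd : ∀ G, q ∣ G → q ∣ D G := by
    rintro _ ⟨r, rfl⟩
    rw [D.leibniz, hDq, smul_zero, add_zero]
    exact ⟨D r, rfl⟩
  have hDF : q ∣ D F := by
    have : D F = br F q := by rw [hDdef, br]; ring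
    rw [this]; exact hF
  have hnd : ∀ r : MvPolynomial (Fin 2) Ω, r ≠ 0 → r.totalDegree ≤ q.totalDegree - 1 → ¬ q ∣ r := by
    rintro r hr hdeg ⟨w, rfl⟩
    have hw : w ≠ 0 := right_ne_zero_of_mul hr
    rw [totalDegree_mul_of_isDomain hq0 hw] at hdeg
    have h0 : q.totalDegree = 0 := by omega
    exact hnC _ (totalDegree_eq_zero_iff_eq_C.1 h0)
  obtain ⟨e, he⟩ : ∃ e : Fin 2, ¬ q ∣ D (X e) := by
    by_contra hcon
    push Not at hcon
    have e0 : D (X 0) = pderiv 1 q := by rw [hDdef]; simp [pderiv_X]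
    have e1 : D (X 1) = - pderiv 0 q := by rw [hDdef]; simp [pderiv_X]
    have h1 : pderiv 1 q = 0 := by
      by_contra hne
      exact hnd _ hne (totalDegree_pderiv_le 1 q) (e0 ▸ hcon 0)
    have h0 : pderiv 0 q = 0 := by
      by_contra hne
      refine hnd _ hne (totalDegree_pderiv_le 0 q) ?_
      have := hcon 1
      rw [e1] at this
      exact (dvd_neg).1 this
    obtain ⟨c, hc⟩ := eq_C_of_pderiv q h0 h1
    exact hnC c hc
  -- a minimal relation
  have hex : ∃ n : ℕ, ∃ P : MvPolynomial (Fin 2) Ω, P ≠ 0 ∧ q ∣ aeval ![X e, F] P ∧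
      P.totalDegree = n := by
    obtain ⟨P, hP, hPd⟩ := dep_mod q hq0 (X e) F
    exact ⟨_, P, hP, hPd, rfl⟩
  classical
  obtain ⟨P, hP, hPd, hPn⟩ := Nat.find_spec hex
  have hmin : ∀ P' : MvPolynomial (Fin 2) Ω, P' ≠ 0 → q ∣ aeval ![X e, F] P' →
      P.totalDegree ≤ P'.totalDegree := by
    intro P' h1 h2
    rw [hPn]
    exact Nat.find_min' hex ⟨P', h1, h2, rfl⟩
  have hPpos : P.totalDegree ≠ 0 := by
    intro h0
    have h1 := totalDegree_eq_zero_iff_eq_C.1 h0
    have hc : coeff 0 P ≠ 0 := by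
      intro hc
      rw [hc, map_zero] at h1
      exact hP h1
    rw [h1, aeval_C] at hPd
    exact hCunit _ hc hPd
  have hpd : pderiv 0 P = 0 := by
    by_contra hne
    have h1 := ConstMod_chain D ![X e, F] P
    rw [Fin.sum_univ_two] at h1
    simp only [Matrix.cons_val_zero, Matrix.cons_val_one] at h1
    have h2 : q ∣ aeval ![X e, F] (pderiv 0 P) * D (X e) := by
      have h3 : aeval ![X e, F] (pderiv 0 P) * D (X e)
          = D (aeval ![X e, F] P) - aeval ![X e, F] (pderiv 1 P) * D F := by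
        rw [h1]; ring
      rw [h3]
      exact dvd_sub (hDdvd _ hPd) (hDF.mul_left _)
    rcases hprime.dvd_or_dvd h2 with h3 | h3
    · have h4 := hmin _ hne h3
      have h5 := totalDegree_pderiv_le 0 P
      omega
    · exact he h3
  obtain ⟨p, hp⟩ := ConstMod_one_var P hpd
  have hp0 : p ≠ 0 := by
    rintro rfl
    exact hP (by rw [← hp, map_zero])
  have hdv : q ∣ Polynomial.aeval F p := by
    have h1 : aeval ![X e, F] P = Polynomial.aeval F p := by
      rw [← hp, ← Polynomial.aeval_algHom_apply, aeval_X]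
      rfl
    rw [← h1]; exact hPd
  have hsp := (IsAlgClosed.splits p).eq_prod_roots
  rw [hsp, map_mul, Polynomial.aeval_C, map_multiset_prod, Multiset.map_map] at hdv
  rcases hprime.dvd_or_dvd hdv with h1 | h1
  · exact absurd h1 (hCunit _ (Polynomial.leadingCoeff_ne_zero.2 hp0))
  · obtain ⟨c, -, hc⟩ := hprime.exists_mem_multiset_map_dvd h1
    refine ⟨c, ?_⟩
    have h2 : (Polynomial.aeval F) (Polynomial.X - Polynomial.C c) = F - C c := by
      rw [map_sub, Polynomial.aeval_X, Polynomial.aeval_C]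
      rfl
    rw [← h2]
    exact hc

end N64Y
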