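import Pool.Agent.H78.N64.Par
import Pool.Agent.H78.N64.ConstMod

/-!
MP_4f0605_nt, section 6, module BrackII (6.7, second step): `Q` the conic of the configuration, `Q ∣ {F,Q}` implies `Q ∣ F - c`.

PROOF of `brack_const`. By `Conf.nd_poly` `Q` has degree exactly `2`. If `Q` is irreducible: `const_mod`.
Otherwise `Q` is not a unit (it has degree 2) and `Q = l1 l2` with non-units `l1, l2`, nonzero, not constant, so both have total degree `1`
(`totalDegree_mul_of_isDomain`), so they are irreducible (degree 1: a factorisation has a factor of degree 0, a unit). Write `l_i = C a_i X0 + C b_i X1 + C c_i`,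
`(a_i,b_i) ≠ (0,0)`.
(1) `a1 b2 - a2 b1 ≠ 0`: otherwise `(a2,b2) = t (a1,b1)`, `t ≠ 0`, and every point `k` satisfies `l1 = 0` or `l2 = 0`, i.e. `a1 X + b1 U ∈ {-c1, -c2/t}`: `no_parallel` with a
set of at most 2 elements.
(2) `l1` and `l2` have a common zero `z0` (Cramer), and `l1 ∤ l2` (otherwise `l2 = C t l1`, contradiction with (1)).
(3) `br F (l1 l2) = l1 * br F l2 + l2 * br F l1`. `l1 ∣ Q ∣ br F Q` gives `l1 ∣ l2 * br F l1`, so `l1 ∣ br F l1` (`l1` prime); `const_mod`: `l1 ∣ F - C c1`. Same: `l2 ∣ F - C c2`.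
(4) evaluate at `z0`: `c1 = F(z0) = c2 =: c`. `l1 ∣ F - C c = l2 * r`, `l1 ∤ l2`, `l1` prime: `l1 ∣ r`, so `Q = l1 l2 ∣ F - C c`.
-/

set_option autoImplicit false

namespace N64Y

open MvPolynomial Classical

private theorem brackII_lin {Ω : Type*} [Field Ω] (l : MvPolynomial (Fin 2) Ω) (hl : l.totalDegree ≤ 1) :
    l = C (coeff (Finsupp.single 0 1) l) * X 0 + C (coeff (Finsupp.single 1 1) l) * X 1 + C (coeff 0 l) := by
  ext d
  simp only [coeff_add, coeff_C_mul, coeff_X, coeff_C]
  by_cases h0 : d = 0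
  · subst h0
    simp
  by_cases h1 : d = Finsupp.single 0 1
  · subst h1
    simp [Finsupp.single_left_inj]
    intro e; exact absurd e.symm h0
  by_cases h2 : d = Finsupp.single 1 1
  · subst h2
    simp [Finsupp.single_left_inj]
    intro e; exact absurd e.symm h0
  rw [if_neg (Ne.symm h1), if_neg (Ne.symm h2), if_neg (Ne.symm h0)]
  simp only [mul_zero, add_zero]
  apply coeff_eq_zero_of_totalDegree_lt
  refine lt_of_le_of_lt hl ?_
  have hs : ∑ i ∈ d.support, d i = d 0 + d 1 := by
    rw [← Fin.sum_univ_two]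
    exact Finset.sum_subset (Finset.subset_univ _) fun i _ hi => by simpa using hi
  rw [hs]
  by_contra hcon
  have hle : d 0 + d 1 ≤ 1 := by omega
  rcases Nat.lt_or_ge (d 0) 1 with hd0 | hd0
  · rcases Nat.lt_or_ge (d 1) 1 with hd1 | hd1
    · apply h0
      ext i
      fin_cases i
      · simpa using (by omega : d 0 = 0)
      · simpa using (by omega : d 1 = 0)
    · apply h2
      ext i
      fin_cases i
      · simpa using (by omega : d 0 = 0)
      · simpa using (by omega : d 1 = 1)
  · apply h1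
    ext i
    fin_cases i
    · simpa using (by omega : d 0 = 1)
    · simpa using (by omega : d 1 = 0)

private theorem brackII_nontriv {Ω : Type*} [Field Ω] (l : MvPolynomial (Fin 2) Ω) (hl : l.totalDegree = 1) :
    ¬ (coeff (Finsupp.single 0 1) l = 0 ∧ coeff (Finsupp.single 1 1) l = 0) := by
  rintro ⟨h0, h1⟩
  have h := brackII_lin l hl.le
  rw [h0, h1] at h
  simp only [C_0, zero_mul, zero_add] at h
  rw [h, totalDegree_C] at hl
  exact one_ne_zero hl.symm

private theorem brackII_irred {Ω : Type*} [Field Ω] (l : MvPolynomial (Fin 2) Ω) (hl : l.totalDegree = 1) :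
    Irreducible l := by
  refine irreducible_of_totalDegree_eq_one hl ?_
  intro x hx
  rw [isUnit_iff_ne_zero]
  rintro rfl
  have : l = 0 := by
    ext d
    simpa using hx d
  rw [this] at hl
  simp at hl

theorem brack_const {Ω : Type*} [Field Ω] [CharZero Ω] [IsAlgClosed Ω] {s : ℕ} {x u y v : Fin s → Ω}
    (hs : s ≤ 6) (h : Conf x u y v) (Q : MvPolynomial (Fin 2) Ω) (hQ0 : Q ≠ 0) (hQ : Q.totalDegree ≤ 2)
    (hv : ∀ k, eval (pts x u y v k) Q = 0) (F : MvPolynomial (Fin 2) Ω) (hF : Q ∣ br F Q) :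
    ∃ c : Ω, Q ∣ F - C c := by
  by_cases hirr : Irreducible Q
  · exact const_mod Q F hirr hF
  have hQ2 : ¬ Q.totalDegree ≤ 1 := fun hle => hQ0 (h.nd_poly Q hle hv)
  have hunit : ¬ IsUnit Q := by
    intro hu
    rw [isUnit_iff_totalDegree_of_isReduced] at hu
    omega
  rw [irreducible_iff] at hirr
  push Not at hirr
  obtain ⟨l1, l2, hl, hu1, hu2⟩ := hirr hunit
  have hl1 : l1 ≠ 0 := by rintro rfl; simp at hl; exact hQ0 hl
  have hl2 : l2 ≠ 0 := by rintro rfl; simp at hl; exact hQ0 hl
  have hdeg : Q.totalDegree = l1.totalDegree + l2.totalDegree := by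
    rw [hl, totalDegree_mul_of_isDomain hl1 hl2]
  have hpos : ∀ l : MvPolynomial (Fin 2) Ω, l ≠ 0 → ¬ IsUnit l → 0 < l.totalDegree := by
    intro l hl0 hlu
    rcases Nat.eq_zero_or_pos l.totalDegree with hz | hz
    · exfalso
      rw [totalDegree_eq_zero_iff_eq_C] at hz
      apply hlu
      rw [hz] at hl0 ⊢
      have : coeff 0 l ≠ 0 := by
        intro h0; apply hl0; rw [h0]; simp
      exact (isUnit_iff_ne_zero.2 this).map C
    · exact hz
  have hp1 := hpos l1 hl1 hu1
  have hp2 := hpos l2 hl2 hu2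
  have hd1 : l1.totalDegree = 1 := by omega
  have hd2 : l2.totalDegree = 1 := by omega
  have hi1 := brackII_irred l1 hd1
  have hi2 := brackII_irred l2 hd2
  have e1 := brackII_lin l1 hd1.le
  have e2 := brackII_lin l2 hd2.le
  have n1 := brackII_nontriv l1 hd1
  have n2 := brackII_nontriv l2 hd2
  set a1 := coeff (Finsupp.single 0 1) l1
  set b1 := coeff (Finsupp.single 1 1) l1
  set c1 := coeff 0 l1
  set a2 := coeff (Finsupp.single 0 1) l2
  set b2 := coeff (Finsupp.single 1 1) l2
  set c2 := coeff 0 l2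
  have ev1 : ∀ z, eval z l1 = a1 * z 0 + b1 * z 1 + c1 := by
    intro z; rw [e1]; simp
  have ev2 : ∀ z, eval z l2 = a2 * z 0 + b2 * z 1 + c2 := by
    intro z; rw [e2]; simp
  have hD : a1 * b2 - a2 * b1 ≠ 0 := by
    intro hD
    obtain ⟨t, ht, hta, htb⟩ : ∃ t : Ω, t ≠ 0 ∧ a2 = t * a1 ∧ b2 = t * b1 := by
      by_cases ha : a1 = 0
      · have hb : b1 ≠ 0 := fun hb => n1 ⟨ha, hb⟩
        have ha2 : a2 = 0 := by
          rw [ha] at hD
          have : a2 * b1 = 0 := by linear_combination -hD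
          exact (mul_eq_zero.1 this).resolve_right hb
        refine ⟨b2 / b1, ?_, ?_, ?_⟩
        · intro h0
          rcases div_eq_zero_iff.1 h0 with h0 | h0
          · exact n2 ⟨ha2, h0⟩
          · exact hb h0
        · rw [ha, ha2]; ring
        · field_simp
      · refine ⟨a2 / a1, ?_, ?_, ?_⟩
        · intro h0
          rcases div_eq_zero_iff.1 h0 with h0 | h0
          · have : a1 * b2 = 0 := by rw [h0] at hD; linear_combination hD
            exact n2 ⟨h0, (mul_eq_zero.1 this).resolve_left ha⟩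
          · exact ha h0
        · field_simp
        · field_simp
          linear_combination hD
    refine no_parallel hs h a1 b1 n1 {-c1, -c2 / t} (Finset.card_le_two.trans (by norm_num)) ?_
    intro k
    have hk := hv k
    rw [hl, map_mul, mul_eq_zero, ev1, ev2] at hk
    rw [Finset.mem_insert, Finset.mem_singleton]
    rcases hk with hk | hk
    · left; linear_combination hk
    · right
      rw [hta, htb] at hk
      field_simp
      linear_combination hk
  -- common zero
  obtain ⟨z0, hz1, hz2⟩ : ∃ z0 : Fin 2 → Ω, eval z0 l1 = 0 ∧ eval z0 l2 = 0 := by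
    have hx := div_mul_cancel₀ (-c1 * b2 + c2 * b1) hD
    have hu := div_mul_cancel₀ (-a1 * c2 + a2 * c1) hD
    refine ⟨![(-c1 * b2 + c2 * b1) / (a1 * b2 - a2 * b1), (-a1 * c2 + a2 * c1) / (a1 * b2 - a2 * b1)], ?_, ?_⟩
    · rw [ev1]
      simp only [Matrix.cons_val_zero, Matrix.cons_val_one]
      apply mul_left_cancel₀ hD
      linear_combination a1 * hx + b1 * hu
    · rw [ev2]
      simp only [Matrix.cons_val_zero, Matrix.cons_val_one]
      apply mul_left_cancel₀ hD
      linear_combination a2 * hx + b2 * hu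
  have hnd : ¬ l1 ∣ l2 := by
    rintro ⟨r, hr⟩
    have hz : eval (fun i => z0 i + ![b1, -a1] i) l1 = 0 := by
      rw [ev1] at hz1 ⊢
      simp only [Matrix.cons_val_zero, Matrix.cons_val_one]
      linear_combination hz1
    have hz' : eval (fun i => z0 i + ![b1, -a1] i) l2 = 0 := by
      rw [hr, map_mul, hz, zero_mul]
    rw [ev2] at hz' hz2
    simp only [Matrix.cons_val_zero, Matrix.cons_val_one] at hz'
    apply hD
    linear_combination hz2 - hz'
  have hbr : br F Q = l1 * br F l2 + l2 * br F l1 := by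
    rw [hl]
    simp only [br, Derivation.leibniz, smul_eq_mul]
    ring
  have hnd2 : ¬ l2 ∣ l1 := fun hd => hnd (hi2.dvd_symm hi1 hd)
  have hdiv1 : l1 ∣ br F l1 := by
    have h1 : l1 ∣ br F Q := (Dvd.intro _ hl.symm).trans hF
    rw [hbr] at h1
    have h2 : l1 ∣ l2 * br F l1 := (dvd_add_right (dvd_mul_right _ _)).1 h1
    exact (hi1.prime.dvd_or_dvd h2).resolve_left hnd
  have hdiv2 : l2 ∣ br F l2 := by
    have h1 : l2 ∣ br F Q := (Dvd.intro_left _ hl.symm).trans hF
    rw [hbr] at h1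
    have h2 : l2 ∣ l1 * br F l2 := (dvd_add_left (dvd_mul_right _ _)).1 h1
    exact (hi2.prime.dvd_or_dvd h2).resolve_left hnd2
  obtain ⟨k1, hk1⟩ := const_mod l1 F hi1 hdiv1
  obtain ⟨k2, hk2⟩ := const_mod l2 F hi2 hdiv2
  have hv1 : eval z0 F = k1 := by
    obtain ⟨r, hr⟩ := hk1
    have := congrArg (eval z0) hr
    rw [map_mul, hz1, zero_mul, map_sub, eval_C] at this
    exact sub_eq_zero.1 this
  have hv2 : eval z0 F = k2 := by
    obtain ⟨r, hr⟩ := hk2
    have := congrArg (eval z0) hr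
    rw [map_mul, hz2, zero_mul, map_sub, eval_C] at this
    exact sub_eq_zero.1 this
  have hkk : k1 = k2 := hv1.symm.trans hv2
  refine ⟨k1, ?_⟩
  obtain ⟨r, hr⟩ := hk2
  rw [← hkk] at hr
  rw [hr] at hk1
  obtain ⟨q, hq⟩ := (hi1.prime.dvd_or_dvd hk1).resolve_left hnd
  refine ⟨q, ?_⟩
  rw [hr, hq, hl]
  ring

end N64Y
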