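import Pool.Agent.H78.N64.Interp
import Pool.Agent.H34.NA.Bezout

/-!
MP_4f0605_nt, section 6, module CFac: common factors, uniqueness of conics and cubics (6.3, 6.5), quartics on a conic (6.7, first step).

PROOFS.
* `common_factor`: `UniqueFactorizationMonoid.exists_reduced_factors f hf g` gives `f = k f'`, `g = k g'`, `IsRelPrime f' g'`. `k ≠ 0`, `f' ≠ 0`, so
  `totalDegree f = totalDegree k + totalDegree f'` (`totalDegree_mul_of_isDomain`), similarly for `g` if `g ≠ 0`. If `g = 0` then `g' = 0` and `f'`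
  is a unit, a nonzero constant, so `k` vanishes where `f` does: the filter is empty. If `g ≠ 0`: a point of `S` with `k ≠ 0` is a common zero of
  `f'` and `g'`: `Pool.Agent.H34.NA.plane_bezout` (helper34): card `≤ deg f' * deg g' ≤ (a - deg k) * (b - deg k)`.
* `conic_unique` (6.3): `common_factor Q1 Q2` with `a = b = 2`; `j = deg k ≤ 2`. `j = 0`: `k` is a nonzero constant, the filter is `S`, `|S| ≤ 4`, contradiction with
  `pc_card_six`. `j = 1`: filter `≤ 1`, `1 + 1 < 6`: `vanish_of_few` (`d = 1`): `k` vanishes on `S`, `PC.nd`: `k = 0`, contradiction. `j = 2`: `f'` and `g'` (if `Q2 ≠ 0`)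
  have degree `0`: constants, `f' = C e ≠ 0`, `g' = C e'`: `Q2 = C (e'/e) * Q1`. (`Q2 = 0`: `c = 0`.)
* `ten_le` (part of 6.4) is in module Card and needed here: to avoid a cycle it is a hypothesis `h10 : 10 ≤ S.card`.
* `cubic_unique` (6.5 case I): `a = b = 3`. `j = 0`: `|S| ≤ 9`, contradiction. `j = 1`: filter `≤ 4`, `1 + 4 < 6`: `k` vanishes on `S`, contradiction with `PC.nd`.
  `j = 2`: filter `≤ 1`, `2 + 1 < 6`: `k` vanishes on `S`: contradiction with `hno`. `j = 3`: `f'`, `g'` constants.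
* `conic_dvd` (6.5 case II and 6.7): `f = Q` (`a = 2`), `g = G` (`b = 4`). `j = 0`: `|S| ≤ 8`, contradiction. `j = 1`: filter `≤ 1 * 3`, `1 + 3 < 6`: contradiction
  with `PC.nd`. `j = 2`: `f'` is a nonzero constant, `Q = k * const` divides `k g' = G`.
-/

set_option autoImplicit false

namespace N64Y

open MvPolynomial Classical

variable {Ω : Type*} [Field Ω]

theorem common_factor (S : Finset (Fin 2 → Ω)) (f g : MvPolynomial (Fin 2) Ω) (hf0 : f ≠ 0) {a b : ℕ}
    (hf : f.totalDegree ≤ a) (hg : g.totalDegree ≤ b) (hfS : ∀ z ∈ S, eval z f = 0)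
    (hgS : ∀ z ∈ S, eval z g = 0) :
    ∃ k f' g' : MvPolynomial (Fin 2) Ω, f = k * f' ∧ g = k * g' ∧ IsRelPrime f' g' ∧ k ≠ 0 ∧
      k.totalDegree + f'.totalDegree ≤ a ∧ (g ≠ 0 → k.totalDegree + g'.totalDegree ≤ b) ∧
      (S.filter fun z => eval z k ≠ 0).card ≤ (a - k.totalDegree) * (b - k.totalDegree) := by
  obtain ⟨f', g', k, hrel, hkf, hkg⟩ := UniqueFactorizationMonoid.exists_reduced_factors f hf0 g
  have hk0 : k ≠ 0 := by
    rintro rfl
    exact hf0 (by rw [← hkf, zero_mul])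
  have hf'0 : f' ≠ 0 := by
    rintro rfl
    exact hf0 (by rw [← hkf, mul_zero])
  have hdf : k.totalDegree + f'.totalDegree ≤ a := by
    rw [← totalDegree_mul_of_isDomain hk0 hf'0, hkf]
    exact hf
  refine ⟨k, f', g', hkf.symm, hkg.symm, hrel, hk0, hdf, ?_, ?_⟩
  · intro hg0
    have hg'0 : g' ≠ 0 := by
      rintro rfl
      exact hg0 (by rw [← hkg, mul_zero])
    rw [← totalDegree_mul_of_isDomain hk0 hg'0, hkg]
    exact hg
  · by_cases hg'0 : g' = 0
    · rw [hg'0] at hrel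
      have hu : IsUnit f' := isRelPrime_zero_right.1 hrel
      have hemp : (S.filter fun z => eval z k ≠ 0) = ∅ := by
        rw [Finset.filter_eq_empty_iff]
        intro z hz hne
        have h1 := hfS z hz
        rw [← hkf, map_mul] at h1
        rcases mul_eq_zero.1 h1 with h | h
        · exact hne h
        · exact (hu.map (eval z)).ne_zero h
      rw [hemp, Finset.card_empty]
      exact Nat.zero_le _
    · have hdg : k.totalDegree + g'.totalDegree ≤ b := by
        rw [← totalDegree_mul_of_isDomain hk0 hg'0, hkg]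
        exact hg
      have h1 := Pool.Agent.H34.NA.plane_bezout f' g' hg'0 hrel
        (S.filter fun z => eval z k ≠ 0) (by
          intro z hz
          rw [Finset.mem_filter] at hz
          have h2 := hfS z hz.1
          have h3 := hgS z hz.1
          rw [← hkf, map_mul] at h2
          rw [← hkg, map_mul] at h3
          exact ⟨(mul_eq_zero.1 h2).resolve_left hz.2, (mul_eq_zero.1 h3).resolve_left hz.2⟩)
      exact h1.trans (Nat.mul_le_mul (by omega) (by omega))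

private theorem cfac_const {k : MvPolynomial (Fin 2) Ω} (hk : k ≠ 0) (h : k.totalDegree = 0) :
    ∃ e : Ω, e ≠ 0 ∧ k = C e := by
  have h1 := totalDegree_eq_zero_iff_eq_C.1 h
  refine ⟨coeff 0 k, ?_, h1⟩
  intro h2
  rw [h2, C_0] at h1
  exact hk h1

private theorem cfac_filter (S : Finset (Fin 2 → Ω)) {k : MvPolynomial (Fin 2) Ω} (hk : k ≠ 0)
    (h : k.totalDegree = 0) : (S.filter fun z => eval z k ≠ 0) = S := by
  obtain ⟨e, he, rfl⟩ := cfac_const hk h
  rw [Finset.filter_eq_self]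
  intro z _
  rw [eval_C]
  exact he

private theorem cfac_prop {k f' g' : MvPolynomial (Fin 2) Ω} (hf' : f' ≠ 0)
    (h1 : f'.totalDegree = 0) (h2 : g'.totalDegree = 0) : ∃ c : Ω, k * g' = C c * (k * f') := by
  obtain ⟨e, he, rfl⟩ := cfac_const hf' h1
  have h3 := totalDegree_eq_zero_iff_eq_C.1 h2
  refine ⟨coeff 0 g' / e, ?_⟩
  have h4 : (C (coeff 0 g' / e) : MvPolynomial (Fin 2) Ω) * (k * C e) = k * C (coeff 0 g') := by
    rw [mul_left_comm, ← C_mul, div_mul_cancel₀ _ he]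
  rw [h4, ← h3]

theorem conic_unique {S : Finset (Fin 2 → Ω)} {w : (Fin 2 → Ω) → Ω} (h : PC S w)
    (Q1 Q2 : MvPolynomial (Fin 2) Ω) (h0 : Q1 ≠ 0) (h1 : Q1.totalDegree ≤ 2) (h2 : Q2.totalDegree ≤ 2)
    (v1 : ∀ z ∈ S, eval z Q1 = 0) (v2 : ∀ z ∈ S, eval z Q2 = 0) : ∃ c : Ω, Q2 = C c * Q1 := by
  by_cases hQ2 : Q2 = 0
  · exact ⟨0, by rw [hQ2, C_0, zero_mul]⟩
  obtain ⟨k, f', g', hf, hg, hrel, hk0, hd1, hd2, hcard⟩ :=
    common_factor S Q1 Q2 h0 h1 h2 v1 v2
  have hd2 := hd2 hQ2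
  have h6 := pc_card_six h
  obtain hj | hj | hj : k.totalDegree = 0 ∨ k.totalDegree = 1 ∨ k.totalDegree = 2 := by omega
  · rw [cfac_filter S hk0 hj, hj] at hcard
    omega
  · rw [hj] at hcard
    exact absurd (h.nd k hj.le (vanish_of_few h (by norm_num) k hj.le (by omega))) hk0
  · have hf'0 : f' ≠ 0 := by
      rintro rfl
      exact h0 (by rw [hf, mul_zero])
    obtain ⟨c, hc⟩ := cfac_prop (k := k) (f' := f') (g' := g') hf'0 (by omega) (by omega)
    exact ⟨c, by rw [hf, hg, hc]⟩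

theorem cubic_unique {S : Finset (Fin 2 → Ω)} {w : (Fin 2 → Ω) → Ω} (h : PC S w) (h10 : 10 ≤ S.card)
    (hno : ∀ Q : MvPolynomial (Fin 2) Ω, Q.totalDegree ≤ 2 → (∀ z ∈ S, eval z Q = 0) → Q = 0)
    (C1 C2 : MvPolynomial (Fin 2) Ω) (h0 : C1 ≠ 0) (h1 : C1.totalDegree ≤ 3) (h2 : C2.totalDegree ≤ 3)
    (v1 : ∀ z ∈ S, eval z C1 = 0) (v2 : ∀ z ∈ S, eval z C2 = 0) : ∃ c : Ω, C2 = C c * C1 := by
  by_cases hC2 : C2 = 0
  · exact ⟨0, by rw [hC2, C_0, zero_mul]⟩
  obtain ⟨k, f', g', hf, hg, hrel, hk0, hd1, hd2, hcard⟩ :=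
    common_factor S C1 C2 h0 h1 h2 v1 v2
  have hd2 := hd2 hC2
  obtain hj | hj | hj | hj : k.totalDegree = 0 ∨ k.totalDegree = 1 ∨ k.totalDegree = 2 ∨
    k.totalDegree = 3 := by omega
  · rw [cfac_filter S hk0 hj, hj] at hcard
    omega
  · rw [hj] at hcard
    exact absurd (h.nd k hj.le (vanish_of_few h (by norm_num) k hj.le (by omega))) hk0
  · rw [hj] at hcard
    exact absurd (hno k hj.le (vanish_of_few h (by norm_num) k hj.le (by omega))) hk0
  · have hf'0 : f' ≠ 0 := by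
      rintro rfl
      exact h0 (by rw [hf, mul_zero])
    obtain ⟨c, hc⟩ := cfac_prop (k := k) (f' := f') (g' := g') hf'0 (by omega) (by omega)
    exact ⟨c, by rw [hf, hg, hc]⟩

theorem conic_dvd {S : Finset (Fin 2 → Ω)} {w : (Fin 2 → Ω) → Ω} (h : PC S w) (h10 : 10 ≤ S.card)
    (Q : MvPolynomial (Fin 2) Ω) (h0 : Q ≠ 0) (h1 : Q.totalDegree ≤ 2) (v1 : ∀ z ∈ S, eval z Q = 0)
    (G : MvPolynomial (Fin 2) Ω) (hG : G.totalDegree ≤ 4) (vG : ∀ z ∈ S, eval z G = 0) : Q ∣ G := by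
  obtain ⟨k, f', g', hf, hg, hrel, hk0, hd1, hd2, hcard⟩ :=
    common_factor S Q G h0 h1 hG v1 vG
  obtain hj | hj | hj : k.totalDegree = 0 ∨ k.totalDegree = 1 ∨ k.totalDegree = 2 := by omega
  · rw [cfac_filter S hk0 hj, hj] at hcard
    omega
  · rw [hj] at hcard
    exact absurd (h.nd k hj.le (vanish_of_few h (by norm_num) k hj.le (by omega))) hk0
  · have hf'0 : f' ≠ 0 := by
      rintro rfl
      exact h0 (by rw [hf, mul_zero])
    obtain ⟨e, he, hfe⟩ := cfac_const hf'0 (by omega)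
    refine ⟨C e⁻¹ * g', ?_⟩
    rw [hf, hg, hfe]
    have h4 : (C e : MvPolynomial (Fin 2) Ω) * C e⁻¹ = 1 := by
      rw [← C_mul, mul_inv_cancel₀ he, C_1]
    calc k * g' = k * ((C e * C e⁻¹) * g') := by rw [h4, one_mul]
      _ = k * C e * (C e⁻¹ * g') := by ring

end N64Y
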