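import Pool.Agent.H78.N64.Defs

/-!
MP_4f0605_nt, section 6, module LinAlg: linear algebra.

PROOFS.
* `perp_finrank`: the bilinear form `B(f,g) = sum w_i f_i g_i` on `ι → Ω` is nondegenerate. The map `A → Dual B`, or: the submodule
  `A' = {(w_i f_i) : f ∈ A}` (image of `A` under an injective linear map) is contained in the annihilator `ann` of `B`, which has dimension
  `card ι - finrank B` (`finrank_ann` below with `Λ = B.subtype`).
* `finrank_ann`: `annS Λ = {t : ∀ w, sum_i Λ w i * t i = 0}`. The pairing `dotProduct` on `ι → Ω` is perfect; `annS Λ` is the orthogonal of `range Λ`: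
  e.g. `annS Λ` corresponds under `LinearEquiv` `dotProductEquiv Ω ι : (ι → Ω) ≃ Dual Ω (ι → Ω)` (`Mathlib.LinearAlgebra.Matrix.Dual`...) to
  `(range Λ).dualAnnihilator`, and `Subspace.finrank_add_finrank_dualAnnihilator_eq`. Then `finrank range Λ + finrank ker Λ = finrank W'`.
-/

set_option autoImplicit false

namespace N64Y

variable {Ω : Type*} [Field Ω]

/-- the vectors orthogonal to all rows `Λ w` -/
def annS {ι W' : Type*} [Fintype ι] [AddCommGroup W'] [Module Ω W'] (Λ : W' →ₗ[Ω] (ι → Ω)) :
    Submodule Ω (ι → Ω) where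
  carrier := {t | ∀ w, ∑ i, Λ w i * t i = 0}
  add_mem' := by
    intro a b ha hb w
    simp only [Pi.add_apply, mul_add, Finset.sum_add_distrib, Set.mem_ofPred_eq] at *
    rw [ha w, hb w, add_zero]
  zero_mem' := by intro w; simp
  smul_mem' := by
    intro c a ha w
    have : ∑ i, Λ w i * (c • a) i = c * ∑ i, Λ w i * a i := by
      rw [Finset.mul_sum]; exact Finset.sum_congr rfl fun i _ => by simp; ring
    rw [this, ha w, mul_zero]

theorem finrank_ann {ι W' : Type*} [Fintype ι] [AddCommGroup W'] [Module Ω W'] [Module.Finite Ω W']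
    (Λ : W' →ₗ[Ω] (ι → Ω)) :
    Module.finrank Ω (annS Λ) + Module.finrank Ω W' = Fintype.card ι + Module.finrank Ω (LinearMap.ker Λ) := by
  classical
  have h1 : (annS Λ).map (dotProductEquiv Ω ι : (ι → Ω) →ₗ[Ω] Module.Dual Ω (ι → Ω)) =
      (LinearMap.range Λ).dualAnnihilator := by
    ext φ
    rw [Submodule.mem_map, Submodule.mem_dualAnnihilator]
    constructor
    · rintro ⟨t, ht, rfl⟩ x ⟨w, rfl⟩
      change t ⬝ᵥ Λ w = 0
      rw [dotProduct_comm]
      exact ht w
    · intro h
      refine ⟨(dotProductEquiv Ω ι).symm φ, fun w => ?_, (dotProductEquiv Ω ι).apply_symm_apply φ⟩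
      have h2 := h (Λ w) ⟨w, rfl⟩
      rw [← (dotProductEquiv Ω ι).apply_symm_apply φ] at h2
      change ((dotProductEquiv Ω ι).symm φ) ⬝ᵥ Λ w = 0 at h2
      rw [dotProduct_comm] at h2
      exact h2
  have h2 : Module.finrank Ω (annS Λ) = Module.finrank Ω (LinearMap.range Λ).dualAnnihilator := by
    rw [← h1]
    exact (LinearEquiv.finrank_map_eq (dotProductEquiv Ω ι) (annS Λ)).symm
  have h3 := Subspace.finrank_add_finrank_dualAnnihilator_eq (LinearMap.range Λ)
  have h4 := LinearMap.finrank_range_add_finrank_ker Λ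
  rw [Module.finrank_fintype_fun_eq_card] at h3
  omega

theorem perp_finrank {ι : Type*} [Fintype ι] (w : ι → Ω) (hw : ∀ i, w i ≠ 0) (A B : Submodule Ω (ι → Ω))
    (h : ∀ f ∈ A, ∀ g ∈ B, ∑ i, w i * f i * g i = 0) :
    Module.finrank Ω A + Module.finrank Ω B ≤ Fintype.card ι := by
  classical
  have h1 := finrank_ann B.subtype
  rw [Submodule.ker_subtype, finrank_bot, add_zero] at h1
  let L : (ι → Ω) →ₗ[Ω] (ι → Ω) := LinearMap.pi fun i => w i • LinearMap.proj i
  have hL : ∀ f i, L f i = w i * f i := fun f i => rfl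
  have hinj : Function.Injective L := by
    intro f g hfg
    funext i
    have h2 := congrFun hfg i
    rw [hL, hL] at h2
    exact mul_left_cancel₀ (hw i) h2
  have h3 : A.map L ≤ annS B.subtype := by
    rintro _ ⟨f, hf, rfl⟩ g
    rw [← h f hf g g.2]
    apply Finset.sum_congr rfl
    intro i _
    rw [hL]
    change (g : ι → Ω) i * (w i * f i) = _
    ring
  have h4 := Submodule.finrank_mono h3
  have h5 := (Submodule.equivMapOfInjective L hinj A).finrank_eq
  omega

/-- independent subspaces inside `V` -/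
theorem finrank_add_le_of_disjoint {E : Type*} [AddCommGroup E] [Module Ω E] [Module.Finite Ω E]
    (V A B : Submodule Ω E) (hA : A ≤ V) (hB : B ≤ V) (hAB : ∀ x ∈ A, x ∈ B → x = 0) :
    Module.finrank Ω A + Module.finrank Ω B ≤ Module.finrank Ω V := by
  have h1 : A ⊓ B = ⊥ := by
    rw [eq_bot_iff]
    rintro x ⟨h2, h3⟩
    exact hAB x h2 h3
  have h2 := Submodule.finrank_sup_add_finrank_inf_eq A B
  rw [h1, finrank_bot, add_zero] at h2
  rw [← h2]
  exact Submodule.finrank_mono (sup_le hA hB)

end N64Y
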