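import Pool.Agent.H78.N64.CFac
import Pool.Agent.H78.N64.LinAlg

/-!
MP_4f0605_nt, section 6, module Card (6.4).

PROOFS. Index type `ι = {z // z ∈ S}`, `E_d := (evT Subtype.val).domRestrict (W Ω d)`, `A_d = range E_d`. `finrank (W Ω 2) = 6`. By `conic_unique` the kernel of `E_2` has
dimension `≤ 1`, so `finrank A_2 ≥ 5`. For `F, G ∈ W Ω 2` the product `F G` has degree `≤ 4`: `sum_{z ∈ S} w z F(z) G(z) = 0`
(`PC.rel`, `Finset.sum_coe_sort`), so `perp_finrank` gives `2 finrank A_2 ≤ |S|`: `|S| ≥ 10`. If `|S| ≤ 11` then `finrank A_2 ≤ 5 < 6`, so `ker E_2 ≠ 0`: a nonzero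
polynomial of degree `≤ 2` vanishing on `S`.
(`ker ≤ 1`: if `ker E_2 = 0` done; otherwise take `Q1 ≠ 0` in the kernel, every other element is `C c * Q1`: `ker ≤ span {Q1}`, `finrank_span_singleton`.)
-/

set_option autoImplicit false

namespace N64Y

open MvPolynomial Classical

variable {Ω : Type*} [Field Ω]

/-- evaluation of the polynomials of degree `≤ 2` at the points of `S` -/
private noncomputable def Card_E (S : Finset (Fin 2 → Ω)) : W Ω 2 →ₗ[Ω] ({z // z ∈ S} → Ω) :=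
  (evT (Ω := Ω) (fun z : {z // z ∈ S} => z.1)).domRestrict (W Ω 2)

private theorem Card_apply (S : Finset (Fin 2 → Ω)) (F : W Ω 2) (z : {z // z ∈ S}) :
    Card_E S F z = eval z.1 (F : MvPolynomial (Fin 2) Ω) := by
  rw [Card_E, LinearMap.domRestrict_apply, evT_apply]

private theorem Card_ker (S : Finset (Fin 2 → Ω)) (F : W Ω 2) :
    F ∈ LinearMap.ker (Card_E S) ↔ ∀ z ∈ S, eval z (F : MvPolynomial (Fin 2) Ω) = 0 := by
  rw [LinearMap.mem_ker]
  constructor
  · intro h z hz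
    have h1 := congrFun h ⟨z, hz⟩
    rw [Card_apply] at h1
    exact h1
  · intro h
    funext z
    rw [Card_apply]
    exact h z.1 z.2

private theorem Card_sum (S : Finset (Fin 2 → Ω)) :
    Module.finrank Ω (LinearMap.range (Card_E S)) +
      Module.finrank Ω (LinearMap.ker (Card_E S)) = 6 := by
  rw [LinearMap.finrank_range_add_finrank_ker, finrank_W]
  rfl

private theorem Card_two {S : Finset (Fin 2 → Ω)} {w : (Fin 2 → Ω) → Ω} (h : PC S w) :
    Module.finrank Ω (LinearMap.range (Card_E S)) +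
      Module.finrank Ω (LinearMap.range (Card_E S)) ≤ S.card := by
  have h1 := perp_finrank (fun z : {z // z ∈ S} => w z.1) (fun z => h.w_ne z.1 z.2)
    (LinearMap.range (Card_E S)) (LinearMap.range (Card_E S)) (by
      rintro _ ⟨F, rfl⟩ _ ⟨G, rfl⟩
      have hF := mem_W.1 F.2
      have hG := mem_W.1 G.2
      have h2 : ((F : MvPolynomial (Fin 2) Ω) * G).totalDegree ≤ 4 := by
        refine (totalDegree_mul _ _).trans ?_
        omega
      have h3 := h.rel _ h2
      rw [← h3, ← Finset.sum_coe_sort S (fun z => w z * eval z ((F : MvPolynomial (Fin 2) Ω) * G))]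
      refine Finset.sum_congr rfl (fun z _ => ?_)
      rw [Card_apply, Card_apply, map_mul, mul_assoc])
  rwa [Fintype.card_coe] at h1

private theorem Card_ker_le {S : Finset (Fin 2 → Ω)} {w : (Fin 2 → Ω) → Ω} (h : PC S w) :
    Module.finrank Ω (LinearMap.ker (Card_E S)) ≤ 1 := by
  by_cases hk : ∃ Q1 : LinearMap.ker (Card_E S), Q1 ≠ 0
  · obtain ⟨Q1, hQ1⟩ := hk
    refine finrank_le_one Q1 (fun Q2 => ?_)
    have h0 : ((Q1 : W Ω 2) : MvPolynomial (Fin 2) Ω) ≠ 0 := by
      intro h0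
      exact hQ1 (Subtype.ext (Subtype.ext h0))
    obtain ⟨c, hc⟩ := conic_unique h _ _ h0 (mem_W.1 (Q1 : W Ω 2).2) (mem_W.1 (Q2 : W Ω 2).2)
      ((Card_ker S _).1 Q1.2) ((Card_ker S _).1 Q2.2)
    refine ⟨c, Subtype.ext (Subtype.ext ?_)⟩
    rw [hc]
    change c • ((Q1 : W Ω 2) : MvPolynomial (Fin 2) Ω) = _
    rw [smul_eq_C_mul]
  · push Not at hk
    have h1 : Module.finrank Ω (LinearMap.ker (Card_E S)) = 0 := by
      haveI : Subsingleton (LinearMap.ker (Card_E S)) :=
        ⟨fun a b => (hk a).trans (hk b).symm⟩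
      exact Module.finrank_zero_of_subsingleton
    omega

theorem ten_le {S : Finset (Fin 2 → Ω)} {w : (Fin 2 → Ω) → Ω} (h : PC S w) : 10 ≤ S.card := by
  have h1 := Card_sum S
  have h2 := Card_two h
  have h3 := Card_ker_le h
  omega

theorem exists_conic {S : Finset (Fin 2 → Ω)} {w : (Fin 2 → Ω) → Ω} (h : PC S w) (hc : S.card ≤ 11) :
    ∃ Q : MvPolynomial (Fin 2) Ω, Q ≠ 0 ∧ Q.totalDegree ≤ 2 ∧ ∀ z ∈ S, eval z Q = 0 := by
  have h1 := Card_sum S
  have h2 := Card_two h
  have h3 : 0 < Module.finrank Ω (LinearMap.ker (Card_E S)) := by omega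
  obtain ⟨Q, hQ⟩ : ∃ Q : LinearMap.ker (Card_E S), Q ≠ 0 := by
    by_contra hcon
    push Not at hcon
    haveI : Subsingleton (LinearMap.ker (Card_E S)) :=
      ⟨fun a b => (hcon a).trans (hcon b).symm⟩
    have h4 : Module.finrank Ω (LinearMap.ker (Card_E S)) = 0 :=
      Module.finrank_zero_of_subsingleton
    omega
  refine ⟨((Q : W Ω 2) : MvPolynomial (Fin 2) Ω), ?_, mem_W.1 (Q : W Ω 2).2,
    (Card_ker S _).1 Q.2⟩
  intro h0
  exact hQ (Subtype.ext (Subtype.ext h0))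

end N64Y
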