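import Pool.Agent.H78.N64.Defs

/-!
MP_4f0605_nt, geometry, module ConeDefs: the polar forms and the cone (definitions only).
`Z = Fin s ⊕ Fin s`, signs `sg` (`+1` on the left, `-1` on the right).
-/

set_option autoImplicit false

namespace N64Y

open MvPolynomial

/-- the polar form `p_{a,b}(ξ, v) = sum_k sg_k ξ_k^a v_k^b` -/
noncomputable def pab {k : Type*} [CommRing k] {s : ℕ} (ξ : Fin s ⊕ Fin s → k) (a b : ℕ) :
    MvPolynomial (Fin s ⊕ Fin s) k :=
  ∑ i, C (sg k i * ξ i ^ a) * X i ^ b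

/-- the ideal of the polar forms with `b ≥ 1`, `a + b ≤ 4` -/
noncomputable def ICone {k : Type*} [CommRing k] {s : ℕ} (ξ : Fin s ⊕ Fin s → k) :
    Ideal (MvPolynomial (Fin s ⊕ Fin s) k) :=
  Ideal.span {f | ∃ a b : ℕ, 1 ≤ b ∧ a + b ≤ 4 ∧ f = pab ξ a b}

/-- the linear form with integral coefficients `c` -/
noncomputable def lin (k : Type*) [CommRing k] {ι : Type*} [Fintype ι] (c : ι → ℤ) : MvPolynomial ι k :=
  ∑ i, C (c i : k) * X i

/-- the ideal of a family of integral linear forms -/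
noncomputable def LCone (k : Type*) [CommRing k] {ι : Type*} [Fintype ι] {f : ℕ} (h : Fin f → ι → ℤ) :
    Ideal (MvPolynomial ι k) :=
  Ideal.span (Set.range fun l => lin k (h l))

/-- the irrelevant ideal -/
noncomputable def mX (k : Type*) [CommRing k] (ι : Type*) : Ideal (MvPolynomial ι k) :=
  Ideal.span (Set.range X)

/-- homogeneous ideal: contains the homogeneous components of its elements -/
def HomI {k : Type*} [CommRing k] {ι : Type*} (I : Ideal (MvPolynomial ι k)) : Prop :=
  ∀ g ∈ I, ∀ n : ℕ, homogeneousComponent n g ∈ I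

/-- (CONE) at `ξ` with the forms `h`, exponent `M` -/
def ConeAt {k : Type*} [CommRing k] {s f : ℕ} (ξ : Fin s ⊕ Fin s → k) (h : Fin f → (Fin s ⊕ Fin s) → ℤ)
    (M : ℕ) : Prop :=
  mX k (Fin s ⊕ Fin s) ^ M ≤ ICone ξ ⊔ LCone k h

/-- the class of the variable `X i` in the fraction field of `F[X]/Q` -/
noncomputable def gpt {F : Type*} [Field F] {ι : Type*} (Q : Ideal (MvPolynomial ι F)) [Q.IsPrime] (i : ι) :
    FractionRing (MvPolynomial ι F ⧸ Q) :=
  algebraMap (MvPolynomial ι F ⧸ Q) _ (Ideal.Quotient.mk Q (X i))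

/-- the dimension of a prime ideal as transcendence degree of its generic point -/
noncomputable def tdq {F : Type*} [Field F] {ι : Type*} (Q : Ideal (MvPolynomial ι F)) [Q.IsPrime] : ℕ :=
  td F (gpt Q)

end N64Y
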