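import Pool.Agent.H78.N64.Defs

/-!
MP_4f0605_nt, section 6, module ConfPC: from a configuration to the weighted set of points.

PROOFS.
* `rel_poly`: write `F = sum_{d ∈ F.support} monomial d (coeff d F)` (`MvPolynomial.as_sum`), `eval z (monomial d c) = c * z 0 ^ d 0 * z 1 ^ d 1`
  (`eval_monomial`, `Finsupp.prod_fintype`, `Fin.prod_univ_two`), `d 0 + d 1 ≤ F.totalDegree ≤ 4` (`le_totalDegree`, `Finsupp.sum_fintype`); the sum over `k` splits
  (`Fintype.sum_sum_type`) as `sum_i .. - sum_j .. = 0` by `Conf.rel`.
* `nd_poly`: a polynomial of degree `≤ 1` is `C γ + C α * X 0 + C β * X 1`, or: `F = sum_{d ∈ support}`, `d 0 + d 1 ≤ 1`; its value at `z` is `α z 0 + β z 1 + γ` with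
  `α = coeff (single 0 1) F`, `β = coeff (single 1 1) F`, `γ = coeff 0 F`; by `Conf.nd` these are `0`, so `F = 0`.
* `pts_ne`: `Conf.ne` (`![a,b] = ![c,d]` iff `a = c ∧ b = d`).
* `pc`: `wgt z = sum_{k : pts k = z} sg k`. For `z` in `PS`: all `k` with `pts k = z` are of the same kind (`pts_ne`), so `wgt z = ± (number of such k)`, a nonzero natural
  number in characteristic 0. `sum_{z ∈ PS} wgt z F(z) = sum_k sg k F(pts k)` (`Finset.sum_fiberwise`-type identity, `Finset.sum_image'` or
  `Finset.sum_comm'`), `= 0` by `rel_poly`.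
* `card_PS`: `Finset.card_image_le`, `card (Fin s ⊕ Fin s) = 2s`.
* `map`: apply the ring homomorphism to `rel`; `ne` by injectivity; `nd`: by `nd` over the small field the vectors `(x,y), (u,v), (1,1)` in `K^(Fin s ⊕ Fin s)` are
  linearly independent over `K`, so their images are linearly independent over the big field: e.g. choose three indices `k1,k2,k3` with
  `det [[x,u,1]] ≠ 0` (some 3x3 minor is nonzero: `LinearIndependent` of the 3 rows; or by hand: pick `k1`; some point differs from it; the line through the two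
  does not contain all points); the determinant condition is preserved by the injective ring homomorphism, and implies `nd` (Cramer).
  Alternative: linear independence is preserved under base change (`LinearIndependent.map_of_injective`.. / `LinearMap.baseChange`).
-/

set_option autoImplicit false

namespace N64Y

open MvPolynomial Classical

namespace Conf

variable {Ω : Type*} [Field Ω] {s : ℕ} {x u y v : Fin s → Ω}

private theorem ConfPC_eval (F : MvPolynomial (Fin 2) Ω) (a b : Ω) :
    eval ![a, b] F = ∑ d ∈ F.support, coeff d F * (a ^ d 0 * b ^ d 1) := by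
  rw [MvPolynomial.eval_eq']
  refine Finset.sum_congr rfl fun d _ => ?_
  rw [Fin.prod_univ_two]
  simp

private theorem ConfPC_deg (F : MvPolynomial (Fin 2) Ω) (d : Fin 2 →₀ ℕ) (hd : d ∈ F.support) :
    d 0 + d 1 ≤ F.totalDegree := by
  have h := MvPolynomial.le_totalDegree hd
  rw [Finsupp.sum_fintype _ _ (fun _ => rfl), Fin.sum_univ_two] at h
  exact h

theorem rel_poly (h : Conf x u y v) (F : MvPolynomial (Fin 2) Ω) (hF : F.totalDegree ≤ 4) :
    ∑ k, sg Ω k * eval (pts x u y v k) F = 0 := by
  rw [Fintype.sum_sum_type]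
  simp only [sg, pts, Sum.elim_inl, Sum.elim_inr, one_mul, neg_mul]
  rw [Finset.sum_neg_distrib, ← sub_eq_add_neg, sub_eq_zero]
  simp only [ConfPC_eval]
  rw [Finset.sum_comm]
  conv_rhs => rw [Finset.sum_comm]
  refine Finset.sum_congr rfl fun d hd => ?_
  rw [← Finset.mul_sum, ← Finset.mul_sum, h.rel (d 0) (d 1) ((ConfPC_deg F d hd).trans hF)]

theorem nd_poly (h : Conf x u y v) (F : MvPolynomial (Fin 2) Ω) (hF : F.totalDegree ≤ 1)
    (h0 : ∀ k, eval (pts x u y v k) F = 0) : F = 0 := by
  have hne01 : (0 : Fin 2 →₀ ℕ) ≠ Finsupp.single 0 1 := by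
    intro h
    have := DFunLike.congr_fun h 0
    simp at this
  have hne02 : (0 : Fin 2 →₀ ℕ) ≠ Finsupp.single 1 1 := by
    intro h
    have := DFunLike.congr_fun h 1
    simp at this
  have hne12 : (Finsupp.single 0 1 : Fin 2 →₀ ℕ) ≠ Finsupp.single 1 1 := by
    intro h
    have := DFunLike.congr_fun h 0
    simp at this
  have hsub : F.support ⊆ ({0, Finsupp.single 0 1, Finsupp.single 1 1} : Finset (Fin 2 →₀ ℕ)) := by
    intro d hd
    have h1 := (ConfPC_deg F d hd).trans hF
    have h2 : (d 0 = 0 ∧ d 1 = 0) ∨ (d 0 = 1 ∧ d 1 = 0) ∨ (d 0 = 0 ∧ d 1 = 1) := by omega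
    simp only [Finset.mem_insert, Finset.mem_singleton]
    rcases h2 with ⟨a, b⟩ | ⟨a, b⟩ | ⟨a, b⟩
    · left
      ext i
      fin_cases i
      · simpa using a
      · simpa using b
    · right; left
      ext i
      fin_cases i
      · simpa using a
      · simpa using b
    · right; right
      ext i
      fin_cases i
      · simpa using a
      · simpa using b
  have hev : ∀ a b : Ω, eval ![a, b] F
      = coeff (Finsupp.single 0 1) F * a + coeff (Finsupp.single 1 1) F * b + coeff 0 F := by
    intro a b
    rw [ConfPC_eval, Finset.sum_subset hsub, Finset.sum_insert, Finset.sum_insert,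
      Finset.sum_singleton]
    · simp
      ring
    · simpa using hne12
    · simp only [Finset.mem_insert, Finset.mem_singleton, not_or]
      exact ⟨hne01, hne02⟩
    · intro d _ hd
      rw [MvPolynomial.notMem_support_iff.1 hd, zero_mul]
  have hnd := h.nd (coeff (Finsupp.single 0 1) F) (coeff (Finsupp.single 1 1) F) (coeff 0 F)
    (fun i => by
      rw [← hev]
      exact h0 (Sum.inl i))
    (fun j => by
      rw [← hev]
      exact h0 (Sum.inr j))
  obtain ⟨ha, hb, hc⟩ := hnd
  ext d
  rw [coeff_zero]
  by_contra hne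
  have hd := hsub (MvPolynomial.mem_support_iff.2 hne)
  simp only [Finset.mem_insert, Finset.mem_singleton] at hd
  rcases hd with rfl | rfl | rfl
  · exact hne hc
  · exact hne ha
  · exact hne hb

theorem pts_ne (h : Conf x u y v) (i j : Fin s) : pts x u y v (Sum.inl i) ≠ pts x u y v (Sum.inr j) := by
  intro he
  simp only [pts, Sum.elim_inl, Sum.elim_inr] at he
  have h0 := congr_fun he 0
  have h1 := congr_fun he 1
  simp at h0 h1
  exact h.ne i j ⟨h0, h1⟩

/-- the set of the distinct points -/
noncomputable def PS (x u y v : Fin s → Ω) : Finset (Fin 2 → Ω) := Finset.univ.image (pts x u y v)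

/-- the weights -/
noncomputable def wgt (x u y v : Fin s → Ω) (z : Fin 2 → Ω) : Ω :=
  ∑ k ∈ Finset.univ.filter (fun k => pts x u y v k = z), sg Ω k

theorem pc [CharZero Ω] (h : Conf x u y v) : PC (PS x u y v) (wgt x u y v) := by
  refine ⟨?_, ?_, ?_⟩
  · intro z hz
    obtain ⟨k0, _, hk0⟩ := Finset.mem_image.1 hz
    have key : ∃ c : Ω, c ≠ 0 ∧ ∀ k ∈ Finset.univ.filter (fun k => pts x u y v k = z), sg Ω k = c := by
      rcases k0 with i | j
      · refine ⟨1, one_ne_zero, ?_⟩
        intro k hk
        rcases k with a | b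
        · rfl
        · exfalso
          have h1 := (Finset.mem_filter.1 hk).2
          exact h.pts_ne i b (hk0.trans h1.symm)
      · refine ⟨-1, neg_ne_zero.2 one_ne_zero, ?_⟩
        intro k hk
        rcases k with a | b
        · exfalso
          have h1 := (Finset.mem_filter.1 hk).2
          exact h.pts_ne a j (h1.trans hk0.symm)
        · rfl
    obtain ⟨c, hc, hk⟩ := key
    unfold wgt
    rw [Finset.sum_congr rfl hk, Finset.sum_const, nsmul_eq_mul]
    refine mul_ne_zero ?_ hc
    rw [Nat.cast_ne_zero, Finset.card_ne_zero]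
    exact ⟨k0, Finset.mem_filter.2 ⟨Finset.mem_univ _, hk0⟩⟩
  · intro F hF
    rw [← h.rel_poly F hF]
    rw [← Finset.sum_fiberwise_of_maps_to (s := Finset.univ) (t := PS x u y v)
      (g := pts x u y v) (fun k _ => Finset.mem_image_of_mem _ (Finset.mem_univ k))]
    refine Finset.sum_congr rfl fun z _ => ?_
    unfold wgt
    rw [Finset.sum_mul]
    refine Finset.sum_congr rfl fun k hk => ?_
    rw [(Finset.mem_filter.1 hk).2]
  · intro F hF h0
    exact h.nd_poly F hF fun k => h0 _ (Finset.mem_image_of_mem _ (Finset.mem_univ k))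

theorem card_PS : (PS x u y v).card ≤ 2 * s := by
  refine Finset.card_image_le.trans ?_
  rw [Finset.card_univ, Fintype.card_sum, Fintype.card_fin]
  omega

theorem map {Ω' : Type*} [Field Ω'] (f : Ω →+* Ω') (h : Conf x u y v) :
    Conf (f ∘ x) (f ∘ u) (f ∘ y) (f ∘ v) := by
  refine ⟨?_, ?_, ?_⟩
  · intro a b hab
    have h1 := congrArg f (h.rel a b hab)
    simpa [map_sum, map_mul, map_pow] using h1
  · rintro i j ⟨h1, h2⟩
    exact h.ne i j ⟨f.injective h1, f.injective h2⟩
  · set X : Fin s ⊕ Fin s → Ω := Sum.elim x y with hX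
    set U : Fin s ⊕ Fin s → Ω := Sum.elim u v with hU
    set A : Fin 3 → (Fin s ⊕ Fin s) → Ω := ![X, U, fun _ => 1] with hA
    let L : (Fin 3 → Ω) →ₗ[Ω] (Fin s ⊕ Fin s → Ω) :=
      { toFun := fun c k => ∑ i, c i * A i k
        map_add' := by
          intro c d
          funext k
          simp only [Pi.add_apply, add_mul, Finset.sum_add_distrib]
        map_smul' := by
          intro r c
          funext k
          simp only [Pi.smul_apply, smul_eq_mul, RingHom.id_apply, mul_assoc, Finset.mul_sum] }
    have hL : LinearMap.ker L = ⊥ := by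
      rw [LinearMap.ker_eq_bot']
      intro c hc
      have h1 : ∀ k, c 0 * X k + c 1 * U k + c 2 = 0 := by
        intro k
        have h2 : ∑ i, c i * A i k = 0 := congr_fun hc k
        rw [Fin.sum_univ_three] at h2
        simpa [hA] using h2
      obtain ⟨a, b, d⟩ := h.nd (c 0) (c 1) (c 2) (fun i => h1 (Sum.inl i)) (fun j => h1 (Sum.inr j))
      funext i
      fin_cases i
      · exact a
      · exact b
      · exact d
    obtain ⟨g, hg⟩ := LinearMap.exists_leftInverse_of_injective L hL
    have hgl : ∀ (w : Fin s ⊕ Fin s → Ω) (j : Fin 3), g w j = ∑ k, w k * g (Pi.single k 1) j := by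
      intro w j
      have h1 : w = ∑ k, w k • (Pi.single k (1 : Ω) : Fin s ⊕ Fin s → Ω) := by
        funext k
        simp [Finset.sum_apply, Pi.single_apply]
      conv_lhs => rw [h1]
      rw [map_sum, Finset.sum_apply]
      simp only [map_smul, Pi.smul_apply, smul_eq_mul]
    have hdelta : ∀ i j : Fin 3, ∑ k, A i k * g (Pi.single k 1) j = if i = j then 1 else 0 := by
      intro i j
      have h1 := congr_fun (LinearMap.congr_fun hg (Pi.single i 1)) j
      rw [LinearMap.comp_apply, hgl] at h1
      have h2 : ∀ k, (L (Pi.single i 1)) k = A i k := by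
        intro k
        change ∑ i', (Pi.single i (1 : Ω) : Fin 3 → Ω) i' * A i' k = A i k
        simp [Pi.single_apply]
      simp only [h2] at h1
      rw [h1]
      simp [Pi.single_apply, eq_comm]
    intro α β γ h1 h2
    set c : Fin 3 → Ω' := ![α, β, γ] with hc
    have hk : ∀ k, ∑ i, c i * f (A i k) = 0 := by
      intro k
      rw [Fin.sum_univ_three]
      rcases k with i | j
      · have := h1 i
        simpa [hc, hA, hX, hU] using this
      · have := h2 j
        simpa [hc, hA, hX, hU] using this
    have hz : ∀ j, c j = 0 := by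
      intro j
      have h3 : c j = ∑ i, c i * f (∑ k, A i k * g (Pi.single k 1) j) := by
        simp only [hdelta]
        simp
      rw [h3]
      have h4 : ∀ i, c i * f (∑ k, A i k * g (Pi.single k 1) j)
          = ∑ k, (c i * f (A i k)) * f (g (Pi.single k 1) j) := by
        intro i
        rw [map_sum, Finset.mul_sum]
        refine Finset.sum_congr rfl fun k _ => ?_
        rw [map_mul]; ring
      simp only [h4]
      rw [Finset.sum_comm]
      refine Finset.sum_eq_zero fun k _ => ?_
      rw [← Finset.sum_mul, hk, zero_mul]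
    exact ⟨hz 0, hz 1, hz 2⟩

end Conf

end N64Y
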