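import Mathlib

/-!
MP_4f0605_nt, sections 6 and 7 (and the definitions used by 8, 9): common definitions.
`m = s - 2`; a point is `P : Fin (m+2+m) → R` (s = 6: m = 4, `Fin 10`; s = 5: m = 3, `Fin 8`);
`cx P = (x_1..x_s)` are the first `m+2` coordinates, `cy P = (y_1..y_s)` with `y_1 = 0`, `y_2..y_{s-1}` the last `m`
coordinates of `P`, `y_s = sum x - sum_{j<s} y_j`.
-/

set_option autoImplicit false

namespace N64Y

open MvPolynomial

/-! ### transcendence degree of a family in a field -/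

/-- transcendence degree over `K` of the field generated by the family `z` -/
noncomputable def td (K : Type*) [Field K] {Ω : Type*} [Field Ω] [Algebra K Ω] {ι : Type*} (z : ι → Ω) : ℕ :=
  Cardinal.toNat (Algebra.trdeg K (IntermediateField.adjoin K (Set.range z)))

/-! ### plane configurations -/

/-- (R), (N), (C) of section 6 for the points `p_i = (x_i,u_i)`, `q_j = (y_j,v_j)`. -/
structure Conf {R : Type*} [CommRing R] {s : ℕ} (x u y v : Fin s → R) : Prop where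
  rel : ∀ a b : ℕ, a + b ≤ 4 → ∑ i, x i ^ a * u i ^ b = ∑ j, y j ^ a * v j ^ b
  ne : ∀ i j, ¬ (x i = y j ∧ u i = v j)
  nd : ∀ α β γ : R, (∀ i, α * x i + β * u i + γ = 0) → (∀ j, α * y j + β * v j + γ = 0) →
    α = 0 ∧ β = 0 ∧ γ = 0

/-- a finite set of points of the plane with nonzero weights, orthogonal to the polynomials of degree `≤ 4`,
not contained in a line. -/
structure PC {Ω : Type*} [Field Ω] (S : Finset (Fin 2 → Ω)) (w : (Fin 2 → Ω) → Ω) : Prop where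
  w_ne : ∀ z ∈ S, w z ≠ 0
  rel : ∀ F : MvPolynomial (Fin 2) Ω, F.totalDegree ≤ 4 → ∑ z ∈ S, w z * eval z F = 0
  nd : ∀ F : MvPolynomial (Fin 2) Ω, F.totalDegree ≤ 1 → (∀ z ∈ S, eval z F = 0) → F = 0

/-- the `2s` points of a configuration, indexed by `Fin s ⊕ Fin s` -/
def pts {R : Type*} {s : ℕ} (x u y v : Fin s → R) : Fin s ⊕ Fin s → (Fin 2 → R) :=
  Sum.elim (fun i => ![x i, u i]) (fun j => ![y j, v j])

/-- the signs `+1` on the `p`'s, `-1` on the `q`'s -/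
def sg (R : Type*) [CommRing R] {s : ℕ} : Fin s ⊕ Fin s → R :=
  Sum.elim (fun _ => 1) (fun _ => -1)

/-- the bracket `{F,Q} = F_X Q_U - F_U Q_X` -/
noncomputable def br {R : Type*} [CommRing R] (F Q : MvPolynomial (Fin 2) R) : MvPolynomial (Fin 2) R :=
  pderiv 0 F * pderiv 1 Q - pderiv 1 F * pderiv 0 Q

/-! ### points, norms, the equations -/

/-- the real vector of an integral vector -/
def rv {ι : Type*} (P : ι → ℤ) : ι → ℝ := fun i => (P i : ℝ)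

/-- `b` is `C`-reduced (sup norm): `|a_j| ‖b_j‖ ≤ C ‖sum a_i b_i‖` for all real `a`. -/
def Red {ι : Type*} [Fintype ι] {k : ℕ} (C : ℝ) (b : Fin k → ι → ℤ) : Prop :=
  ∀ a : Fin k → ℝ, ∀ j, |a j| * ‖rv (b j)‖ ≤ C * ‖∑ i, a i • rv (b i)‖

/-- `x_1..x_s` -/
def cx {R : Type*} {m : ℕ} (P : Fin (m + 2 + m) → R) : Fin (m + 2) → R :=
  fun i => P (Fin.castAdd m i)

/-- `y_1..y_s` (`y_1 = 0`, `y_s = sum x - sum_{j<s} y_j`) -/
def cy {R : Type*} [CommRing R] {m : ℕ} (P : Fin (m + 2 + m) → R) : Fin (m + 2) → R :=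
  Fin.cons (α := fun _ => R) 0 (Fin.snoc (α := fun _ => R) (fun j : Fin m => P (Fin.natAdd (m + 2) j))
    (∑ i : Fin (m + 2), P (Fin.castAdd m i) - ∑ j : Fin m, P (Fin.natAdd (m + 2) j)))

/-- `EE_a(P) = sum x_i^a - sum y_j^a` -/
def EE {R : Type*} [CommRing R] {m : ℕ} (a : ℕ) (P : Fin (m + 2 + m) → R) : R :=
  ∑ i, cx P i ^ a - ∑ j, cy P j ^ a

/-- `SIG_s(H)`, `s = m + 2` -/
def SIG (m : ℕ) (H : ℝ) : Set (Fin (m + 2 + m) → ℤ) :=
  {P | Finset.univ.gcd P = 1 ∧ 0 < cx P 0 ∧ ‖rv P‖ ≤ H ∧ EE 2 P = 0 ∧ EE 3 P = 0 ∧ EE 4 P = 0 ∧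
    ∀ i j, cx P i ≠ cy P j}

/-- the pair `(p,q)` is a reduced pair on whose span the equations vanish identically -/
structure HPair (m : ℕ) (p q : Fin (m + 2 + m) → ℤ) : Prop where
  ne : p ≠ 0
  le : ‖rv p‖ ≤ ‖rv q‖
  red : Red 3 ![p, q]
  eq : ∀ a ∈ Finset.Icc 2 4, ∀ σ τ : ℤ, EE a (fun i => σ * p i + τ * q i) = 0

/-- `P` is HEAVY with respect to `B` (7.5, with `C_1 = 1`) -/
def Heavy (m : ℕ) (B : ℝ) (P : Fin (m + 2 + m) → ℤ) : Prop :=
  ∃ p q : Fin (m + 2 + m) → ℤ, HPair m p q ∧ ‖rv p‖ * ‖rv q‖ ≤ B ^ (0.96 : ℝ) ∧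
    ∃ a b : ℤ, P = fun i => a * p i + b * q i

example (P : Fin 10 → ℤ) : cx (m := 4) P 0 = P 0 := rfl
example (P : Fin 10 → ℤ) : cy (m := 4) P 1 = P 6 := rfl
example (P : Fin 8 → ℤ) : cy (m := 3) P 3 = P 7 := rfl

end N64Y
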