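import Pool.Agent.H78.N64.Defs

/-!
MP_4f0605_nt, section 6, module Der (1.12): derivations with prescribed values on an algebraically independent family.

PROOF of `exists_derivation`. Extend `z` to a transcendence basis: `z` is injective, `range z` is contained in a set `B` such that `Subtype.val : B → Ω` is a
transcendence basis of `Ω` over `K` (`exists_isTranscendenceBasis_superset`). Let `P = MvPolynomial B K`, `Ω` is a `P`-algebra by `aeval Subtype.val` (injective), let
`F = FractionRing P`, `Ω` is an `F`-algebra (`IsFractionRing.lift`), algebraic (`IsTranscendenceBasis.isAlgebraic`), separable (char 0), so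
`Algebra.FormallyEtale F Ω` (`Algebra.FormallyEtale.of_isSeparable`), `Algebra.FormallyEtale P F` (`Algebra.FormallyEtale.of_isLocalization`), hence
`Algebra.FormallyEtale P Ω` (`.comp`). So `KaehlerDifferential.tensorKaehlerEquivOfFormallyEtale K P Ω : Ω ⊗[P] Ω[P⁄K] ≃ₗ[Ω] Ω[Ω⁄K]` (Mathlib.RingTheory.Etale.Kaehler), and
`Ω[P⁄K]` is free with basis `D (X b)` (`KaehlerDifferential.mvPolynomialBasis`). So there is an `Ω`-linear map `Ω[Ω⁄K] → Ω` with `d b ↦ c'(b)`, where `c'(z i) = c i`, `c' = 0` outside
`range z`. The derivation is `(KaehlerDifferential.linearMapEquivDerivation K Ω)` of this map.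
ALTERNATIVE without Kaehler: on `P` take `MvPolynomial.mkDerivation K (c' : B → Ω)` (`Derivation K P Ω`), and extend it from `P` to `Ω` by the lifting property of formally etale
algebras: a derivation `d : P → Ω` is an algebra map `P → Ω[ε] = TrivSqZeroExt`, lift it to `Ω` (`Algebra.FormallyEtale.lift`/`FormallySmooth.lift`).
-/

set_option autoImplicit false

namespace N64Y

open MvPolynomial TensorProduct

/-- extension of derivations along formally etale maps -/
private theorem ext_der {K P Ω : Type*} [Field K] [CommRing P] [Field Ω] [Algebra K P] [Algebra P Ω]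
    [Algebra K Ω] [IsScalarTower K P Ω] [Algebra.FormallyEtale P Ω] (D0 : Derivation K P Ω) :
    ∃ D : Derivation K Ω Ω, ∀ p : P, D (algebraMap P Ω p) = D0 p := by
  refine ⟨((LinearMap.liftBaseChange Ω D0.liftKaehlerDifferential).comp
    (KaehlerDifferential.tensorKaehlerEquivOfFormallyEtale K P Ω).symm.toLinearMap).compDer
    (KaehlerDifferential.D K Ω), fun p => ?_⟩
  change LinearMap.liftBaseChange Ω D0.liftKaehlerDifferential
      ((KaehlerDifferential.tensorKaehlerEquivOfFormallyEtale K P Ω).symm
        (KaehlerDifferential.D K Ω (algebraMap P Ω p))) = _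
  rw [KaehlerDifferential.tensorKaehlerEquivOfFormallyEtale_symm_D_algebraMap,
    LinearMap.liftBaseChange_tmul, Derivation.liftKaehlerDifferential_comp_D, one_smul]

open scoped IntermediateField.algebraAdjoinAdjoin in
private theorem etale_adjoin {K : Type*} [Field K] [CharZero K] {Ω : Type*} [Field Ω] [Algebra K Ω]
    {B : Set Ω} (hBt : IsTranscendenceBasis K ((↑) : B → Ω)) :
    Algebra.FormallyEtale (Algebra.adjoin K (Set.range ((↑) : B → Ω))) Ω := by
  have e1 : Algebra.FormallyEtale (Algebra.adjoin K (Set.range ((↑) : B → Ω)))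
    (IntermediateField.adjoin K (Set.range ((↑) : B → Ω))) := .of_isLocalization (nonZeroDivisors _)
  have hsep : Algebra.IsSeparable (IntermediateField.adjoin K (Set.range ((↑) : B → Ω))) Ω := by
    have h1 : Algebra.IsAlgebraic (IntermediateField.adjoin K (Set.range ((↑) : B → Ω))) Ω :=
      hBt.isAlgebraic_field
    infer_instance
  have e2 : Algebra.FormallyEtale (IntermediateField.adjoin K (Set.range ((↑) : B → Ω))) Ω :=
    Algebra.FormallyEtale.of_isSeparable _ Ω
  exact .comp _ (IntermediateField.adjoin K (Set.range ((↑) : B → Ω))) Ω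

/-- derivations of a polynomial ring into an algebra -/
private theorem der_adjoin {K : Type*} [Field K] {Ω : Type*} [Field Ω] [Algebra K Ω]
    {B : Set Ω} (hind : AlgebraicIndependent K ((↑) : B → Ω)) (c : B → Ω) :
    ∃ D : Derivation K (Algebra.adjoin K (Set.range ((↑) : B → Ω))) Ω,
      ∀ b : B, D ⟨b, Algebra.subset_adjoin ⟨b, rfl⟩⟩ = c b := by
  let _ : Module (MvPolynomial B K) Ω := Module.compHom Ω (aeval ((↑) : B → Ω)).toRingHom
  have hsm : ∀ (p : MvPolynomial B K) (w : Ω), p • w = aeval ((↑) : B → Ω) p * w :=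
    fun p w => rfl
  have t1 : IsScalarTower K (MvPolynomial B K) Ω := by
    refine ⟨fun k p w => ?_⟩
    rw [hsm, hsm, map_smul, Algebra.smul_mul_assoc]
  have hcoe : ∀ a : Algebra.adjoin K (Set.range ((↑) : B → Ω)),
      aeval ((↑) : B → Ω) (hind.aevalEquiv.symm a) = (a : Ω) := by
    intro a
    rw [← hind.algebraMap_aevalEquiv, AlgEquiv.apply_symm_apply]
    rfl
  refine ⟨Derivation.mk' ((mkDerivation K c : Derivation K (MvPolynomial B K) Ω).toLinearMap.comp
    hind.aevalEquiv.symm.toLinearMap) ?_, ?_⟩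
  · intro a b
    change (mkDerivation K c : Derivation K (MvPolynomial B K) Ω)
      (hind.aevalEquiv.symm (a * b)) = (a : Ω) * (mkDerivation K c : Derivation K (MvPolynomial B K) Ω)
      (hind.aevalEquiv.symm b) + (b : Ω) * (mkDerivation K c : Derivation K (MvPolynomial B K) Ω)
      (hind.aevalEquiv.symm a)
    rw [map_mul, Derivation.leibniz, hsm, hsm, hcoe, hcoe]
  · intro b
    have h1 : hind.aevalEquiv.symm ⟨b, Algebra.subset_adjoin ⟨b, rfl⟩⟩ = X b := by
      rw [AlgEquiv.symm_apply_eq]
      apply Subtype.ext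
      have := hind.algebraMap_aevalEquiv (X b)
      rw [aeval_X] at this
      exact this.symm
    change (mkDerivation K c : Derivation K (MvPolynomial B K) Ω)
      (hind.aevalEquiv.symm ⟨b, Algebra.subset_adjoin ⟨b, rfl⟩⟩) = c b
    rw [h1, mkDerivation_X]

theorem exists_derivation {K : Type*} [Field K] [CharZero K] {Ω : Type*} [Field Ω] [Algebra K Ω]
    {ι : Type*} (z : ι → Ω) (hz : AlgebraicIndependent K z) (c : ι → Ω) :
    ∃ D : Derivation K Ω Ω, ∀ i, D (z i) = c i := by
  classical
  have hinj : Function.Injective z := hz.injective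
  obtain ⟨B, hB, hBt⟩ := exists_isTranscendenceBasis_superset (R := K) (s := Set.range z)
    ((algebraicIndependent_subtype_range hinj).2 hz)
  have hind : AlgebraicIndependent K ((↑) : B → Ω) := hBt.1
  let c' : B → Ω := fun b => if h : ∃ i, z i = (b : Ω) then c h.choose else 0
  have hc' : ∀ i, c' ⟨z i, hB ⟨i, rfl⟩⟩ = c i := by
    intro i
    have h : ∃ j, z j = ((⟨z i, hB ⟨i, rfl⟩⟩ : B) : Ω) := ⟨i, rfl⟩
    simp only [c', dif_pos h]
    exact congrArg c (hinj h.choose_spec)
  have e3 := etale_adjoin hBt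
  obtain ⟨D0, hD0⟩ := der_adjoin hind c'
  obtain ⟨D, hD⟩ := ext_der D0
  exact ⟨D, fun i => (hD ⟨z i, Algebra.subset_adjoin ⟨⟨z i, hB ⟨i, rfl⟩⟩, rfl⟩⟩).trans
    ((hD0 ⟨z i, hB ⟨i, rfl⟩⟩).trans (hc' i))⟩

end N64Y
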