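import Pool.Agent.H78.N64.V2
import Pool.Agent.H78.N64.BrackII
import Pool.Agent.H78.N64.Card

/-!
MP_4f0605_nt, section 6, module DimII (6.9 (b)): `dim V2 ≤ 2s - 3`.

PROOFS. `Q` has degree exactly `2` (`Conf.nd_poly`), `Z = Fin s ⊕ Fin s`.
* `dim_sigma`: `Λ F k = sg k * eval (pts k) (br F Q)` on `W Ω 4` (dimension 15). If `F ∈ ker Λ`: `br F Q` has degree `≤ 4` (`totalDegree_pderiv_le`: `3 + 1`) and vanishes at all
  points: `Q ∣ br F Q` (`conic_dvd`, `Conf.pc`, `ten_le`), so `Q ∣ F - C c` (`brack_const`), `F = C c + Q * G`, `totalDegree G ≤ 2` (if `F - C c ≠ 0`; `totalDegree_mul_of_isDomain`, and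
  `totalDegree (F - C c) ≤ 4`). So `ker Λ` is contained in the image of `Ω × W Ω 2` (dimension `1 + 6 = 7`) under `(c,G) ↦ C c + Q G`: `finrank ker Λ ≤ 7`, and `finrank_ann`:
  `finrank (annS Λ) ≤ 2 s + 7 - 15`. Stated with `SG = annS Λ` as explicit submodule `Sig`.
* `hess_inj`: let `k` be with `grad Q(z_k) = 0` and `(a,b)` with `Q_{00} a + Q_{01} b = 0`, `Q_{01} a + Q_{11} b = 0` (at `z_k`; the second derivatives are constants). Then `a = b = 0`.
  Proof: Taylor at `z_k` (degree 2): `Q(z) = (1/2)(Q_{00} X'^2 + 2 Q_{01} X' U' + Q_{11} U'^2)`, `X' = X - x_k`, `U' = U - u_k` (since `Q(z_k) = 0`, `grad = 0`).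
  If `(a,b) ≠ 0` the Hessian matrix is singular, so the quadratic form is `c * (α X' + β U')^2` with `(α,β) ≠ 0` (`α = b, β = -a`; `c ≠ 0`): `Q = C c * l^2`, `l` of degree 1, and `l` vanishes at
  all points, contradiction with `Conf.nd_poly`.
* `dim_V2`: let `E = {(t,R) ∈ (Fin 2 × Z → Ω) × W Ω 2 : t ∈ V1, V2rel t R}` (a submodule). Projection `E → V2` is onto with kernel `∋ (0,Q)`; so `finrank V2 + 1 ≤ finrank E`.
  Projection `E → W Ω 2` (dimension 6) has kernel `{(t,0)}`, and its dimension is `≤ finrank Sig ≤ 2s - 8`: the linear map `Sig → (Fin 2 × Z → Ω)`, `σ ↦ t(0,k) = σ_k Q_1(z_k)`,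
  `t(1,k) = - σ_k Q_0(z_k)` has every such `t` in its image: if `grad Q(z_k) ≠ 0` the equation (a) `Q_0 t(0,k) + Q_1 t(1,k) = 0` gives `σ_k`; if `grad Q(z_k) = 0` then (b) and
  `hess_inj` give `t(·,k) = 0`, take `σ_k = 0`. And `σ ∈ Sig` because `sum_e F_e(z_k) t(e,k) = σ_k br F Q (z_k)` and `t ∈ V1`.
  So `finrank V2 + 1 ≤ 6 + (2s - 8)`.
-/

set_option autoImplicit false

namespace N64Y

open MvPolynomial Classical

variable {Ω : Type*} [Field Ω] [CharZero Ω] [IsAlgClosed Ω] {s : ℕ} {x u y v : Fin s → Ω}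

/-- the functions `σ` on the points orthogonal to the brackets -/
noncomputable def Sig {Ω : Type*} [Field Ω] {s : ℕ} (x u y v : Fin s → Ω) (Q : MvPolynomial (Fin 2) Ω) :
    Submodule Ω (Fin s ⊕ Fin s → Ω) where
  carrier := {t | ∀ F : MvPolynomial (Fin 2) Ω, F.totalDegree ≤ 4 →
    ∑ k, sg Ω k * (eval (pts x u y v k) (br F Q) * t k) = 0}
  add_mem' := by
    intro a b ha hb F hF
    have := congrArg₂ (· + ·) (ha F hF) (hb F hF)
    simp only [add_zero, ← Finset.sum_add_distrib, ← mul_add] at this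
    simpa [mul_add] using this
  zero_mem' := by intro F hF; simp
  smul_mem' := by
    intro c a ha F hF
    have := congrArg (c * ·) (ha F hF)
    simp only [mul_zero, Finset.mul_sum] at this
    rw [← this]
    exact Finset.sum_congr rfl fun e _ => by simp only [Pi.smul_apply, smul_eq_mul]; ring

private theorem dimII_quad {Ω : Type*} [Field Ω] (l : MvPolynomial (Fin 2) Ω) (hl : l.totalDegree ≤ 2) :
    ∃ q0 q1 q2 q3 q4 q5 : Ω, l = C q0 + C q1 * X 0 + C q2 * X 1 + C q3 * X 0 ^ 2 + C q4 * (X 0 * X 1) +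
      C q5 * X 1 ^ 2 := by
  let D : ℕ → ℕ → (Fin 2 →₀ ℕ) := fun a b => Finsupp.single 0 a + Finsupp.single 1 b
  have hinj : ∀ a b a' b' : ℕ, (D a b = D a' b') ↔ (a = a' ∧ b = b') := by
    intro a b a' b'
    constructor
    · intro e
      have e0 := DFunLike.congr_fun e 0
      have e1 := DFunLike.congr_fun e 1
      simp [D] at e0 e1
      exact ⟨e0, e1⟩
    · rintro ⟨rfl, rfl⟩; rfl
  have hmon : ∀ (a b : ℕ) (c : Ω), monomial (D a b) c = C c * (X 0 ^ a * X 1 ^ b) := by
    intro a b c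
    rw [X_pow_eq_monomial, X_pow_eq_monomial, monomial_mul, C_mul_monomial, one_mul, mul_one]
  refine ⟨coeff (D 0 0) l, coeff (D 1 0) l, coeff (D 0 1) l,
    coeff (D 2 0) l, coeff (D 1 1) l, coeff (D 0 2) l, ?_⟩
  have hrw : C (coeff (D 0 0) l) + C (coeff (D 1 0) l) * X 0 + C (coeff (D 0 1) l) * X 1 +
      C (coeff (D 2 0) l) * X 0 ^ 2 + C (coeff (D 1 1) l) * (X 0 * X 1) + C (coeff (D 0 2) l) * X 1 ^ 2 =
      monomial (D 0 0) (coeff (D 0 0) l) + monomial (D 1 0) (coeff (D 1 0) l) +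
      monomial (D 0 1) (coeff (D 0 1) l) + monomial (D 2 0) (coeff (D 2 0) l) +
      monomial (D 1 1) (coeff (D 1 1) l) + monomial (D 0 2) (coeff (D 0 2) l) := by
    simp only [hmon]
    ring
  rw [hrw]
  ext d
  have hd : d = D (d 0) (d 1) := by
    ext i
    fin_cases i <;> simp [D]
  rw [hd]
  simp only [coeff_add, coeff_monomial, hinj]
  by_cases hle : d 0 + d 1 ≤ 2
  · generalize d 0 = a at *
    generalize d 1 = b at *
    have ha : a ≤ 2 := by omega
    have hb : b ≤ 2 := by omega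
    interval_cases a <;> interval_cases b <;> simp_all
  · rw [← hd]
    have h0 : coeff d l = 0 := by
      apply coeff_eq_zero_of_totalDegree_lt
      refine lt_of_le_of_lt hl ?_
      have hs : ∑ i ∈ d.support, d i = d 0 + d 1 := by
        rw [← Fin.sum_univ_two]
        exact Finset.sum_subset (Finset.subset_univ _) fun i _ hi => by simpa using hi
      rw [hs]
      omega
    rw [h0]
    rw [if_neg (by omega), if_neg (by omega), if_neg (by omega), if_neg (by omega), if_neg (by omega), if_neg (by omega)]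
    simp

omit [CharZero Ω] [IsAlgClosed Ω] in
private theorem dimII_sg_ne (k : Fin s ⊕ Fin s) : sg Ω k ≠ 0 := by
  rcases k with k | k <;> simp [sg]

omit [CharZero Ω] [IsAlgClosed Ω] in
private theorem dimII_br_deg (F Q : MvPolynomial (Fin 2) Ω) (hF : F.totalDegree ≤ 4) (hQ : Q.totalDegree ≤ 2) :
    (br F Q).totalDegree ≤ 4 := by
  have h0 := totalDegree_pderiv_le 0 F
  have h1 := totalDegree_pderiv_le 1 F
  have g0 := totalDegree_pderiv_le 0 Q
  have g1 := totalDegree_pderiv_le 1 Q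
  refine (totalDegree_sub _ _).trans (max_le ?_ ?_)
  · refine (totalDegree_mul _ _).trans ?_
    omega
  · refine (totalDegree_mul _ _).trans ?_
    omega

/-- the map to the values of the brackets -/
private noncomputable def dimII_L {Ω : Type*} [Field Ω] {s : ℕ} (x u y v : Fin s → Ω)
    (Q : MvPolynomial (Fin 2) Ω) : W Ω 4 →ₗ[Ω] (Fin s ⊕ Fin s → Ω) where
  toFun F := fun k => sg Ω k * eval (pts x u y v k) (br (F : MvPolynomial (Fin 2) Ω) Q)
  map_add' := by
    intro F G
    funext k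
    simp only [br, Submodule.coe_add, map_add, map_sub, map_mul, Pi.add_apply]
    ring
  map_smul' := by
    intro c F
    funext k
    simp only [br, Submodule.coe_smul, Derivation.map_smul, map_sub, map_mul, smul_eval, Pi.smul_apply,
      smul_eq_mul, RingHom.id_apply]
    ring

private noncomputable def dimII_M {Ω : Type*} [Field Ω] (Q : MvPolynomial (Fin 2) Ω) :
    (Ω × W Ω 2) →ₗ[Ω] MvPolynomial (Fin 2) Ω where
  toFun p := C p.1 + Q * (p.2 : MvPolynomial (Fin 2) Ω)
  map_add' := by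
    intro p q
    simp only [Prod.fst_add, Prod.snd_add, Submodule.coe_add, C_add]
    ring
  map_smul' := by
    intro c p
    simp only [Prod.smul_fst, Prod.smul_snd, Submodule.coe_smul, smul_eq_mul, C_mul, smul_eq_C_mul,
      RingHom.id_apply]
    ring

theorem dim_sigma (hs : s ≤ 6) (h : Conf x u y v) (Q : MvPolynomial (Fin 2) Ω) (hQ0 : Q ≠ 0)
    (hQ : Q.totalDegree ≤ 2) (hv : ∀ k, eval (pts x u y v k) Q = 0) :
    Module.finrank Ω (Sig x u y v Q) + 8 ≤ 2 * s := by
  have hann : annS (dimII_L x u y v Q) = Sig x u y v Q := by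
    ext t
    constructor
    · intro ht F hF
      have := ht ⟨F, mem_W.2 hF⟩
      rw [← this]
      refine Finset.sum_congr rfl fun k _ => ?_
      simp only [dimII_L, LinearMap.coe_mk, AddHom.coe_mk]
      ring
    · intro ht F
      have := ht F (mem_W.1 F.2)
      rw [← this]
      refine Finset.sum_congr rfl fun k _ => ?_
      simp only [dimII_L, LinearMap.coe_mk, AddHom.coe_mk]
      ring
  have hfr := finrank_ann (dimII_L x u y v Q)
  rw [hann, finrank_W] at hfr
  have hcard : Fintype.card (Fin s ⊕ Fin s) = 2 * s := by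
    simp [two_mul]
  rw [hcard] at hfr
  have hQ2 : ¬ Q.totalDegree ≤ 1 := fun hle => hQ0 (h.nd_poly Q hle hv)
  have hle : (LinearMap.ker (dimII_L x u y v Q)).map (W Ω 4).subtype ≤ LinearMap.range (dimII_M Q) := by
    rintro F ⟨⟨F', hF'⟩, hker, rfl⟩
    have hF4 : F'.totalDegree ≤ 4 := mem_W.1 hF'
    have hvan : ∀ k, eval (pts x u y v k) (br F' Q) = 0 := by
      intro k
      have := congrFun (LinearMap.mem_ker.1 hker) k
      simp only [dimII_L, LinearMap.coe_mk, AddHom.coe_mk, Pi.zero_apply] at this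
      exact (mul_eq_zero.1 this).resolve_left (dimII_sg_ne k)
    have hdvd : Q ∣ br F' Q := by
      refine conic_dvd h.pc (ten_le h.pc) Q hQ0 hQ ?_ (br F' Q) (dimII_br_deg F' Q hF4 hQ) ?_
      · intro z hz
        obtain ⟨k, -, rfl⟩ := Finset.mem_image.1 hz
        exact hv k
      · intro z hz
        obtain ⟨k, -, rfl⟩ := Finset.mem_image.1 hz
        exact hvan k
    obtain ⟨c, G, hG⟩ := brack_const hs h Q hQ0 hQ hv F' hdvd
    have hGdeg : G.totalDegree ≤ 2 := by
      by_cases hG0 : G = 0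
      · rw [hG0]; simp
      · have h1 := totalDegree_mul_of_isDomain hQ0 hG0
        rw [← hG] at h1
        have h2 : (F' - C c).totalDegree ≤ 4 := by
          refine (totalDegree_sub _ _).trans (max_le hF4 ?_)
          rw [totalDegree_C]; omega
        omega
    refine ⟨(c, ⟨G, mem_W.2 hGdeg⟩), ?_⟩
    simp only [dimII_M, LinearMap.coe_mk, AddHom.coe_mk, Submodule.subtype_apply]
    rw [← hG]; ring
  have h1 := Submodule.finrank_mono hle
  have h2 : Module.finrank Ω ((LinearMap.ker (dimII_L x u y v Q)).map (W Ω 4).subtype) =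
      Module.finrank Ω (LinearMap.ker (dimII_L x u y v Q)) :=
    (LinearEquiv.finrank_eq (Submodule.equivSubtypeMap _ _)).symm
  have h3 : Module.finrank Ω (LinearMap.range (dimII_M (Ω := Ω) Q)) ≤ 7 := by
    refine (LinearMap.finrank_range_le _).trans ?_
    rw [Module.finrank_prod, finrank_W, Module.finrank_self]
    decide
  have h4 : (4 + 2).choose 2 = 15 := by decide
  rw [h4] at hfr
  omega

omit [IsAlgClosed Ω] in
theorem hess_inj (h : Conf x u y v) (Q : MvPolynomial (Fin 2) Ω) (hQ0 : Q ≠ 0)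
    (hQ : Q.totalDegree ≤ 2) (hv : ∀ k, eval (pts x u y v k) Q = 0) (k : Fin s ⊕ Fin s)
    (hk : ∀ e, eval (pts x u y v k) (pderiv e Q) = 0) (t : Fin 2 → Ω)
    (ht : ∀ e', ∑ e, eval (pts x u y v k) (pderiv e (pderiv e' Q)) * t e = 0) : t = 0 := by
  obtain ⟨q0, q1, q2, q3, q4, q5, hq⟩ := dimII_quad Q hQ
  set p := pts x u y v k with hp
  have hk0 := hk 0
  have hk1 := hk 1
  have ht0 := ht 0
  have ht1 := ht 1
  have hvk := hv k
  rw [← hp] at hvk
  rw [hq] at hk0 hk1 ht0 ht1 hvk
  have hp2 : ∀ i : Fin 2, pderiv i (2 : MvPolynomial (Fin 2) Ω) = 0 := by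
    intro i
    have := (pderiv i : Derivation Ω (MvPolynomial (Fin 2) Ω) _).map_natCast 2
    simpa using this
  simp [pderiv_X, Pi.single_apply, hp2] at hk0 hk1 ht0 ht1 hvk
  have hev : ∀ z : Fin 2 → Ω, eval z Q = q3 * (z 0 - p 0) ^ 2 + q4 * ((z 0 - p 0) * (z 1 - p 1)) +
      q5 * (z 1 - p 1) ^ 2 := by
    intro z
    rw [hq]
    simp
    linear_combination (z 0 - p 0) * hk0 + (z 1 - p 1) * hk1 + hvk
  by_contra hne
  obtain ⟨c, d, hd, hcd⟩ : ∃ c d : Ω, d ≠ 0 ∧ ∀ z : Fin 2 → Ω,
      d * eval z Q = c * (t 1 * (z 0 - p 0) - t 0 * (z 1 - p 1)) ^ 2 := by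
    by_cases h0 : t 0 = 0
    · have h1 : t 1 ≠ 0 := by
        intro h1
        apply hne
        funext i
        fin_cases i
        · exact h0
        · exact h1
      rw [h0] at ht0 ht1
      have hq4 : q4 = 0 := by
        have : q4 * t 1 = 0 := by linear_combination ht0
        exact (mul_eq_zero.1 this).resolve_right h1
      have hq5 : q5 = 0 := by
        have : q5 * (2 * t 1) = 0 := by linear_combination ht1
        exact (mul_eq_zero.1 this).resolve_right (mul_ne_zero two_ne_zero h1)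
      refine ⟨q3, t 1 ^ 2, pow_ne_zero 2 h1, ?_⟩
      intro z
      rw [hev, hq4, hq5, h0]
      ring
    · refine ⟨q5, t 0 ^ 2, pow_ne_zero 2 h0, ?_⟩
      intro z
      rw [hev]
      have h2 : (2 : Ω) ≠ 0 := two_ne_zero
      apply mul_left_cancel₀ h2
      linear_combination ((z 0 - p 0) ^ 2 * t 0) * ht0 + (2 * t 0 * (z 0 - p 0) * (z 1 - p 1)
        - (z 0 - p 0) ^ 2 * t 1) * ht1
  have hc : c ≠ 0 := by
    intro hc
    apply hQ0
    apply MvPolynomial.funext
    intro z
    have := hcd z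
    rw [hc, zero_mul] at this
    rw [(mul_eq_zero.1 this).resolve_left hd, map_zero]
  have hline : ∀ k' : Fin s ⊕ Fin s, t 1 * (pts x u y v k' 0 - p 0) - t 0 * (pts x u y v k' 1 - p 1) = 0 := by
    intro k'
    have := hcd (pts x u y v k')
    rw [hv k', mul_zero] at this
    exact pow_eq_zero_iff two_ne_zero |>.1 ((mul_eq_zero.1 this.symm).resolve_left hc)
  have hnd := h.nd (t 1) (- t 0) (- t 1 * p 0 + t 0 * p 1) ?_ ?_
  · apply hne
    funext i
    fin_cases i
    · simpa using hnd.2.1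
    · exact hnd.1
  · intro i
    have := hline (Sum.inl i)
    simp only [pts, Sum.elim_inl, Matrix.cons_val_zero, Matrix.cons_val_one] at this
    linear_combination this
  · intro i
    have := hline (Sum.inr i)
    simp only [pts, Sum.elim_inr, Matrix.cons_val_zero, Matrix.cons_val_one] at this
    linear_combination this

end N64Y
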