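import Pool.Agent.H78.N64.Par
import Pool.Agent.H78.N64.Card
import Pool.Agent.H78.N64.ConstMod

/-!
MP_4f0605_nt, section 6, module GradI (6.8).

PROOFS.
* `one_var`: restriction to a line. For `z : Fin 2 → Ω` the one variable polynomial `h(T) = aeval ![C (z 0) + C β * T, C (z 1) - C α * T] G` has derivative
  `aeval .. (C β * pderiv 0 G - C α * pderiv 1 G) = 0` (chain rule, `Derivation.map_aeval` for `Polynomial.derivative`), so it is constant (`Polynomial.natDegree_eq_zero_of_derivative_eq_zero`, char 0):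
  `G(z 0 + β t, z 1 - α t) = G(z)` for all `t`. If `α ≠ 0`: `g = aeval ![C α⁻¹ * X, 0] G : Polynomial Ω`; with `t = z 1 / α`: `G(z) = G(z 0 + β z 1/α, 0) = g.eval (α z 0 + β z 1)`.
  If `α = 0`, `β ≠ 0`: `g = aeval ![0, C β⁻¹ * X] G`, `t = - z 0 / β`: `G(z) = G(0, z 1) = g.eval (β z 1)`. `natDegree g ≤ totalDegree G`: each monomial `X0^a X1^b` becomes a
  constant times `X^a` (resp. `X^b`) or `0` (`MvPolynomial.aeval_natDegree_le`-like lemma, or by `as_sum` and `natDegree_sum_le`).
* `grad_const` (6.8): let `S = PS`, `P = Conf.pc h`; `10 ≤ S.card` (`ten_le`). `F0 = pderiv 0 F`, `F1 = pderiv 1 F` have degree `≤ 3` and vanish on `S`. If both are `0`: `eq_C_of_pderiv`.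
  Otherwise by `cubic_unique` there are `G ∈ {F0, F1}`, `G ≠ 0`, and `(α,β) ≠ (0,0)` with `F0 = C α * G`, `F1 = C β * G` (`F0 ≠ 0`: `G = F0`, `α = 1`, `F1 = C β * F0`; `F0 = 0`: `G = F1`,
  `α = 0, β = 1`). Then `C β * pderiv 0 F = C α * pderiv 1 F` and (derivatives commute, `pderiv` of this equation) `C β * pderiv 0 G = C α * pderiv 1 G`:
  `C α * (C β * pderiv 0 G - C α * pderiv 1 G)` and `C β * (..)`: `α G_U = F_XU = F_UX = β G_X`. `one_var`: `G(z) = g.eval (α z 0 + β z 1)`, `natDegree g ≤ 3`, `g ≠ 0` (otherwise `G`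
  vanishes everywhere, `G = 0` by `MvPolynomial.funext`, `Ω` infinite). For all `k`: `α pts k 0 + β pts k 1 ∈ g.roots.toFinset`, a set of at most 3 elements: `no_parallel`.
-/

set_option autoImplicit false

namespace N64Y

open MvPolynomial Classical

private theorem deriv_aeval {Ω : Type*} [Field Ω] (f : Fin 2 → Polynomial Ω)
    (G : MvPolynomial (Fin 2) Ω) : Polynomial.derivative (aeval f G) =
      aeval f (pderiv 0 G) * Polynomial.derivative (f 0) +
        aeval f (pderiv 1 G) * Polynomial.derivative (f 1) := by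
  induction G using MvPolynomial.induction_on with
  | C a => simp
  | add p q hp hq =>
    simp only [map_add, hp, hq]
    ring
  | mul_X p i hp =>
    rw [map_mul, aeval_X, Polynomial.derivative_mul, hp]
    simp only [Derivation.leibniz, pderiv_X, smul_eq_mul, map_add, map_mul, aeval_X]
    fin_cases i
    · simp
      ring
    · simp
      ring

theorem one_var {Ω : Type*} [Field Ω] [CharZero Ω] (G : MvPolynomial (Fin 2) Ω) (α β : Ω)
    (hαβ : ¬ (α = 0 ∧ β = 0)) (h : C β * pderiv 0 G = C α * pderiv 1 G) :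
    ∃ g : Polynomial Ω, g.natDegree ≤ G.totalDegree ∧ ∀ z : Fin 2 → Ω, eval z G = g.eval (α * z 0 + β * z 1) := by
  have key : ∀ (z : Fin 2 → Ω) (t : Ω), eval ![z 0 + β * t, z 1 - α * t] G = eval z G := by
    intro z t
    set f : Fin 2 → Polynomial Ω := ![Polynomial.C (z 0) + Polynomial.C β * Polynomial.X,
      Polynomial.C (z 1) - Polynomial.C α * Polynomial.X] with hf
    have hd : Polynomial.derivative (aeval f G) = 0 := by
      rw [deriv_aeval]
      have h1 := congrArg (aeval f) h
      simp only [map_mul, MvPolynomial.aeval_C] at h1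
      have e0 : Polynomial.derivative (f 0) = Polynomial.C β := by simp [hf]
      have e1 : Polynomial.derivative (f 1) = - Polynomial.C α := by simp [hf]
      rw [e0, e1]
      have h2 : algebraMap Ω (Polynomial Ω) β = Polynomial.C β := rfl
      have h3 : algebraMap Ω (Polynomial Ω) α = Polynomial.C α := rfl
      rw [h2, h3] at h1
      linear_combination h1
    have hev : ∀ t : Ω, (aeval f G : Polynomial Ω).eval t = eval ![z 0 + β * t, z 1 - α * t] G := by
      intro t
      have h1 : ((Polynomial.evalRingHom t).comp (aeval f : MvPolynomial (Fin 2) Ω →ₐ[Ω] Polynomial Ω).toRingHom) =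
          (eval ![z 0 + β * t, z 1 - α * t] : MvPolynomial (Fin 2) Ω →+* Ω) := by
        refine MvPolynomial.ringHom_ext ?_ ?_
        · intro r
          simp
        · intro i
          fin_cases i
          · simp [hf]
          · simp [hf]
      have h2 := RingHom.congr_fun h1 G
      simpa using h2
    have hc := Polynomial.eq_C_of_derivative_eq_zero hd
    rw [← hev t]
    have h0 := hev 0
    rw [hc, Polynomial.eval_C] at h0 ⊢
    rw [h0]
    congr 2
    ext i
    fin_cases i <;> simp
  have poly : ∀ f : Fin 2 → Polynomial Ω, (∀ i, (f i).natDegree ≤ 1) →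
      (aeval f G : Polynomial Ω).natDegree ≤ G.totalDegree := by
    intro f hf
    have := MvPolynomial.aeval_natDegree_le (m := G.totalDegree) G le_rfl f hf
    simpa using this
  have hev : ∀ (f : Fin 2 → Polynomial Ω) (t : Ω),
      (aeval f G : Polynomial Ω).eval t = eval (fun i => (f i).eval t) G := by
    intro f t
    have h1 : ((Polynomial.evalRingHom t).comp
        (aeval f : MvPolynomial (Fin 2) Ω →ₐ[Ω] Polynomial Ω).toRingHom) =
        (eval (fun i => (f i).eval t) : MvPolynomial (Fin 2) Ω →+* Ω) := by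
      refine MvPolynomial.ringHom_ext ?_ ?_
      · intro r
        simp
      · intro i
        simp
    have h2 := RingHom.congr_fun h1 G
    simpa using h2
  by_cases hα : α = 0
  · have hβ : β ≠ 0 := fun hβ => hαβ ⟨hα, hβ⟩
    refine ⟨aeval ![0, Polynomial.C β⁻¹ * Polynomial.X] G, poly _ ?_, ?_⟩
    · intro i
      fin_cases i
      · simp
      · exact (Polynomial.natDegree_C_mul_le _ _).trans Polynomial.natDegree_X_le
    · intro z
      rw [hev, ← key z (-(z 0) / β)]
      congr 2
      ext i
      fin_cases i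
      · simp
        field_simp
        ring
      · simp [hα]
        field_simp
  · refine ⟨aeval ![Polynomial.C α⁻¹ * Polynomial.X, 0] G, poly _ ?_, ?_⟩
    · intro i
      fin_cases i
      · exact (Polynomial.natDegree_C_mul_le _ _).trans Polynomial.natDegree_X_le
      · simp
    · intro z
      rw [hev, ← key z (z 1 / α)]
      congr 2
      ext i
      fin_cases i
      · simp
        field_simp
      · simp
        field_simp
        ring

private theorem pderiv_comm' {Ω : Type*} [Field Ω] (F : MvPolynomial (Fin 2) Ω) :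
    pderiv 0 (pderiv 1 F) = pderiv 1 (pderiv 0 F) := by
  induction F using MvPolynomial.induction_on with
  | C a => simp
  | add p q hp hq => simp only [map_add, hp, hq]
  | mul_X p i hp =>
    simp only [Derivation.leibniz, pderiv_X, smul_eq_mul, map_add, hp]
    fin_cases i
    · simp
      ring
    · simp
      ring

theorem grad_const {Ω : Type*} [Field Ω] [CharZero Ω] {s : ℕ} {x u y v : Fin s → Ω}
    (hs : s ≤ 6) (h : Conf x u y v)
    (hno : ∀ Q : MvPolynomial (Fin 2) Ω, Q.totalDegree ≤ 2 → (∀ k, eval (pts x u y v k) Q = 0) → Q = 0)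
    (F : MvPolynomial (Fin 2) Ω) (hF : F.totalDegree ≤ 4)
    (h0 : ∀ k, eval (pts x u y v k) (pderiv 0 F) = 0) (h1 : ∀ k, eval (pts x u y v k) (pderiv 1 F) = 0) :
    ∃ c : Ω, F = C c := by
  have hP := Conf.pc h
  have h10 := ten_le hP
  have hmem : ∀ {Q : MvPolynomial (Fin 2) Ω}, (∀ z ∈ Conf.PS x u y v, eval z Q = 0) ↔
      ∀ k, eval (pts x u y v k) Q = 0 := by
    intro Q
    constructor
    · intro hz k
      exact hz _ (Finset.mem_image_of_mem _ (Finset.mem_univ k))
    · intro hk z hz
      obtain ⟨k, -, rfl⟩ := Finset.mem_image.1 hz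
      exact hk k
  have hno' : ∀ Q : MvPolynomial (Fin 2) Ω, Q.totalDegree ≤ 2 →
      (∀ z ∈ Conf.PS x u y v, eval z Q = 0) → Q = 0 := fun Q hQ hz => hno Q hQ (hmem.1 hz)
  have d0 : (pderiv 0 F).totalDegree ≤ 3 := (totalDegree_pderiv_le 0 F).trans (by omega)
  have d1 : (pderiv 1 F).totalDegree ≤ 3 := (totalDegree_pderiv_le 1 F).trans (by omega)
  -- the common part `G` of the two partial derivatives
  by_cases hz : pderiv 0 F = 0 ∧ pderiv 1 F = 0
  · exact eq_C_of_pderiv F hz.1 hz.2
  exfalso
  obtain ⟨G, α, β, hG0, hGd, hGS, hαβ, e0, e1⟩ : ∃ (G : MvPolynomial (Fin 2) Ω) (α β : Ω), G ≠ 0 ∧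
      G.totalDegree ≤ 3 ∧ (∀ k, eval (pts x u y v k) G = 0) ∧ ¬ (α = 0 ∧ β = 0) ∧
      pderiv 0 F = C α * G ∧ pderiv 1 F = C β * G := by
    by_cases hF0 : pderiv 0 F = 0
    · have hF1 : pderiv 1 F ≠ 0 := fun hF1 => hz ⟨hF0, hF1⟩
      exact ⟨pderiv 1 F, 0, 1, hF1, d1, h1, by simp, by simp [hF0], by simp⟩
    · obtain ⟨c, hc⟩ := cubic_unique hP h10 hno' (pderiv 0 F) (pderiv 1 F) hF0 d0 d1
        (hmem.2 h0) (hmem.2 h1)
      exact ⟨pderiv 0 F, 1, c, hF0, d0, h0, by simp, by simp, hc⟩
  have hcomm : C β * pderiv 0 G = C α * pderiv 1 G := by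
    have h2 := pderiv_comm' F
    rw [e0, e1] at h2
    simpa only [Derivation.leibniz, pderiv_C, smul_eq_mul, mul_zero, add_zero] using h2
  obtain ⟨g, hg, hgz⟩ := one_var G α β hαβ hcomm
  have hg0 : g ≠ 0 := by
    rintro rfl
    refine hG0 (MvPolynomial.funext fun z => ?_)
    rw [hgz z]
    simp
  refine no_parallel hs h α β hαβ g.roots.toFinset ?_ ?_
  · refine (Multiset.toFinset_card_le _).trans ((Polynomial.card_roots' g).trans ?_)
    omega
  · intro k
    rw [Multiset.mem_toFinset, Polynomial.mem_roots hg0, Polynomial.IsRoot.def, ← hgz]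
    exact hGS k

end N64Y
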