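import Pool.Agent.H78.N64.VMem
import Pool.Agent.H78.N64.GradI

/-!
MP_4f0605_nt, geometry, module DimV1: rank 14 when the points are not on a conic.

PROOF of `dim_V1`. `Λ : W Ω 4 →ₗ (Fin 2 × (Fin 6 ⊕ Fin 6) → Ω)`, `Λ F (e,k) = sg k * eval (pts k) (pderiv e F)`; `V1 ≤ annS Λ` (rearrange the sum over `Fin 2 × ..`:
`Fintype.sum_prod_type`, `Finset.sum_comm`). `finrank (W Ω 4) = (4+2).choose 2 = 15` (`finrank_W`), the index set has `2 * 12 = 24` elements, `ker Λ` consists of constants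
(`grad_const`; `sg k ≠ 0`), so it has dimension `≤ 1`. `finrank_ann`: `finrank V1 ≤ 24 + 1 - 15 = 10`.
-/

set_option autoImplicit false

namespace N64Y

open MvPolynomial Classical

variable {Ω : Type*} [Field Ω] [CharZero Ω]

theorem dim_V1 {x u y v : Fin 6 → Ω} (h : Conf x u y v)
    (hno : ∀ Q : MvPolynomial (Fin 2) Ω, Q.totalDegree ≤ 2 → (∀ k, eval (pts x u y v k) Q = 0) → Q = 0) :
    Module.finrank Ω (V1 x u y v) ≤ 10 := by
  let Λ : W Ω 4 →ₗ[Ω] (Fin 2 × (Fin 6 ⊕ Fin 6) → Ω) :=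
    { toFun := fun F ek =>
        sg Ω ek.2 * eval (pts x u y v ek.2) (pderiv ek.1 (F : MvPolynomial (Fin 2) Ω))
      map_add' := by
        intro F G
        ext ek
        simp only [Submodule.coe_add, map_add, Pi.add_apply, mul_add]
      map_smul' := by
        intro c F
        ext ek
        have hp : pderiv ek.1 (c • (F : MvPolynomial (Fin 2) Ω)) =
            c • pderiv ek.1 (F : MvPolynomial (Fin 2) Ω) := (pderiv ek.1).map_smul c _
        simp only [Submodule.coe_smul, hp, smul_eval, Pi.smul_apply, smul_eq_mul,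
          RingHom.id_apply]
        ring }
  have h1 := finrank_ann Λ
  rw [finrank_W] at h1
  have hcard : Fintype.card (Fin 2 × (Fin 6 ⊕ Fin 6)) = 24 := by simp
  have hch : (4 + 2).choose 2 = 15 := by decide
  have hsg : ∀ k : Fin 6 ⊕ Fin 6, sg Ω k ≠ 0 := by
    intro k
    rcases k with k | k <;> simp [sg]
  have hker : Module.finrank Ω (LinearMap.ker Λ) ≤ 1 := by
    have h1W : (1 : MvPolynomial (Fin 2) Ω) ∈ W Ω 4 := by
      rw [mem_W]
      simp
    have h1k : (⟨1, h1W⟩ : W Ω 4) ∈ LinearMap.ker Λ := by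
      rw [LinearMap.mem_ker]
      ext ek
      change sg Ω ek.2 * eval (pts x u y v ek.2) (pderiv ek.1 (1 : MvPolynomial (Fin 2) Ω)) = 0
      simp
    refine finrank_le_one (⟨⟨1, h1W⟩, h1k⟩ : LinearMap.ker Λ) ?_
    rintro ⟨⟨F, hF⟩, hFk⟩
    rw [LinearMap.mem_ker] at hFk
    have hv : ∀ (e : Fin 2) (k : Fin 6 ⊕ Fin 6), eval (pts x u y v k) (pderiv e F) = 0 := by
      intro e k
      have h2 : sg Ω k * eval (pts x u y v k) (pderiv e F) = 0 := congrFun hFk (e, k)
      exact (mul_eq_zero.1 h2).resolve_left (hsg k)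
    obtain ⟨c, hc⟩ := grad_const le_rfl h hno F (mem_W.1 hF) (hv 0) (hv 1)
    refine ⟨c, ?_⟩
    apply Subtype.ext
    apply Subtype.ext
    change c • (1 : MvPolynomial (Fin 2) Ω) = F
    rw [hc, MvPolynomial.smul_eq_C_mul, mul_one]
  have hle : V1 x u y v ≤ annS Λ := by
    intro t ht F
    have h2 := ht F (mem_W.1 F.2)
    change ∑ ek : Fin 2 × (Fin 6 ⊕ Fin 6), (sg Ω ek.2 * eval (pts x u y v ek.2)
      (pderiv ek.1 (F : MvPolynomial (Fin 2) Ω))) * t ek = 0
    rw [Fintype.sum_prod_type, Finset.sum_comm]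
    rw [← h2]
    refine Finset.sum_congr rfl fun k _ => ?_
    rw [Finset.mul_sum]
    exact Finset.sum_congr rfl fun e _ => by ring
  have h3 := Submodule.finrank_mono hle
  rw [hcard, hch] at h1
  omega

end N64Y
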