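import Pool.Agent.H78.N64.DimII

/-!
MP_4f0605_nt, section 6, module DimV2: `dim V2 ≤ 2s - 3`. (Proof: see the header of DimII, item `dim_V2`, repeated here.)

PROOF. Let `E = {(t,R) ∈ (Fin 2 × Z → Ω) × W Ω 2 : t ∈ V1, V2rel t R}` (a submodule of the product, `Z = Fin s ⊕ Fin s`). The projection `E → V2` is onto with kernel containing `(0,Q) ≠ 0`
(check `V2rel 0 Q`: `Q(z_k) = 0`; if `grad Q(z_k) = 0` then `Q_{e'}(z_k) = 0`), so `finrank V2 + 1 ≤ finrank E`.
The projection `E → W Ω 2` (dimension 6) has kernel `{(t,0)}`, and its dimension is `≤ finrank Sig ≤ 2s - 8` (`dim_sigma`): the linear map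
`T : (Z → Ω) → (Fin 2 × Z → Ω)`, `(T σ)(0,k) = σ_k Q_1(z_k)`, `(T σ)(1,k) = - σ_k Q_0(z_k)`, satisfies: every `t` with `(t,0) ∈ E` is `T σ` with `σ ∈ Sig`: if `grad Q(z_k) ≠ 0` equation (a)
`Q_0 t(0,k) + Q_1 t(1,k) = 0` gives `σ_k` (`t(0,k)/Q_1` if `Q_1 ≠ 0`, else `- t(1,k)/Q_0`); if `grad Q(z_k) = 0` then (b) and `hess_inj` give `t(·,k) = 0`, take `σ_k = 0`. And `σ ∈ Sig` because
`sum_e F_e(z_k) t(e,k) = σ_k (F_0 Q_1 - F_1 Q_0)(z_k) = σ_k br F Q (z_k)` and `t ∈ V1`. So `{t}` is contained in `Sig.map T`, of dimension `≤ finrank Sig`.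
Together `finrank V2 + 1 ≤ 6 + finrank Sig` and `finrank Sig + 8 ≤ 2s`.
(Formally: rank-nullity for `LinearMap.fst`, `LinearMap.snd` restricted to `E`, e.g. `LinearMap.finrank_range_add_finrank_ker`.)
-/

set_option autoImplicit false

namespace N64Y

open MvPolynomial Classical

variable {Ω : Type*} [Field Ω] [CharZero Ω] [IsAlgClosed Ω] {s : ℕ} {x u y v : Fin s → Ω}

/-- pairs `(t, R)` -/
private noncomputable def DimV2E (x u y v : Fin s → Ω) (Q : MvPolynomial (Fin 2) Ω) :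
    Submodule Ω ((Fin 2 × (Fin s ⊕ Fin s) → Ω) × W Ω 2) where
  carrier := {p | p.1 ∈ V1 x u y v ∧ V2rel x u y v Q p.1 p.2}
  add_mem' := by
    rintro a b ⟨ha, ha'⟩ ⟨hb, hb'⟩
    exact ⟨(V1 x u y v).add_mem ha hb, ha'.add hb'⟩
  zero_mem' := ⟨(V1 x u y v).zero_mem, by simp [V2rel]⟩
  smul_mem' := by
    rintro c a ⟨ha, ha'⟩
    exact ⟨(V1 x u y v).smul_mem c ha, ha'.smul c⟩

private noncomputable def DimV2T (x u y v : Fin s → Ω) (Q : MvPolynomial (Fin 2) Ω) :
    (Fin s ⊕ Fin s → Ω) →ₗ[Ω] (Fin 2 × (Fin s ⊕ Fin s) → Ω) where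
  toFun σ := fun ek => if ek.1 = 0 then σ ek.2 * eval (pts x u y v ek.2) (pderiv 1 Q)
    else -(σ ek.2 * eval (pts x u y v ek.2) (pderiv 0 Q))
  map_add' := by
    intro a b
    ext ek
    simp only [Pi.add_apply]
    split_ifs <;> ring
  map_smul' := by
    intro c a
    ext ek
    simp only [Pi.smul_apply, smul_eq_mul, RingHom.id_apply]
    split_ifs <;> ring

omit [IsAlgClosed Ω] in
private theorem DimV2_key (h : Conf x u y v) (Q : MvPolynomial (Fin 2) Ω) (hQ0 : Q ≠ 0)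
    (hQ : Q.totalDegree ≤ 2) (hv : ∀ k, eval (pts x u y v k) Q = 0)
    (t : Fin 2 × (Fin s ⊕ Fin s) → Ω) (h1 : t ∈ V1 x u y v) (h2 : V2rel x u y v Q t 0) :
    t ∈ (Sig x u y v Q).map (DimV2T x u y v Q) := by
  obtain ⟨ha, hb⟩ := h2
  have ha' : ∀ k, eval (pts x u y v k) (pderiv 0 Q) * t (0, k)
      + eval (pts x u y v k) (pderiv 1 Q) * t (1, k) = 0 := by
    intro k
    have := ha k
    simpa [Fin.sum_univ_two] using this
  have hb' : ∀ k, eval (pts x u y v k) (pderiv 0 Q) = 0 → eval (pts x u y v k) (pderiv 1 Q) = 0 →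
      ∀ e, t (e, k) = 0 := by
    intro k h0 h1' e
    have hk : ∀ e, eval (pts x u y v k) (pderiv e Q) = 0 := by
      intro e
      fin_cases e
      · exact h0
      · exact h1'
    have := hess_inj h Q hQ0 hQ hv k hk (fun e => t (e, k)) (fun e' => by
      have := hb k hk e'
      simpa using this)
    exact congrFun this e
  let σ : Fin s ⊕ Fin s → Ω := fun k =>
    if eval (pts x u y v k) (pderiv 1 Q) ≠ 0 then t (0, k) / eval (pts x u y v k) (pderiv 1 Q)
    else if eval (pts x u y v k) (pderiv 0 Q) ≠ 0 then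
      -(t (1, k) / eval (pts x u y v k) (pderiv 0 Q)) else 0
  have hs0 : ∀ k, σ k * eval (pts x u y v k) (pderiv 1 Q) = t (0, k) := by
    intro k
    by_cases c1 : eval (pts x u y v k) (pderiv 1 Q) ≠ 0
    · simp only [σ, if_pos c1]
      exact div_mul_cancel₀ _ c1
    · by_cases c0 : eval (pts x u y v k) (pderiv 0 Q) ≠ 0
      · have c1' : eval (pts x u y v k) (pderiv 1 Q) = 0 := not_not.1 c1
        have := ha' k
        rw [c1', zero_mul, add_zero] at this
        rw [c1', mul_zero]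
        exact ((mul_eq_zero.1 this).resolve_left c0).symm
      · rw [not_not.1 c1, mul_zero, hb' k (not_not.1 c0) (not_not.1 c1)]
  have hs1 : ∀ k, -(σ k * eval (pts x u y v k) (pderiv 0 Q)) = t (1, k) := by
    intro k
    by_cases c1 : eval (pts x u y v k) (pderiv 1 Q) ≠ 0
    · have e1 : σ k = t (0, k) / eval (pts x u y v k) (pderiv 1 Q) := if_pos c1
      rw [e1]
      have := ha' k
      field_simp
      linear_combination -this
    · by_cases c0 : eval (pts x u y v k) (pderiv 0 Q) ≠ 0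
      · have e1 : σ k = -(t (1, k) / eval (pts x u y v k) (pderiv 0 Q)) := by
          simp only [σ, if_neg c1, if_pos c0]
        rw [e1]
        field_simp
      · rw [not_not.1 c0, mul_zero, hb' k (not_not.1 c0) (not_not.1 c1), neg_zero]
  refine ⟨σ, ?_, ?_⟩
  · intro F hF
    have := h1 F hF
    rw [← this]
    refine Finset.sum_congr rfl fun k _ => ?_
    rw [Fin.sum_univ_two, ← hs0 k, ← hs1 k, br]
    simp only [map_sub, map_mul]
    ring
  · ext ek
    obtain ⟨e, k⟩ := ek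
    fin_cases e
    · exact hs0 k
    · exact hs1 k

private theorem DimV2_lin {Ω A B : Type*} [Field Ω] [AddCommGroup A] [Module Ω A] [AddCommGroup B]
    [Module Ω B] [Module.Finite Ω A] [Module.Finite Ω B] (E : Submodule Ω (A × B))
    (V M : Submodule Ω A) (q : B) (hq : q ≠ 0) (hqE : ((0 : A), q) ∈ E)
    (hV : ∀ t ∈ V, ∃ r, (t, r) ∈ E) (hM : ∀ t, (t, (0 : B)) ∈ E → t ∈ M) :
    Module.finrank Ω V + 1 ≤ Module.finrank Ω B + Module.finrank Ω M := by
  let f : E →ₗ[Ω] A := (LinearMap.fst Ω A B).comp E.subtype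
  let g : E →ₗ[Ω] B := (LinearMap.snd Ω A B).comp E.subtype
  have hfr : V ≤ LinearMap.range f := by
    intro t ht
    obtain ⟨r, hr⟩ := hV t ht
    exact ⟨⟨(t, r), hr⟩, rfl⟩
  have e1 := LinearMap.finrank_range_add_finrank_ker f
  have e2 := LinearMap.finrank_range_add_finrank_ker g
  have e3 := Submodule.finrank_mono hfr
  have hker : 1 ≤ Module.finrank Ω (LinearMap.ker f) := by
    have hne : (⟨⟨_, hqE⟩, by rfl⟩ : LinearMap.ker f) ≠ 0 := by
      intro h0
      have := congrArg (fun z : LinearMap.ker f => z.1.1.2) h0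
      exact hq this
    have hnt : Nontrivial (LinearMap.ker f) := ⟨_, _, hne⟩
    exact Module.finrank_pos (R := Ω) (M := LinearMap.ker f)
  have hW : Module.finrank Ω (LinearMap.range g) ≤ Module.finrank Ω B :=
    Submodule.finrank_le (LinearMap.range g)
  have hkg : Module.finrank Ω (LinearMap.ker g) ≤ Module.finrank Ω M := by
    let k : LinearMap.ker g →ₗ[Ω] A := f.comp (LinearMap.ker g).subtype
    have hki : Function.Injective k := by
      rw [injective_iff_map_eq_zero]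
      rintro ⟨⟨⟨t, R⟩, hp⟩, hg⟩ hz
      have ht : t = 0 := hz
      have hR : R = 0 := hg
      subst ht hR
      rfl
    have hkr : LinearMap.range k ≤ M := by
      rintro t ⟨⟨⟨⟨t', R⟩, hp⟩, hg⟩, rfl⟩
      have hR : R = 0 := hg
      subst hR
      exact hM t' hp
    calc Module.finrank Ω (LinearMap.ker g) = Module.finrank Ω (LinearMap.range k) :=
          (LinearMap.finrank_range_of_inj hki).symm
      _ ≤ Module.finrank Ω M := Submodule.finrank_mono hkr
  omega

theorem dim_V2 (hs : s ≤ 6) (h : Conf x u y v) (Q : MvPolynomial (Fin 2) Ω) (hQ0 : Q ≠ 0)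
    (hQ : Q.totalDegree ≤ 2) (hv : ∀ k, eval (pts x u y v k) Q = 0) :
    Module.finrank Ω (V2 x u y v Q) + 3 ≤ 2 * s := by
  have hsig := dim_sigma hs h Q hQ0 hQ hv
  have h1 := DimV2_lin (DimV2E x u y v Q) (V2 x u y v Q) ((Sig x u y v Q).map (DimV2T x u y v Q))
    (⟨Q, mem_W.2 hQ⟩ : W Ω 2) (fun h0 => hQ0 (congrArg Subtype.val h0))
    ⟨(V1 x u y v).zero_mem, fun k => by simp [hv k], fun k hk e' => by simp [hk e']⟩
    (fun t ht => by
      obtain ⟨h1, R, hR, hR'⟩ := ht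
      exact ⟨⟨R, mem_W.2 hR⟩, h1, hR'⟩)
    (fun t ht => DimV2_key h Q hQ0 hQ hv t ht.1 ht.2)
  have h2 : Module.finrank Ω ((Sig x u y v Q).map (DimV2T x u y v Q))
      ≤ Module.finrank Ω (Sig x u y v Q) := Submodule.finrank_map_le _ _
  have h3 : Module.finrank Ω (W Ω 2) = 6 := by rw [finrank_W]; rfl
  omega

end N64Y
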