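import Pool.Agent.H78.N64.HomPr

/-!
MP_4f0605_nt, geometry, module Forms (G2, first half): `d` integral linear forms cut a homogeneous ideal of dimension `≤ d` down to the origin.

PROOF of `exists_forms` by induction on `d` (for all homogeneous `I`). `R = MvPolynomial ι F` is Noetherian (`ι` finite).
`d = 0`: every prime `Q ≥ I` has `tdq Q = 0`, so is maximal (`isMaximal_of_tdq_zero`). Every prime `Q ≥ I` contains a minimal prime `Q0` of `I` (`Ideal.exists_minimalPrimes_le`), which is homogeneous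
(`minimal_hom`), maximal, and `≤ mX` (`le_mX_of_hom`), so `Q0 = mX`, `Q = mX`. Hence `mX ≤ I.radical` (`Ideal.radical_eq_sInf`), and `mX` is finitely generated: `mX ^ M ≤ I` for some `M`
(`Ideal.exists_pow_le_of_le_radical_of_fg`). (`I = ⊤` is trivial.) `LCone` of the empty family is `⊥`.
`d + 1`: let `T` = the minimal primes of `I` different from `mX` (finite: `Ideal.finite_minimalPrimes_of_isNoetherianRing`); each is homogeneous, `≤ mX`, so does not contain all `X i`. `exists_form`: `c` with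
`lin F c ∉ Q` for `Q ∈ T`. `I' = I ⊔ LCone F ![c]` is homogeneous (`HomI.sup`, `hom_LCone`). Every prime `Q' ≥ I'` has `tdq Q' ≤ d`: take a minimal prime `Q ≤ Q'` of `I`; if `Q = mX` then `Q' = mX` (maximal) and
`tdq mX = 0` (all `gpt mX i = 0`; `td` of a family of elements algebraic over `F` is `0`); if `Q ∈ T` then `lin F c ∈ Q' \ Q`, `Q < Q'`, `tdq Q' < tdq Q ≤ d + 1`
(`tdq_lt`). Induction hypothesis for `I'`: forms `h'`, and take `h = Fin.cons c h'`: `I' ⊔ LCone h' = I ⊔ LCone h`.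
-/

set_option autoImplicit false

namespace N64Y

open MvPolynomial

private theorem Forms_tdq_mX {F : Type*} [Field F] {ι : Type*} [Fintype ι]
    (Q : Ideal (MvPolynomial ι F)) [Q.IsPrime] (h : mX F ι ≤ Q) : tdq Q = 0 := by
  have h0 : ∀ i, gpt Q i = 0 := by
    intro i
    have h1 : (X i : MvPolynomial ι F) ∈ Q := h (Ideal.subset_span ⟨i, rfl⟩)
    unfold gpt
    rw [Ideal.Quotient.eq_zero_iff_mem.2 h1, map_zero]
  have h2 : td F (gpt Q) ≤ td F (fun j : Fin 0 => (j.elim0 : FractionRing (MvPolynomial ι F ⧸ Q))) :=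
    td_mono _ _ (fun i => by rw [h0 i]; exact zero_mem _)
  have h3 := td_le_card (K := F) (fun j : Fin 0 => (j.elim0 : FractionRing (MvPolynomial ι F ⧸ Q)))
  rw [Fintype.card_fin] at h3
  have h4 : tdq Q = td F (gpt Q) := rfl
  omega

private theorem Forms_LCone_mono {F : Type*} [Field F] {ι : Type*} [Fintype ι] {f f' : ℕ}
    (h : Fin f → ι → ℤ) (h' : Fin f' → ι → ℤ) (H : ∀ l, ∃ l', h' l' = h l) :
    LCone F h ≤ LCone F h' := by
  refine Ideal.span_mono ?_
  rintro _ ⟨l, rfl⟩
  obtain ⟨l', hl'⟩ := H l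
  exact ⟨l', by simp only [hl']⟩

theorem exists_forms {F : Type*} [Field F] [CharZero F] {ι : Type*} [Fintype ι] (d : ℕ)
    (I : Ideal (MvPolynomial ι F)) (hI : HomI I)
    (hd : ∀ (Q : Ideal (MvPolynomial ι F)) [Q.IsPrime], I ≤ Q → tdq Q ≤ d) :
    ∃ (h : Fin d → ι → ℤ) (M : ℕ), mX F ι ^ M ≤ I ⊔ LCone F h := by
  induction d generalizing I with
  | zero =>
    have hrad : mX F ι ≤ I.radical := by
      rw [Ideal.radical_eq_sInf]
      refine le_sInf fun Q hQ => ?_
      obtain ⟨hIQ, hQp⟩ := hQ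
      obtain ⟨Q0, hQ0, hle⟩ := Ideal.exists_minimalPrimes_le (I := I) (J := Q) hIQ
      have hp : Q0.IsPrime := hQ0.1.1
      have hI0 : I ≤ Q0 := hQ0.1.2
      have hmax : Q0.IsMaximal := isMaximal_of_tdq_zero Q0 (Nat.le_zero.1 (hd Q0 hI0))
      have hQ0m : Q0 ≤ mX F ι := le_mX_of_hom Q0 (minimal_hom I hI Q0 hQ0) hp.ne_top
      have heq : Q0 = mX F ι := hmax.eq_of_le isMaximal_mX.ne_top hQ0m
      rw [← heq]
      exact hle
    obtain ⟨M, hM⟩ := Ideal.exists_pow_le_of_le_radical_of_fg hrad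
      (Submodule.fg_span (Set.finite_range _))
    exact ⟨fun j => j.elim0, M, hM.trans le_sup_left⟩
  | succ d ih =>
    obtain ⟨c, hc⟩ := exists_form (F := F) {Q | Q ∈ I.minimalPrimes ∧ Q ≠ mX F ι}
      ((Ideal.finite_minimalPrimes_of_isNoetherianRing _ I).subset (fun Q hQ => hQ.1)) (by
        rintro Q ⟨hQ, hne⟩
        by_contra hcon
        push Not at hcon
        have hp : Q.IsPrime := hQ.1.1
        have h1 : mX F ι ≤ Q := by
          refine Ideal.span_le.2 ?_
          rintro _ ⟨i, rfl⟩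
          exact hcon i
        exact hne (le_antisymm (le_mX_of_hom Q (minimal_hom I hI Q hQ) hp.ne_top) h1))
    obtain ⟨h', M, hM⟩ := ih (I ⊔ LCone F ![c]) (HomI.sup hI (hom_LCone _)) (by
      intro Q' hQ'p hle
      have hIQ' : I ≤ Q' := le_sup_left.trans hle
      obtain ⟨Q, hQ, hQQ'⟩ := Ideal.exists_minimalPrimes_le (I := I) (J := Q') hIQ'
      have hp : Q.IsPrime := hQ.1.1
      by_cases hm : Q = mX F ι
      · rw [Forms_tdq_mX Q' (hm ▸ hQQ')]
        exact Nat.zero_le d
      · have h1 : lin F c ∈ Q' := hle (le_sup_right (a := I) (Ideal.subset_span ⟨0, rfl⟩))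
        have h2 : lin F c ∉ Q := hc Q ⟨hQ, hm⟩
        have hlt : Q < Q' := lt_of_le_of_ne hQQ' (fun h => h2 (h ▸ h1))
        have h3 := tdq_lt Q Q' hlt
        have h4 := hd Q hQ.1.2
        omega)
    refine ⟨Fin.cons c h', M, hM.trans ?_⟩
    refine sup_le (sup_le le_sup_left (le_sup_of_le_right ?_)) (le_sup_of_le_right ?_)
    · refine Forms_LCone_mono _ _ (fun l => ⟨0, ?_⟩)
      rw [Fin.cons_zero]
      have : l = 0 := Subsingleton.elim _ _
      rw [this]
      rfl
    · exact Forms_LCone_mono _ _ (fun l => ⟨l.succ, Fin.cons_succ _ _ _⟩)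

end N64Y
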