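import Pool.Agent.H78.N64.Jac
import Pool.Agent.H78.N64.LinAlg

/-!
MP_4f0605_nt, geometry, module GZero (G0).

PROOF of `td_le_G0`. `Z = Fin s ⊕ Fin s`, `ζ = Sum.elim x y`, `Σ_k sg k g(ζ_k) = 0` for every `g : Polynomial Ω` of degree `≤ 4` (linear combination of the power sums `0..4`; power sum `0` is `s - s = 0`).
(1) The set `T = univ.image ζ` has at least 6 elements: otherwise let `z0 = ζ (Sum.inl 0)` (`s ≥ 1`), `g = ∏_{w ∈ T.erase z0} (X - C w)` of degree `≤ 4`: `0 = Σ_k sg k g(ζ_k) = g(z0) * Σ_{k : ζ_k = z0} sg k`; all `k` with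
`ζ_k = z0` are in the left summand (`hne`), so the sum is a positive natural number: contradiction (char 0; `CharZero Ω` from `charZero_of_injective_algebraMap`).
(2) `V = annS Λ` with `Λ : (Fin 4 → Ω) →ₗ (Z → Ω)`, `Λ c k = sg k * Σ_a c_a ζ_k^a`. `ker Λ = 0`: the polynomial `Σ c_a X^a` of degree `≤ 3` vanishes on `T`, which has `≥ 4` elements. `finrank_ann`:
`finrank V + 4 = 2s + 0`.
(3) every derivation vector `(D ζ_k)` is in `V`: apply `D` to `Σ_k sg k ζ_k^(a+1) = 0` (`a = 0..3`): `(a+1) Σ_k sg k ζ_k^a D ζ_k = 0`. `td_le_finrank`: `td K ζ ≤ 2s - 4`.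
-/

set_option autoImplicit false

namespace N64Y

open Classical

theorem td_le_G0 {K : Type*} [Field K] [CharZero K] {Ω : Type*} [Field Ω] [Algebra K Ω] {s : ℕ} (hs : 1 ≤ s)
    (x y : Fin s → Ω) (h : ∀ a ∈ Finset.Icc 1 4, ∑ i, x i ^ a = ∑ j, y j ^ a) (hne : ∀ i j, x i ≠ y j) :
    td K (Sum.elim x y) + 4 ≤ 2 * s := by
  have hchar : CharZero Ω := charZero_of_injective_algebraMap (algebraMap K Ω).injective
  set ζ : Fin s ⊕ Fin s → Ω := Sum.elim x y with hζ
  -- power sums
  have hpow : ∀ g : Polynomial Ω, g.natDegree ≤ 4 → ∑ i, g.eval (x i) = ∑ j, g.eval (y j) := by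
    intro g hg
    have h1 : ∀ z : Ω, g.eval z = ∑ a ∈ Finset.range 5, g.coeff a * z ^ a := fun z =>
      Polynomial.eval_eq_sum_range' (by omega) z
    simp_rw [h1]
    rw [Finset.sum_comm, Finset.sum_comm (s := Finset.univ)]
    refine Finset.sum_congr rfl fun a ha => ?_
    rw [← Finset.mul_sum, ← Finset.mul_sum]
    congr 1
    rcases Nat.eq_zero_or_pos a with rfl | ha0
    · simp
    · exact h a (Finset.mem_Icc.2 ⟨ha0, by have := Finset.mem_range.1 ha; omega⟩)
  set T : Finset Ω := Finset.univ.image ζ with hT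
  have hTx : ∀ i, x i ∈ T := fun i => Finset.mem_image.2 ⟨Sum.inl i, Finset.mem_univ _, rfl⟩
  have hTy : ∀ i, y i ∈ T := fun i => Finset.mem_image.2 ⟨Sum.inr i, Finset.mem_univ _, rfl⟩
  have hT6 : 6 ≤ T.card := by
    by_contra hcon
    let z0 : Ω := x ⟨0, hs⟩
    let g : Polynomial Ω := ∏ w ∈ T.erase z0, (Polynomial.X - Polynomial.C w)
    have hg : g.natDegree ≤ 4 := by
      rw [Polynomial.natDegree_prod_of_monic _ _ fun w _ => Polynomial.monic_X_sub_C w]
      simp only [Polynomial.natDegree_X_sub_C, Finset.sum_const, smul_eq_mul, mul_one]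
      rw [Finset.card_erase_of_mem (hTx _)]
      omega
    have hgz : ∀ z : Ω, g.eval z = ∏ w ∈ T.erase z0, (z - w) := by
      intro z
      simp [g, Polynomial.eval_prod]
    have h1 := hpow g hg
    have h2 : ∑ j, g.eval (y j) = 0 := by
      refine Finset.sum_eq_zero fun j _ => ?_
      rw [hgz]
      refine Finset.prod_eq_zero (Finset.mem_erase.2 ⟨fun h => hne ⟨0, hs⟩ j h.symm, hTy j⟩) ?_
      exact sub_self _
    have h3 : ∀ i, g.eval (x i) = if x i = z0 then g.eval z0 else 0 := by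
      intro i
      split_ifs with h
      · rw [h]
      · rw [hgz]
        refine Finset.prod_eq_zero (Finset.mem_erase.2 ⟨h, hTx i⟩) ?_
        exact sub_self _
    rw [h2] at h1
    simp_rw [h3] at h1
    rw [← Finset.sum_filter, Finset.sum_const, nsmul_eq_mul] at h1
    rcases mul_eq_zero.1 h1 with h4 | h4
    · have h5 : (Finset.univ.filter fun i => x i = z0).card = 0 := by exact_mod_cast h4
      rw [Finset.card_eq_zero] at h5
      have h6 : (⟨0, hs⟩ : Fin s) ∈ Finset.univ.filter fun i => x i = z0 :=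
        Finset.mem_filter.2 ⟨Finset.mem_univ _, rfl⟩
      rw [h5] at h6
      exact absurd h6 (Finset.notMem_empty _)
    · rw [hgz, Finset.prod_eq_zero_iff] at h4
      obtain ⟨w, hw, hw0⟩ := h4
      exact (Finset.mem_erase.1 hw).1 (sub_eq_zero.1 hw0).symm
  -- the linear map
  let Λ : (Fin 4 → Ω) →ₗ[Ω] (Fin s ⊕ Fin s → Ω) :=
    { toFun := fun c k => sg Ω k * ∑ a : Fin 4, c a * ζ k ^ (a : ℕ)
      map_add' := by
        intro c d
        ext k
        simp only [Pi.add_apply, add_mul, Finset.sum_add_distrib, mul_add]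
      map_smul' := by
        intro r c
        ext k
        simp only [Pi.smul_apply, smul_eq_mul, RingHom.id_apply, Finset.mul_sum]
        refine Finset.sum_congr rfl fun a _ => ?_
        ring }
  have hsg : ∀ k : Fin s ⊕ Fin s, sg Ω k ≠ 0 := by
    intro k
    rcases k with k | k <;> simp [sg]
  have hker : LinearMap.ker Λ = ⊥ := by
    rw [LinearMap.ker_eq_bot']
    intro c hc
    let g : Polynomial Ω := ∑ a : Fin 4, Polynomial.C (c a) * Polynomial.X ^ (a : ℕ)
    have hgz : ∀ z, g.eval z = ∑ a : Fin 4, c a * z ^ (a : ℕ) := by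
      intro z
      simp [g, Polynomial.eval_finsetSum]
    have hg0 : g = 0 := by
      by_contra hg0
      have h1 : T ⊆ g.roots.toFinset := by
        intro w hw
        obtain ⟨k, _, rfl⟩ := Finset.mem_image.1 hw
        rw [Multiset.mem_toFinset, Polynomial.mem_roots hg0, Polynomial.IsRoot.def, hgz]
        have h2 : sg Ω k * ∑ a : Fin 4, c a * ζ k ^ (a : ℕ) = 0 := congrFun hc k
        exact (mul_eq_zero.1 h2).resolve_left (hsg k)
      have h2 : g.natDegree ≤ 3 := by
        refine Polynomial.natDegree_sum_le_of_forall_le _ _ fun a _ => ?_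
        refine (Polynomial.natDegree_C_mul_X_pow_le _ _).trans ?_
        have := a.2
        omega
      have h3 := (Finset.card_le_card h1).trans (Multiset.toFinset_card_le _)
      have h4 := Polynomial.card_roots' g
      omega
    ext a
    have h1 : g.coeff a = c a := by
      simp only [g, Polynomial.finsetSum_coeff, Polynomial.coeff_C_mul, Polynomial.coeff_X_pow]
      rw [Finset.sum_eq_single a]
      · simp
      · intro b _ hb
        have : ¬ ((a : ℕ) = (b : ℕ)) := fun h => hb (Fin.ext h.symm)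
        simp [this]
      · intro h
        exact absurd (Finset.mem_univ _) h
    rw [← h1, hg0]
    simp
  have hfr := finrank_ann Λ
  rw [hker, finrank_bot, Module.finrank_fin_fun, Fintype.card_sum, Fintype.card_fin] at hfr
  have hder : ∀ D : Derivation K Ω Ω, (fun k => D (ζ k)) ∈ annS Λ := by
    intro D c
    change ∑ k, (sg Ω k * ∑ a : Fin 4, c a * ζ k ^ (a : ℕ)) * D (ζ k) = 0
    have h1 : ∀ a : Fin 4, ∑ k, sg Ω k * ζ k ^ (a : ℕ) * D (ζ k) = 0 := by
      intro a
      have h2 : ∑ i, x i ^ ((a : ℕ) + 1) = ∑ j, y j ^ ((a : ℕ) + 1) :=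
        h _ (Finset.mem_Icc.2 ⟨by omega, by have := a.2; omega⟩)
      have h3 := congrArg D h2
      rw [map_sum, map_sum] at h3
      simp_rw [Derivation.leibniz_pow, Nat.add_sub_cancel] at h3
      rw [Fintype.sum_sum_type]
      simp only [hζ, sg, Sum.elim_inl, Sum.elim_inr, one_mul, neg_mul, Finset.sum_neg_distrib]
      have h4 : (((a : ℕ) + 1 : ℕ) : Ω) ≠ 0 := by exact_mod_cast Nat.succ_ne_zero (a : ℕ)
      have h5 : (((a : ℕ) + 1 : ℕ) : Ω) * ∑ i, x i ^ (a : ℕ) * D (x i) =
          (((a : ℕ) + 1 : ℕ) : Ω) * ∑ i, y i ^ (a : ℕ) * D (y i) := by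
        rw [Finset.mul_sum, Finset.mul_sum]
        simpa only [nsmul_eq_mul, smul_eq_mul] using h3
      rw [mul_left_cancel₀ h4 h5]
      ring
    calc ∑ k, (sg Ω k * ∑ a : Fin 4, c a * ζ k ^ (a : ℕ)) * D (ζ k)
        = ∑ k, ∑ a : Fin 4, c a * (sg Ω k * ζ k ^ (a : ℕ) * D (ζ k)) := by
          refine Finset.sum_congr rfl fun k _ => ?_
          rw [Finset.mul_sum, Finset.sum_mul]
          exact Finset.sum_congr rfl fun a _ => by ring
      _ = ∑ a : Fin 4, c a * ∑ k, sg Ω k * ζ k ^ (a : ℕ) * D (ζ k) := by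
          rw [Finset.sum_comm]
          exact Finset.sum_congr rfl fun a _ => by rw [Finset.mul_sum]
      _ = 0 := by simp [h1]
  have hle := td_le_finrank ζ (annS Λ) hder
  omega

end N64Y
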