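import Pool.Agent.H78.N64.Defs

/-!
MP_4f0605_nt, section 6, module TdApi: basic facts on `td K z = trdeg_K K(z)`.

`K ⊆ Ω` fields, `z : ι → Ω`, `ι` finite. Mathlib: `Algebra.trdeg`, `IsTranscendenceBasis`, `exists_isTranscendenceBasis_subset`,
`IsTranscendenceBasis.lift_cardinalMk_eq_trdeg`, `AlgebraicIndependent.lift_cardinalMk_le_trdeg`, `Algebra.trdeg_add_eq` / `lift_trdeg_add_eq`,
`AlgEquiv.lift_trdeg_eq`, `lift_trdeg_le_of_injective`, `trdeg_lt_aleph0_of_finiteType`, `FinTrdeg`.

PROOFS. Write `E z = IntermediateField.adjoin K (range z)`. `E z` is algebraic over the subalgebra `Algebra.adjoin K (range z)` (its fraction field: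
`IntermediateField.adjoin.isFractionRing`-like instance, or every element is a quotient of two elements of the subalgebra), so a maximal algebraically independent
subset `t ⊆ range z` is a transcendence basis of `E z` (`exists_isTranscendenceBasis_subset`), finite; choose for every element of `t` one index: `s : Finset ι`, `z` injective
on `s`.
* `td_exists_basis`: this `s` (transport of independence along the inclusion `E z → Ω`, `AlgebraicIndependent.map'`/`of_aeval`; algebraic over the adjoin of the basis inside
  `E z`, push forward to `Ω`).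
* `card_le_td`: the family `i ↦ z i` (`i ∈ s`) takes values in `E z`, it is independent there; `lift_cardinalMk_le_trdeg`, and `trdeg` is finite (`< ℵ₀`), so `toNat` is monotone.
* `td_map`: `f` induces an isomorphism `E z ≃ E (f ∘ z)` (`IntermediateField.adjoin_map`, `IntermediateField.map`), `AlgEquiv.lift_trdeg_eq`.
* `td_mono`: `E z ≤ E w`, inclusion is injective: `lift_trdeg_le_of_injective`; `trdeg` of `E w` is finite.
* `td_add`: tower `K ⊆ E z ⊆ E (Sum.elim z w)`, and `E (Sum.elim z w)` as a set is `adjoin (E z) (range w)` (`IntermediateField.adjoin_adjoin_left`), `lift_trdeg_add_eq`,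
  `Cardinal.toNat_add` (both finite).
* `td_eq_trdeg`: `Ω` algebraic over `E z`: `trdeg` of an algebraic extension is 0 and `lift_trdeg_add_eq`.
* `td_le_card`: from `td_exists_basis`.
-/

set_option autoImplicit false

namespace N64Y

variable {K : Type*} [Field K] {Ω : Type*} [Field Ω] [Algebra K Ω]

private noncomputable def TdApi_zz (K : Type*) [Field K] {Ω : Type*} [Field Ω] [Algebra K Ω]
    {ι : Type*} (z : ι → Ω) : ι → IntermediateField.adjoin K (Set.range z) :=
  fun i => ⟨z i, IntermediateField.subset_adjoin K _ ⟨i, rfl⟩⟩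

private theorem TdApi_alg {ι : Type*} (z : ι → Ω) :
    Algebra.IsAlgebraic (Algebra.adjoin K (Set.range (TdApi_zz K z)))
      (IntermediateField.adjoin K (Set.range z)) := by
  constructor
  intro x
  obtain ⟨r, t, h⟩ := (IntermediateField.mem_adjoin_range_iff K z x).1 x.2
  have hmem : ∀ p : MvPolynomial ι K, MvPolynomial.aeval (TdApi_zz K z) p ∈
      Algebra.adjoin K (Set.range (TdApi_zz K z)) := by
    intro p
    rw [Algebra.adjoin_range_eq_range_aeval]
    exact ⟨p, rfl⟩
  have hval : ∀ p : MvPolynomial ι K,
      ((MvPolynomial.aeval (TdApi_zz K z) p : IntermediateField.adjoin K (Set.range z)) : Ω)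
        = MvPolynomial.aeval z p := by
    intro p
    exact MvPolynomial.comp_aeval_apply (f := TdApi_zz K z)
      (IntermediateField.adjoin K (Set.range z)).val p
  have hx : x = MvPolynomial.aeval (TdApi_zz K z) r / MvPolynomial.aeval (TdApi_zz K z) t := by
    apply Subtype.ext
    rw [IntermediateField.coe_div, hval, hval]
    exact h
  have h1 := isAlgebraic_algebraMap (R := Algebra.adjoin K (Set.range (TdApi_zz K z)))
    (A := IntermediateField.adjoin K (Set.range z)) ⟨_, hmem r⟩
  have h2 := isAlgebraic_algebraMap (R := Algebra.adjoin K (Set.range (TdApi_zz K z)))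
    (A := IntermediateField.adjoin K (Set.range z)) ⟨_, hmem t⟩
  rw [hx, div_eq_mul_inv]
  exact h1.mul h2.inv

private theorem TdApi_lt {ι : Type*} [Finite ι] (z : ι → Ω) :
    Algebra.trdeg K (IntermediateField.adjoin K (Set.range z)) < Cardinal.aleph0 := by
  have := TdApi_alg (K := K) z
  refine (Algebra.IsAlgebraic.trdeg_le_cardinalMk K (Set.range (TdApi_zz K z))).trans_lt ?_
  exact Cardinal.mk_lt_aleph0

theorem td_exists_basis {ι : Type*} [Finite ι] (z : ι → Ω) :
    ∃ s : Finset ι, s.card = td K z ∧ AlgebraicIndependent K (fun i : s => z i) ∧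
      ∀ i, IsAlgebraic (Algebra.adjoin K (Set.range fun i : s => z i)) (z i) := by
  classical
  have halg := TdApi_alg (K := K) z
  obtain ⟨t, hts, ht⟩ := exists_isTranscendenceBasis_subset (R := K) (Set.range (TdApi_zz K z))
  obtain ⟨s', hs', hbij⟩ := Set.exists_subset_bijOn ((TdApi_zz K z) ⁻¹' t) (TdApi_zz K z)
  rw [Set.image_preimage_eq_of_subset hts] at hbij
  obtain ⟨s, rfl⟩ : ∃ s : Finset ι, (s : Set ι) = s' := ⟨(Set.toFinite s').toFinset, by simp⟩
  let e : s ≃ t := (Set.BijOn.equiv _ hbij)
  have he : ((↑) : t → IntermediateField.adjoin K (Set.range z)) ∘ e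
      = fun i : s => TdApi_zz K z i := by
    funext i
    rfl
  have hb : IsTranscendenceBasis K (fun i : s => TdApi_zz K z i) := by
    rw [← he]
    exact (isTranscendenceBasis_equiv e).2 ht
  refine ⟨s, ?_, ?_, ?_⟩
  · have h1 := hb.lift_cardinalMk_eq_trdeg
    have h2 := congrArg Cardinal.toNat h1
    rw [Cardinal.toNat_lift, Cardinal.toNat_lift] at h2
    rw [td, ← h2]
    simp
  · exact hb.1.map' (f := (IntermediateField.adjoin K (Set.range z)).val)
      (IntermediateField.adjoin K (Set.range z)).val.injective
  · intro i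
    have h1 := hb.isAlgebraic
    have h2 := h1.isAlgebraic (TdApi_zz K z i)
    have hm : (Algebra.adjoin K (Set.range fun i : s => TdApi_zz K z i)).map
        (IntermediateField.adjoin K (Set.range z)).val
        = Algebra.adjoin K (Set.range fun i : s => z i) := by
      rw [AlgHom.map_adjoin, ← Set.range_comp]
      rfl
    rw [← hm]
    exact h2.ringHom_of_comp_eq
      ((Algebra.adjoin K (Set.range fun i : s => TdApi_zz K z i)).equivMapOfInjective
        (IntermediateField.adjoin K (Set.range z)).val
        (IntermediateField.adjoin K (Set.range z)).val.injective).toRingEquiv.toRingHom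
      (IntermediateField.adjoin K (Set.range z)).val.toRingHom
      (AlgEquiv.injective _) rfl

theorem card_le_td {ι : Type*} [Finite ι] (z : ι → Ω) (s : Finset ι)
    (h : AlgebraicIndependent K (fun i : s => z i)) : s.card ≤ td K z := by
  have h1 : AlgebraicIndependent K (fun i : s => TdApi_zz K z i) :=
    AlgebraicIndependent.of_comp (IntermediateField.adjoin K (Set.range z)).val h
  have h2 := h1.lift_cardinalMk_le_trdeg
  have h3 := Cardinal.toNat_le_toNat h2 (Cardinal.lift_lt_aleph0.2 (TdApi_lt z))
  rw [Cardinal.toNat_lift, Cardinal.toNat_lift] at h3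
  rw [td]
  simpa using h3

theorem td_map {Ω' : Type*} [Field Ω'] [Algebra K Ω'] (f : Ω →ₐ[K] Ω') {ι : Type*} [Finite ι] (z : ι → Ω) :
    td K (f ∘ z) = td K z := by
  have h1 : (IntermediateField.adjoin K (Set.range z)).map f
      = IntermediateField.adjoin K (Set.range (f ∘ z)) := by
    rw [IntermediateField.adjoin_map, Set.range_comp]
  have h2 := ((IntermediateField.adjoin K (Set.range z)).equivMap f).lift_trdeg_eq
  have h3 := congrArg Cardinal.toNat h2
  rw [Cardinal.toNat_lift, Cardinal.toNat_lift] at h3
  rw [td, td, h3, h1]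

theorem td_mono {ι κ : Type*} [Finite ι] [Finite κ] (z : ι → Ω) (w : κ → Ω)
    (h : ∀ i, z i ∈ IntermediateField.adjoin K (Set.range w)) : td K z ≤ td K w := by
  have h1 : IntermediateField.adjoin K (Set.range z) ≤ IntermediateField.adjoin K (Set.range w) := by
    rw [IntermediateField.adjoin_le_iff]
    rintro _ ⟨i, rfl⟩
    exact h i
  have h2 := trdeg_le_of_injective (IntermediateField.inclusion h1)
    (IntermediateField.inclusion h1).injective
  exact Cardinal.toNat_le_toNat h2 (TdApi_lt w)

theorem td_add {ι κ : Type*} [Finite ι] [Finite κ] (z : ι → Ω) (w : κ → Ω) :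
    td K (Sum.elim z w) = td K z + td (IntermediateField.adjoin K (Set.range z)) w := by
  have h1 : IntermediateField.adjoin K (Set.range (Sum.elim z w))
      = (IntermediateField.adjoin (IntermediateField.adjoin K (Set.range z))
        (Set.range w)).restrictScalars K := by
    rw [IntermediateField.adjoin_adjoin_left, Set.Sum.elim_range]
  have h2 : Algebra.trdeg K (IntermediateField.adjoin K (Set.range (Sum.elim z w)))
      = Algebra.trdeg K (IntermediateField.adjoin (IntermediateField.adjoin K (Set.range z))
        (Set.range w)) := by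
    rw [h1]
    rfl
  have hf : FaithfulSMul (IntermediateField.adjoin K (Set.range z))
      (IntermediateField.adjoin (IntermediateField.adjoin K (Set.range z)) (Set.range w)) :=
    (faithfulSMul_iff_algebraMap_injective _ _).2
      (algebraMap (IntermediateField.adjoin K (Set.range z))
        (IntermediateField.adjoin (IntermediateField.adjoin K (Set.range z))
          (Set.range w))).injective
  have h3 := trdeg_add_eq K (IntermediateField.adjoin K (Set.range z))
    (A := IntermediateField.adjoin (IntermediateField.adjoin K (Set.range z)) (Set.range w))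
  rw [td, h2, ← h3, Cardinal.toNat_add (TdApi_lt z) (TdApi_lt w)]
  rfl

theorem td_eq_trdeg {ι : Type*} [Finite ι] (z : ι → Ω)
    (h : Algebra.IsAlgebraic (IntermediateField.adjoin K (Set.range z)) Ω) :
    td K z = Cardinal.toNat (Algebra.trdeg K Ω) := by
  have h3 := trdeg_add_eq K (IntermediateField.adjoin K (Set.range z)) (A := Ω)
  rw [trdeg_eq_zero_iff.2 h, add_zero] at h3
  rw [td, h3]

theorem td_le_card {ι : Type*} [Fintype ι] (z : ι → Ω) : td K z ≤ Fintype.card ι := by
  obtain ⟨s, hs, -⟩ := td_exists_basis (K := K) z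
  rw [← hs]
  exact Finset.card_le_univ s

/-- same field, same transcendence degree -/
theorem td_congr {ι κ : Type*} [Finite ι] [Finite κ] (z : ι → Ω) (w : κ → Ω)
    (h : ∀ i, z i ∈ IntermediateField.adjoin K (Set.range w))
    (h' : ∀ i, w i ∈ IntermediateField.adjoin K (Set.range z)) : td K z = td K w :=
  le_antisymm (td_mono z w h) (td_mono w z h')

end N64Y
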