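import Pool.Agent.H78.N64.ConeDefs
import Pool.Agent.H78.N64.TdApi

/-!
MP_4f0605_nt, geometry, module TrdDrop: strictly larger primes have smaller dimension.

PROOFS. `R = MvPolynomial ι F`, `Q < Q'` primes, `t = tdq Q'`. `aeval (gpt Q) P = algebraMap (mk P)` (`gpt_aeval`), so `aeval (gpt Q) P = 0 ↔ P ∈ Q` (`aeval_gpt_eq_zero`, injectivity of
`A → FractionRing A`). Let `s ⊆ ι` with `s.card = t` and `gpt Q' i`, `i ∈ s`, algebraically independent (`td_exists_basis`). Then `gpt Q i`, `i ∈ s`, are algebraically independent: if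
`aeval (gpt Q ∘ val) p = 0`, then `rename val p ∈ Q ⊆ Q'`, so `p = 0`. So `tdq Q ≥ t` (`card_le_td`). If `tdq Q = t`, the family `gpt Q i` (`i ∈ s`) is a transcendence basis of `F(gpt Q)`
(`td_exists_basis` for it, or: adding one more element would give `t+1` independent elements of `F(gpt Q)`, contradiction with `trdeg`): take `b ∈ Q'`, `b ∉ Q`, its class
`β = aeval (gpt Q) b ≠ 0` is algebraic over `F[gpt Q i : i ∈ s]`: there are `c_0, .., c_m ∈ MvPolynomial s F`, `c_0 ≠ 0` (divide by a power of `β`; domain), not all zero, with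
`Σ_j aeval (gpt Q ∘ val) c_j * β^j = 0`. So `Σ_j rename val c_j * b^j ∈ Q ⊆ Q'`, `b ∈ Q'`: `rename val c_0 ∈ Q'`, so `c_0 = 0` by the independence modulo `Q'`: contradiction.
Mathlib has `AlgebraicIndependent` API (`option`, `isAlgebraic_of...`), `IsTranscendenceBasis`, `isTranscendenceBasis_of_lift_trdeg_le_of_finite`.
* `isField_of_tdq_zero`: `tdq Q = 0`: all `gpt Q i` are algebraic over `F` (`td_exists_basis` with empty `s`), so `R/Q` is an algebraic (integral) domain over the field `F`, hence a field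
  (`isField_of_isIntegral_of_isField'` or `Algebra.IsIntegral`), `Q` maximal (`Ideal.Quotient.maximal_of_isField`).
-/

set_option autoImplicit false

namespace N64Y

open MvPolynomial

variable {F : Type*} [Field F] {ι : Type*} [Finite ι]

omit [Finite ι] in
theorem aeval_gpt (Q : Ideal (MvPolynomial ι F)) [Q.IsPrime] (P : MvPolynomial ι F) :
    aeval (gpt Q) P = algebraMap (MvPolynomial ι F ⧸ Q) _ (Ideal.Quotient.mk Q P) := by
  have h : (aeval (gpt Q) : MvPolynomial ι F →ₐ[F] FractionRing (MvPolynomial ι F ⧸ Q)) =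
      (IsScalarTower.toAlgHom F (MvPolynomial ι F ⧸ Q) (FractionRing (MvPolynomial ι F ⧸ Q))).comp
        (Ideal.Quotient.mkₐ F Q) := by
    apply MvPolynomial.algHom_ext
    intro i
    simp [gpt]
  rw [h]
  simp

omit [Finite ι] in
theorem aeval_gpt_eq_zero (Q : Ideal (MvPolynomial ι F)) [Q.IsPrime] (P : MvPolynomial ι F) :
    aeval (gpt Q) P = 0 ↔ P ∈ Q := by
  rw [aeval_gpt, ← Ideal.Quotient.eq_zero_iff_mem]
  exact (FaithfulSMul.algebraMap_injective (MvPolynomial ι F ⧸ Q)
    (FractionRing (MvPolynomial ι F ⧸ Q))).eq_iff' (map_zero _)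

omit [Finite ι] in
/-- independence of a subfamily of the generic point -/
theorem indep_iff_aux (Q : Ideal (MvPolynomial ι F)) [Q.IsPrime] (s : Finset ι) :
    AlgebraicIndependent F (fun i : s => gpt Q i) ↔
      ∀ p : MvPolynomial s F, rename Subtype.val p ∈ Q → p = 0 := by
  rw [algebraicIndependent_iff]
  refine forall_congr' fun p => ?_
  rw [← aeval_gpt_eq_zero Q, aeval_rename]
  rfl

theorem tdq_lt (Q Q' : Ideal (MvPolynomial ι F)) [Q.IsPrime] [Q'.IsPrime] (h : Q < Q') : tdq Q' < tdq Q := by
  obtain ⟨s, hs, hind, -⟩ := td_exists_basis (K := F) (gpt Q')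
  rw [indep_iff_aux] at hind
  obtain ⟨b, hb', hb⟩ := Set.exists_of_ssubset h
  have hindQ : ∀ p : MvPolynomial s F, rename Subtype.val p ∈ Q → p = 0 := fun p hp => hind p (h.le hp)
  have hinj := FaithfulSMul.algebraMap_injective (MvPolynomial ι F ⧸ Q)
    (FractionRing (MvPolynomial ι F ⧸ Q))
  set x : s → MvPolynomial ι F ⧸ Q := fun i => Ideal.Quotient.mk Q (X (i : ι)) with hx
  set β : MvPolynomial ι F ⧸ Q := Ideal.Quotient.mk Q b with hβ
  have hxae : ∀ p : MvPolynomial s F, aeval x p = Ideal.Quotient.mk Q (rename Subtype.val p) := by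
    intro p
    have h1 : (aeval x : MvPolynomial s F →ₐ[F] MvPolynomial ι F ⧸ Q) =
        (Ideal.Quotient.mkₐ F Q).comp (rename Subtype.val) := by
      apply MvPolynomial.algHom_ext
      intro i
      simp [hx]
    rw [h1]
    simp
  have hxind : AlgebraicIndependent F x := by
    rw [algebraicIndependent_iff]
    intro p hp
    rw [hxae, Ideal.Quotient.eq_zero_iff_mem] at hp
    exact hindQ p hp
  have hβ0 : β ≠ 0 := by
    rw [hβ, Ne, Ideal.Quotient.eq_zero_iff_mem]
    exact hb
  -- the family with `β` is independent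
  have htr : AlgebraicIndependent F (fun o : Option s => o.elim β x) := by
    rw [hxind.option_iff_transcendental]
    intro halg
    obtain ⟨r, hr0, hr⟩ := halg.exists_nonzero_dvd (mem_nonZeroDivisors_of_ne_zero hβ0)
    obtain ⟨r, hrm⟩ := r
    have hr' : β ∣ r := hr
    rw [Algebra.adjoin_range_eq_range_aeval] at hrm
    obtain ⟨p, rfl⟩ := hrm
    obtain ⟨c, hc⟩ := hr'
    obtain ⟨c, rfl⟩ := Ideal.Quotient.mk_surjective c
    have h2 : rename Subtype.val p - b * c ∈ Q := by
      rw [← Ideal.Quotient.eq_zero_iff_mem, map_sub, map_mul, ← hxae, sub_eq_zero]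
      exact hc
    have h3 : rename Subtype.val p ∈ Q' := by
      have h4 := Q'.add_mem (h.le h2) (Q'.mul_mem_right c hb')
      rwa [sub_add_cancel] at h4
    have h5 := hind p h3
    apply hr0
    subst h5
    apply Subtype.ext
    exact map_zero _
  have htr' : AlgebraicIndependent F
      (fun o : Option s => algebraMap (MvPolynomial ι F ⧸ Q) (FractionRing (MvPolynomial ι F ⧸ Q)) (o.elim β x)) :=
    (AlgHom.algebraicIndependent_iff
      (IsScalarTower.toAlgHom F (MvPolynomial ι F ⧸ Q) (FractionRing (MvPolynomial ι F ⧸ Q))) hinj).2 htr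
  have h6 := card_le_td (K := F) (fun o : Option s => algebraMap (MvPolynomial ι F ⧸ Q)
    (FractionRing (MvPolynomial ι F ⧸ Q)) (o.elim β x)) Finset.univ
    (htr'.comp (fun i : (Finset.univ : Finset (Option s)) => (i : Option s)) Subtype.val_injective)
  have h7 : td F (fun o : Option s => algebraMap (MvPolynomial ι F ⧸ Q)
    (FractionRing (MvPolynomial ι F ⧸ Q)) (o.elim β x)) ≤ tdq Q := by
    apply td_mono
    rintro (_ | i)
    · apply IntermediateField.algebra_adjoin_le_adjoin
      rw [Algebra.adjoin_range_eq_range_aeval]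
      exact ⟨b, aeval_gpt Q b⟩
    · exact IntermediateField.subset_adjoin F _ ⟨(i : ι), rfl⟩
  have h8 : (Finset.univ : Finset (Option s)).card = s.card + 1 := by
    rw [Finset.card_univ, Fintype.card_option, Fintype.card_coe]
  have h9 : s.card = tdq Q' := hs
  omega

theorem isMaximal_of_tdq_zero (Q : Ideal (MvPolynomial ι F)) [Q.IsPrime] (h : tdq Q = 0) : Q.IsMaximal := by
  obtain ⟨s, hs, -, halg⟩ := td_exists_basis (K := F) (gpt Q)
  have hs0 : s = ∅ := by
    rw [← Finset.card_eq_zero, hs]
    exact h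
  subst hs0
  have hinj := FaithfulSMul.algebraMap_injective (MvPolynomial ι F ⧸ Q)
    (FractionRing (MvPolynomial ι F ⧸ Q))
  have hX : ∀ i, IsIntegral F (Ideal.Quotient.mk Q (X i)) := by
    intro i
    have h1 := halg i
    have h2 : IsAlgebraic F (gpt Q i) := by
      have hr : (Set.range fun i : (∅ : Finset ι) => gpt Q i) = ∅ := by
        rw [Set.range_eq_empty_iff]
        infer_instance
      rw [hr, Algebra.adjoin_empty] at h1
      exact Subalgebra.isAlgebraic_of_isAlgebraic_bot h1
    have h3 : IsAlgebraic F (Ideal.Quotient.mk Q (X i)) := by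
      rw [gpt] at h2
      exact (isAlgebraic_algebraMap_iff hinj).1 h2
    exact h3.isIntegral
  have hint : Algebra.IsIntegral F (MvPolynomial ι F ⧸ Q) := by
    constructor
    intro x
    obtain ⟨P, rfl⟩ := Ideal.Quotient.mk_surjective x
    induction P using MvPolynomial.induction_on with
    | C a => exact (isIntegral_algebraMap (R := F) (x := a))
    | add p q hp hq => rw [map_add]; exact hp.add hq
    | mul_X p i hp => rw [map_mul]; exact hp.mul (hX i)
  have hf : IsField (MvPolynomial ι F ⧸ Q) := isField_of_isIntegral_of_isField' (Field.toIsField F)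
  exact Ideal.Quotient.maximal_of_isField Q hf

end N64Y
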