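import Pool.Agent.H78.N64.NTb
import Pool.Agent.H78.N64.GZero
import Pool.Agent.H78.N64.TrdDrop

/-!
MP_4f0605_nt, geometry, module GOne (G1): dimension of the cone.

PROOF of `G1_six` (`G1_five` the same with `nT_le5`). `ζ = Sum.elim x y : Z → F`, `Q ⊇ ICone ζ` prime in `F[X_Z]`, `Ω = FractionRing (F[X]/Q)` (a field containing `F`, `K`; `Algebra K Ω` and `IsScalarTower K F Ω` by
composition: use `((algebraMap F Ω).comp (algebraMap K F)).toAlgebra` or the existing instances), `η k = gpt Q k`. If `tdq Q ≤ 2`: `td_le_G0` gives `td K ζ + 4 ≤ 12`, so the sum is `≤ 8 + 2`.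
Let `tdq Q ≥ 3`. Put `X i = ζ (inl i)`, `Y j = ζ (inr j)` (images in `Ω`), `U i = η (inl i)`, `V j = η (inr j)`. `Conf X U Y V`:
rel: for `b ≥ 1`: `pab ζ a b ∈ Q`, so `aeval η (pab ζ a b) = 0` (`aeval_gpt_eq_zero`), which is `Σ_i X_i^a U_i^b - Σ_j Y_j^a V_j^b = 0`; for `b = 0`, `a ≥ 1`: hypothesis `h`; `a = b = 0`: `6 = 6`.
ne: `x i ≠ y j` and `F → Ω` is injective. nd: let `α X + β U + γ = 0` at all points. If `β ≠ 0` then `η k = a + b ζ k` with `a, b ∈ Ω`, so all `η k` are in `adjoin F {a, b}` and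
`tdq Q = td F η ≤ td F ![a,b] ≤ 2` (`td_mono`, `td_le_card`): contradiction. So `β = 0`, `α ζ k + γ = 0` for all `k`; `k = inl 0, inr 0`: `α (x 0 - y 0) = 0`, so `α = 0`, `γ = 0`.
`nT_le6`: `td K (all) ≤ 10`. And `td K (all) = td K (Sum.elim ζ' η)` (`td_congr`, the same coordinates, `ζ' = algebraMap ∘ ζ`) `= td K ζ' + td K1 η` (`td_add`, `K1 = adjoin K (range ζ')`), `td K ζ' = td K ζ`
(`td_map`), and `td K1 η ≥ td F η = tdq Q`: a subfamily of `η` algebraically independent over `F` is algebraically independent over the subfield `K1` of (the image of) `F`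
(`td_exists_basis`, `card_le_td`; `K1 ≤ fieldRange` of `F`; e.g. a polynomial over `K1` killing the family is the image of a polynomial over `F`).
-/

set_option autoImplicit false

namespace N64Y

open MvPolynomial

variable {K : Type*} [Field K] [CharZero K] {F : Type*} [Field F] [Algebra K F]

private theorem GOne_rel {s : ℕ} (x y : Fin s → F)
    (h : ∀ a ∈ Finset.Icc 1 4, ∑ i, x i ^ a = ∑ j, y j ^ a)
    (Q : Ideal (MvPolynomial (Fin s ⊕ Fin s) F)) [Q.IsPrime]
    (hQ : ICone (Sum.elim x y) ≤ Q) (a b : ℕ) (hab : a + b ≤ 4) :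
    ∑ i, (algebraMap F (FractionRing (MvPolynomial (Fin s ⊕ Fin s) F ⧸ Q)) (x i)) ^ a
        * (gpt Q (Sum.inl i)) ^ b
      = ∑ j, (algebraMap F (FractionRing (MvPolynomial (Fin s ⊕ Fin s) F ⧸ Q)) (y j)) ^ a
        * (gpt Q (Sum.inr j)) ^ b := by
  rcases Nat.eq_zero_or_pos b with hb | hb
  · subst hb
    rcases Nat.eq_zero_or_pos a with ha | ha
    · subst ha
      simp
    · have h1 := h a (Finset.mem_Icc.2 ⟨ha, by omega⟩)
      have h2 := congrArg (algebraMap F (FractionRing (MvPolynomial (Fin s ⊕ Fin s) F ⧸ Q))) h1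
      simpa using h2
  · have hm : pab (Sum.elim x y) a b ∈ Q := hQ (Ideal.subset_span ⟨a, b, hb, hab, rfl⟩)
    have h0 := (aeval_gpt_eq_zero Q _).2 hm
    rw [pab, map_sum, Fintype.sum_sum_type] at h0
    simp only [map_mul, map_pow, aeval_X, sg, Sum.elim_inl, Sum.elim_inr, one_mul, neg_mul, map_neg,
      Finset.sum_neg_distrib] at h0
    simp only [MvPolynomial.aeval_C] at h0
    exact sub_eq_zero.1 ((sub_eq_add_neg _ _).trans h0)

private theorem GOne_gen {s : ℕ} (hs : 1 ≤ s) (N : ℕ) (x y : Fin s → F)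
    (h : ∀ a ∈ Finset.Icc 1 4, ∑ i, x i ^ a = ∑ j, y j ^ a) (hne : ∀ i j, x i ≠ y j)
    (Q : Ideal (MvPolynomial (Fin s ⊕ Fin s) F)) [Q.IsPrime] (hQ : ICone (Sum.elim x y) ≤ Q)
    (hN : ∀ X U Y V : Fin s → FractionRing (MvPolynomial (Fin s ⊕ Fin s) F ⧸ Q), Conf X U Y V →
      td K (fun ek : Fin 2 × (Fin s ⊕ Fin s) => pts X U Y V ek.2 ek.1) ≤ N)
    (hN2 : 2 * s ≤ N + 2) :
    td K (Sum.elim x y) + tdq Q ≤ N := by
  by_cases hq : tdq Q ≤ 2
  · have h1 := td_le_G0 (K := K) hs x y h hne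
    omega
  · set Ω := FractionRing (MvPolynomial (Fin s ⊕ Fin s) F ⧸ Q) with hΩ
    let ζ : Fin s ⊕ Fin s → F := Sum.elim x y
    let φ := algebraMap F Ω
    have hφ : Function.Injective φ := φ.injective
    have hconf : Conf (R := Ω) (fun i => φ (x i)) (fun i => gpt Q (Sum.inl i))
        (fun j => φ (y j)) (fun j => gpt Q (Sum.inr j)) := by
      refine ⟨fun a b hab => GOne_rel x y h Q hQ a b hab, fun i j hij => hne i j (hφ hij.1), ?_⟩
      intro α β γ h1 h2
      by_cases hβ : β = 0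
      · subst hβ
        simp only [zero_mul, add_zero] at h1 h2
        have e1 := h1 ⟨0, hs⟩
        have e2 := h2 ⟨0, hs⟩
        have e3 : α * (φ (x ⟨0, hs⟩) - φ (y ⟨0, hs⟩)) = 0 := by linear_combination e1 - e2
        have e4 : φ (x ⟨0, hs⟩) - φ (y ⟨0, hs⟩) ≠ 0 := fun h0 =>
          hne _ _ (hφ (sub_eq_zero.1 h0))
        have hα : α = 0 := (mul_eq_zero.1 e3).resolve_right e4
        subst hα
        refine ⟨rfl, rfl, ?_⟩
        simpa using e1
      · exfalso
        apply hq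
        have hk : ∀ k : Fin s ⊕ Fin s, gpt Q k = -γ / β + (-α / β) * φ (ζ k) := by
          rintro (i | j)
          · have := h1 i
            change gpt Q (Sum.inl i) = -γ / β + (-α / β) * φ (x i)
            field_simp
            linear_combination this
          · have := h2 j
            change gpt Q (Sum.inr j) = -γ / β + (-α / β) * φ (y j)
            field_simp
            linear_combination this
        have h3 : td F (gpt Q) ≤ td F (![-γ / β, -α / β] : Fin 2 → Ω) := by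
          refine td_mono _ _ fun k => ?_
          rw [hk k]
          have m0 : (-γ / β : Ω) ∈ IntermediateField.adjoin F (Set.range (![-γ / β, -α / β] : Fin 2 → Ω)) :=
            IntermediateField.subset_adjoin _ _ ⟨0, rfl⟩
          have m1 : (-α / β : Ω) ∈ IntermediateField.adjoin F (Set.range (![-γ / β, -α / β] : Fin 2 → Ω)) :=
            IntermediateField.subset_adjoin _ _ ⟨1, rfl⟩
          exact add_mem m0 (mul_mem m1 (IntermediateField.algebraMap_mem _ _))
        have h4 := td_le_card (K := F) (![-γ / β, -α / β] : Fin 2 → Ω)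
        rw [Fintype.card_fin] at h4
        exact h3.trans h4
    have h5 := hN _ _ _ _ hconf
    obtain ⟨s1, hs1, hi1, -⟩ := td_exists_basis (K := K) ζ
    obtain ⟨s0, hs0, hi0, -⟩ := td_exists_basis (K := F) (gpt Q)
    have h6 := hi1.sumElim_comp hi0
    let w : s0 ⊕ s1 → Ω := Sum.elim (fun i : s0 => gpt Q i) (φ ∘ fun i : s1 => ζ i)
    have h7 : (Finset.univ : Finset (s0 ⊕ s1)).card ≤ td K w := by
      refine card_le_td w Finset.univ ?_
      exact (algebraicIndependent_equiv (Equiv.subtypeUnivEquiv (fun _ => Finset.mem_univ _))).2 h6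
    have h8 : td K w ≤ td K (fun ek : Fin 2 × (Fin s ⊕ Fin s) =>
        pts (fun i => φ (x i)) (fun i => gpt Q (Sum.inl i))
        (fun j => φ (y j)) (fun j => gpt Q (Sum.inr j)) ek.2 ek.1) := by
      refine td_mono _ _ ?_
      rintro (⟨k, hk⟩ | ⟨k, hk⟩)
      · refine IntermediateField.subset_adjoin _ _ ⟨(1, k), ?_⟩
        rcases k with i | j <;> rfl
      · refine IntermediateField.subset_adjoin _ _ ⟨(0, k), ?_⟩
        rcases k with i | j <;> rfl
    have h9 : (Finset.univ : Finset (s0 ⊕ s1)).card = s0.card + s1.card := by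
      rw [Finset.card_univ, Fintype.card_sum, Fintype.card_coe, Fintype.card_coe]
    have h10 : tdq Q = s0.card := hs0.symm
    have h11 : td K (Sum.elim x y) = s1.card := hs1.symm
    omega

theorem G1_six (x y : Fin 6 → F) (h : ∀ a ∈ Finset.Icc 1 4, ∑ i, x i ^ a = ∑ j, y j ^ a)
    (hne : ∀ i j, x i ≠ y j) (Q : Ideal (MvPolynomial (Fin 6 ⊕ Fin 6) F)) [Q.IsPrime]
    (hQ : ICone (Sum.elim x y) ≤ Q) : td K (Sum.elim x y) + tdq Q ≤ 10 :=
  GOne_gen (by norm_num) 10 x y h hne Q hQ (fun _ _ _ _ hc => nT_le6 hc) (by norm_num)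

theorem G1_five (x y : Fin 5 → F) (h : ∀ a ∈ Finset.Icc 1 4, ∑ i, x i ^ a = ∑ j, y j ^ a)
    (hne : ∀ i j, x i ≠ y j) (Q : Ideal (MvPolynomial (Fin 5 ⊕ Fin 5) F)) [Q.IsPrime]
    (hQ : ICone (Sum.elim x y) ≤ Q) : td K (Sum.elim x y) + tdq Q ≤ 8 :=
  GOne_gen (by norm_num) 8 x y h hne Q hQ
    (fun _ _ _ _ hc => (nT_le5 hc).trans (by norm_num)) (by norm_num)

end N64Y
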