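import Mathlib

/-!
MP_4f0605_nt, geometry, module Minor (G2, linear algebra): a matrix of integer polynomials which is onto at `ζ` is onto wherever one minor does not vanish.

PROOF of `exists_minor`. `A ζ := A.map (aeval ζ)` has surjective `mulVec`, so its rank is `card m` (`Matrix.rank`, range of `mulVecLin` = ⊤), so its rows are linearly independent and its columns span `m → F`: choose `card m`
columns which form a basis: there is an injective `e : m → n` with `((A ζ).submatrix id e).det ≠ 0` (from a basis among the spanning columns: `exists_linearIndependent`/`Submodule.exists_fun_fin_finrank_span_eq`,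
`Matrix.linearIndependent_cols_iff_isUnit`, `LinearIndependent` of the chosen columns as a square matrix). Put `N = (A.submatrix id e).det`: `aeval ζ N = det (..) ≠ 0` (`AlgHom.map_det`/`RingHom.map_det`). For `k`, `ξ` with
`aeval ξ N ≠ 0` the square submatrix of `A ξ` is invertible, so every vector `w` is `(A ξ) *ᵥ c` with `c` supported on the image of `e`.
-/

set_option autoImplicit false

namespace N64Y

open MvPolynomial

theorem exists_minor {σ : Type} {m n : Type*} [Fintype m] [Fintype n] [DecidableEq m] [DecidableEq n]
    (A : Matrix m n (MvPolynomial σ ℤ)) {F : Type*} [Field F] (ζ : σ → F)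
    (h : Function.Surjective (A.map (aeval ζ)).mulVec) :
    ∃ N : MvPolynomial σ ℤ, aeval ζ N ≠ 0 ∧ ∀ (k : Type) [Field k] (ξ : σ → k), aeval ξ N ≠ 0 →
      Function.Surjective (A.map (aeval ξ)).mulVec := by
  set B : Matrix m n F := A.map (aeval ζ) with hB
  have hspan : Submodule.span F (Set.range B.col) = ⊤ := by
    rw [← Matrix.range_mulVecLin, LinearMap.range_eq_top]
    exact h
  obtain ⟨κ, a, ha, hs, hli⟩ := exists_linearIndependent' F B.col
  rw [hspan] at hs
  let bas : Module.Basis κ F (m → F) := Module.Basis.mk hli hs.ge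
  have : Finite κ := Finite.of_injective a ha
  have : Fintype κ := Fintype.ofFinite κ
  let eq : m ≃ κ := (Pi.basisFun F m).indexEquiv bas
  set e : m → n := a ∘ eq with he
  have hli2 : LinearIndependent F (B.submatrix id e).col := by
    have h1 := hli.comp eq eq.injective
    exact h1
  have hdet : (B.submatrix id e).det ≠ 0 := by
    have h1 := Matrix.linearIndependent_cols_iff_isUnit.mp hli2
    exact ((Matrix.isUnit_iff_isUnit_det _).mp h1).ne_zero
  refine ⟨(A.submatrix id e).det, ?_, fun k _ ξ hξ w => ?_⟩
  · rw [AlgHom.map_det]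
    exact hdet
  · rw [AlgHom.map_det] at hξ
    have h1 : IsUnit ((aeval ξ).mapMatrix (A.submatrix id e)) :=
      (Matrix.isUnit_iff_isUnit_det _).mpr (isUnit_iff_ne_zero.mpr hξ)
    obtain ⟨c, hc⟩ := Matrix.mulVec_surjective_iff_isUnit.mpr h1 w
    refine ⟨fun j => ∑ i, if e i = j then c i else 0, ?_⟩
    rw [← hc]
    funext i
    have h2 : (A.map (aeval ξ)).mulVec (fun j => ∑ i, if e i = j then c i else 0) i
        = ∑ j, aeval ξ (A i j) * ∑ i', (if e i' = j then c i' else 0) := rfl
    have h3 : ((aeval ξ).mapMatrix (A.submatrix id e)).mulVec c i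
        = ∑ i', aeval ξ (A i (e i')) * c i' := rfl
    rw [h2, h3]
    simp only [Finset.mul_sum, mul_ite, mul_zero]
    rw [Finset.sum_comm]
    refine Finset.sum_congr rfl fun i' _ => ?_
    rw [Finset.sum_ite_eq Finset.univ (e i'), if_pos (Finset.mem_univ _)]

end N64Y
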