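import Pool.Agent.H78.N64.ConeDefs
import Pool.Agent.H78.N64.Minor

/-!
MP_4f0605_nt, geometry, module GTwo (G2, second half): the cone condition is open, with an integral polynomial.

`(X)^M ≤ span (g_γ)` for homogeneous generators `g_γ` of degree `d_γ` is surjectivity of the matrix of coefficients of the products `X^β g_γ`, `|β| + d_γ = M`, in degree `M`
(`surj_of_le`, `le_of_surj`). For the polar forms and the integral linear forms this matrix is the specialisation at `ξ` of a matrix over `ℤ[z]`; `exists_minor` gives the polynomial.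
-/

set_option autoImplicit false

namespace N64Y

open MvPolynomial

section general

variable {k : Type*} [Field k] {σ Γ : Type*} [Finite σ] [Fintype Γ]

/-- exponents `β` with `|β| + d = M` -/
abbrev GExp (σ : Type*) (d M : ℕ) : Type _ := {β : σ →₀ ℕ // β.degree + d = M}

theorem GExp.fin (σ : Type*) [Finite σ] (d M : ℕ) : {β : σ →₀ ℕ | β.degree + d = M}.Finite := by
  refine Set.Finite.subset (Finsupp.finite_of_degree_le (σ := σ) M) fun β hβ => ?_
  simp only [Set.mem_ofPred_eq] at hβ ⊢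
  omega

noncomputable instance (d M : ℕ) : Fintype (GExp σ d M) :=
  (GExp.fin σ d M).fintype

/-- the coefficient matrix -/
noncomputable def cmat {A : Type*} [CommRing A] {σ Γ : Type*} (d : Γ → ℕ) (g : Γ → MvPolynomial σ A) (M : ℕ) :
    Matrix (GExp σ 0 M) ((γ : Γ) × GExp σ (d γ) M) A :=
  fun α p => coeff α.1 (monomial p.2.1 1 * g p.1)

/-- the degree `M` coefficients of `q g` only involve the degree `M - d` coefficients of `q` -/
theorem coeff_mul_hom {g : MvPolynomial σ k} {d : ℕ} (hg : g.IsHomogeneous d) (q : MvPolynomial σ k) {M : ℕ}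
    (α : σ →₀ ℕ) (hα : α.degree = M) :
    coeff α (q * g) = ∑ β : GExp σ d M, coeff β.1 q * coeff α (monomial β.1 1 * g) := by
  classical
  have h0 : ∑ β : GExp σ d M, coeff β.1 q * coeff α (monomial β.1 1 * g)
      = ∑ β ∈ (GExp.fin σ d M).toFinset, coeff β q * coeff α (monomial β 1 * g) :=
    (Finset.sum_subtype (p := fun β : σ →₀ ℕ => β.degree + d = M) (GExp.fin σ d M).toFinset
      (fun β => by rw [Set.Finite.mem_toFinset]; rfl)
      (fun β => coeff β q * coeff α (monomial β 1 * g))).symm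
  rw [h0]
  conv_lhs => rw [q.as_sum, Finset.sum_mul, coeff_sum]
  have h1 : ∀ β, coeff α ((monomial β (coeff β q) : MvPolynomial σ k) * g) =
      if β.degree + d = M then coeff β q * coeff α (monomial β 1 * g) else 0 := by
    intro β
    have h1 : (monomial β (coeff β q) : MvPolynomial σ k) * g = C (coeff β q) * (monomial β 1 * g) := by
      rw [← mul_assoc, C_mul_monomial, mul_one]
    rw [h1, coeff_C_mul]
    split_ifs with h
    · rfl
    · have h2 : (monomial β (1 : k) * g).IsHomogeneous (β.degree + d) :=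
        (isHomogeneous_monomial 1 rfl).mul hg
      rw [h2.coeff_eq_zero (by rw [hα]; exact fun h' => h h'.symm), mul_zero]
  simp only [h1]
  rw [← Finset.sum_filter]
  refine Finset.sum_subset ?_ ?_
  · intro β hβ
    simp only [Finset.mem_filter] at hβ
    simpa using hβ.2
  · intro β hβ hβ'
    have h3 : β.degree + d = M := by simpa using hβ
    have h4 : β ∉ q.support := fun h => hβ' (by simp [Finset.mem_filter, h3, mem_support_iff.1 h])
    rw [notMem_support_iff.1 h4, zero_mul]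

theorem surj_of_le (d : Γ → ℕ) (g : Γ → MvPolynomial σ k) (hg : ∀ γ, (g γ).IsHomogeneous (d γ)) (M : ℕ)
    (h : Ideal.span (Set.range (X : σ → MvPolynomial σ k)) ^ M ≤ Ideal.span (Set.range g)) :
    Function.Surjective (cmat d g M).mulVec := by
  classical
  intro w
  have h1 : ∀ α : GExp σ 0 M, ∃ c : Γ → MvPolynomial σ k, ∑ γ, c γ * g γ = monomial α.1 1 := by
    intro α
    refine Ideal.mem_span_range_iff_exists_fun.1 (h ?_)
    exact (monomial_mem_pow_idealOfVars_iff (σ := σ) (R := k) M α.1 one_ne_zero).2 (by have := α.2; omega)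
  choose c hc using h1
  refine ⟨fun p => ∑ α, w α * coeff p.2.1 (c α p.1), ?_⟩
  funext α'
  have h2 : ∀ α : GExp σ 0 M, ∑ p : (γ : Γ) × GExp σ (d γ) M, cmat d g M α' p * coeff p.2.1 (c α p.1)
      = if α = α' then 1 else 0 := by
    intro α
    have h3 := congrArg (coeff α'.1) (hc α)
    rw [coeff_sum, coeff_monomial] at h3
    have h4 : (if α.1 = α'.1 then (1 : k) else 0) = if α = α' then 1 else 0 := by
      simp only [Subtype.ext_iff]
    rw [← h4, ← h3, Fintype.sum_sigma]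
    refine Finset.sum_congr rfl fun γ _ => ?_
    rw [coeff_mul_hom (hg γ) (c α γ) α'.1 (by have := α'.2; omega)]
    exact Finset.sum_congr rfl fun β _ => mul_comm _ _
  calc (cmat d g M).mulVec (fun p => ∑ α, w α * coeff p.2.1 (c α p.1)) α'
      = ∑ p, cmat d g M α' p * ∑ α, w α * coeff p.2.1 (c α p.1) := rfl
    _ = ∑ p, ∑ α, w α * (cmat d g M α' p * coeff p.2.1 (c α p.1)) := by
        refine Finset.sum_congr rfl fun p _ => ?_
        rw [Finset.mul_sum]
        exact Finset.sum_congr rfl fun α _ => by ring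
    _ = ∑ α, w α * ∑ p, cmat d g M α' p * coeff p.2.1 (c α p.1) := by
        rw [Finset.sum_comm]
        exact Finset.sum_congr rfl fun α _ => by rw [Finset.mul_sum]
    _ = w α' := by
        simp only [h2]
        simp

theorem le_of_surj (d : Γ → ℕ) (g : Γ → MvPolynomial σ k) (hg : ∀ γ, (g γ).IsHomogeneous (d γ)) (M : ℕ)
    (h : Function.Surjective (cmat d g M).mulVec) :
    Ideal.span (Set.range (X : σ → MvPolynomial σ k)) ^ M ≤ Ideal.span (Set.range g) := by
  classical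
  change idealOfVars σ k ^ M ≤ _
  rw [pow_idealOfVars_eq_span, Ideal.span_le]
  rintro _ ⟨α, hα, rfl⟩
  have hα' : α.degree = M := by simpa using hα
  obtain ⟨c, hc⟩ := h (fun α' => if α'.1 = α then 1 else 0)
  have key : (monomial α (1 : k)) = ∑ p : (γ : Γ) × GExp σ (d γ) M, C (c p) * (monomial p.2.1 1 * g p.1) := by
    ext α'
    rw [coeff_sum, coeff_monomial]
    by_cases hd : α'.degree = M
    · have h1 := congrFun hc ⟨α', by omega⟩
      have h2 : (if α = α' then (1 : k) else 0) = if α' = α then 1 else 0 := by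
        simp only [eq_comm]
      rw [h2]
      simp only at h1
      rw [← h1]
      refine Finset.sum_congr rfl fun p _ => ?_
      rw [coeff_C_mul]
      exact mul_comm _ _
    · rw [if_neg (fun h' : α = α' => hd (by rw [← h']; exact hα')), Finset.sum_eq_zero]
      intro p _
      have h2 : (monomial p.2.1 (1 : k) * g p.1).IsHomogeneous (p.2.1.degree + d p.1) :=
        (isHomogeneous_monomial 1 rfl).mul (hg p.1)
      rw [coeff_C_mul, h2.coeff_eq_zero (by rw [p.2.2]; exact hd), mul_zero]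
  change monomial α (1 : k) ∈ Ideal.span (Set.range g)
  rw [key]
  refine Ideal.sum_mem _ fun p _ => ?_
  exact Ideal.mul_mem_left _ _ (Ideal.mul_mem_left _ _ (Ideal.subset_span ⟨p.1, rfl⟩))

end general

section cone

variable {s f : ℕ}

/-- index type of the generators -/
abbrev GIdx (f : ℕ) : Type := {ab : Fin 5 × Fin 5 // 1 ≤ (ab.2 : ℕ) ∧ (ab.1 : ℕ) + ab.2 ≤ 4} ⊕ Fin f

/-- their degrees -/
def gdeg (f : ℕ) : GIdx f → ℕ := Sum.elim (fun ab => (ab.1.2 : ℕ)) fun _ => 1

/-- the generators -/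
noncomputable def ggen {k : Type*} [CommRing k] (ξ : Fin s ⊕ Fin s → k) (h : Fin f → (Fin s ⊕ Fin s) → ℤ) :
    GIdx f → MvPolynomial (Fin s ⊕ Fin s) k :=
  Sum.elim (fun ab => pab ξ ab.1.1 ab.1.2) fun l => lin k (h l)

theorem ggen_hom {k : Type*} [CommRing k] (ξ : Fin s ⊕ Fin s → k) (h : Fin f → (Fin s ⊕ Fin s) → ℤ)
    (γ : GIdx f) : (ggen ξ h γ).IsHomogeneous (gdeg f γ) := by
  rcases γ with ab | l
  · change (pab ξ ab.1.1 ab.1.2).IsHomogeneous (ab.1.2 : ℕ)
    rw [pab]
    refine IsHomogeneous.sum _ _ _ fun i _ => ?_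
    have := (isHomogeneous_C (Fin s ⊕ Fin s) (sg k i * ξ i ^ (ab.1.1 : ℕ))).mul
      ((isHomogeneous_X k i).pow (ab.1.2 : ℕ))
    simpa using this
  · change (lin k (h l)).IsHomogeneous 1
    rw [lin]
    refine IsHomogeneous.sum _ _ _ fun i _ => ?_
    have := (isHomogeneous_C (Fin s ⊕ Fin s) ((h l i : ℤ) : k)).mul (isHomogeneous_X k i)
    simpa using this

theorem span_ggen {k : Type*} [CommRing k] (ξ : Fin s ⊕ Fin s → k) (h : Fin f → (Fin s ⊕ Fin s) → ℤ) :
    Ideal.span (Set.range (ggen ξ h)) = ICone ξ ⊔ LCone k h := by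
  rw [ICone, LCone, ← Ideal.span_union]
  congr 1
  ext F
  constructor
  · rintro ⟨γ, rfl⟩
    rcases γ with ab | l
    · exact Or.inl ⟨ab.1.1, ab.1.2, ab.2.1, ab.2.2, rfl⟩
    · exact Or.inr ⟨l, rfl⟩
  · rintro (⟨a, b, h1, h2, rfl⟩ | ⟨l, rfl⟩)
    · exact ⟨Sum.inl ⟨(⟨a, by omega⟩, ⟨b, by omega⟩), h1, h2⟩, rfl⟩
    · exact ⟨Sum.inr l, rfl⟩

theorem map_ggen {k : Type*} [Field k] (ξ : Fin s ⊕ Fin s → k) (h : Fin f → (Fin s ⊕ Fin s) → ℤ) (γ : GIdx f) :
    MvPolynomial.map (aeval ξ : MvPolynomial (Fin s ⊕ Fin s) ℤ →ₐ[ℤ] k).toRingHom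
      (ggen (k := MvPolynomial (Fin s ⊕ Fin s) ℤ) X h γ) = ggen ξ h γ := by
  rcases γ with ab | l
  · simp only [ggen, Sum.elim_inl, pab, map_sum, map_mul, map_pow, MvPolynomial.map_C, MvPolynomial.map_X]
    refine Finset.sum_congr rfl fun i _ => ?_
    have e1 : (aeval ξ : MvPolynomial (Fin s ⊕ Fin s) ℤ →ₐ[ℤ] k).toRingHom (X i) = ξ i := aeval_X ξ i
    have e2 : (aeval ξ : MvPolynomial (Fin s ⊕ Fin s) ℤ →ₐ[ℤ] k).toRingHom
        (sg (MvPolynomial (Fin s ⊕ Fin s) ℤ) i) = sg k i := by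
      rcases i with i | i
      · exact map_one _
      · change (aeval ξ : MvPolynomial (Fin s ⊕ Fin s) ℤ →ₐ[ℤ] k) (-1) = -1
        rw [map_neg, map_one]
    rw [e1, e2]
  · simp only [ggen, Sum.elim_inr, lin, map_sum, map_mul, MvPolynomial.map_C, MvPolynomial.map_X]
    refine Finset.sum_congr rfl fun i _ => ?_
    have e1 : (aeval ξ : MvPolynomial (Fin s ⊕ Fin s) ℤ →ₐ[ℤ] k).toRingHom
        ((h l i : ℤ) : MvPolynomial (Fin s ⊕ Fin s) ℤ) = (h l i : k) := map_intCast _ _
    rw [e1]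

theorem cmat_map {k : Type*} [Field k] (ξ : Fin s ⊕ Fin s → k) (h : Fin f → (Fin s ⊕ Fin s) → ℤ) (M : ℕ) :
    (cmat (gdeg f) (ggen (k := MvPolynomial (Fin s ⊕ Fin s) ℤ) X h) M).map (aeval ξ) =
      cmat (gdeg f) (ggen ξ h) M := by
  funext α p
  simp only [Matrix.map_apply, cmat]
  rw [← map_ggen ξ h p.1]
  have h1 : (monomial p.2.1 (1 : k)) * MvPolynomial.map (aeval ξ : MvPolynomial (Fin s ⊕ Fin s) ℤ →ₐ[ℤ] k).toRingHom
      (ggen (k := MvPolynomial (Fin s ⊕ Fin s) ℤ) X h p.1) =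
      MvPolynomial.map (aeval ξ : MvPolynomial (Fin s ⊕ Fin s) ℤ →ₐ[ℤ] k).toRingHom
        (monomial p.2.1 1 * ggen (k := MvPolynomial (Fin s ⊕ Fin s) ℤ) X h p.1) := by
    rw [map_mul, map_monomial]
    congr 2
    exact (map_one _).symm
  rw [h1, coeff_map]
  rfl

theorem exists_Nz {F : Type*} [Field F] (ζ : Fin s ⊕ Fin s → F) (h : Fin f → (Fin s ⊕ Fin s) → ℤ) (M : ℕ)
    (hc : ConeAt ζ h M) :
    ∃ N : MvPolynomial (Fin s ⊕ Fin s) ℤ, aeval ζ N ≠ 0 ∧
      ∀ (k : Type) [Field k] (ξ : Fin s ⊕ Fin s → k), aeval ξ N ≠ 0 → ConeAt ξ h M := by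
  classical
  have hs := surj_of_le (gdeg f) (ggen ζ h) (ggen_hom ζ h) M (by rw [span_ggen]; exact hc)
  rw [← cmat_map] at hs
  obtain ⟨N, hN, hN'⟩ := exists_minor (cmat (gdeg f) (ggen (k := MvPolynomial (Fin s ⊕ Fin s) ℤ) X h) M) ζ hs
  refine ⟨N, hN, fun k _ ξ hξ => ?_⟩
  have h1 := hN' k ξ hξ
  rw [cmat_map] at h1
  have h2 := le_of_surj (gdeg f) (ggen ξ h) (ggen_hom ξ h) M h1
  rwa [span_ggen] at h2

end cone

end N64Y
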