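import Pool.Agent.H78.N64.GOne
import Pool.Agent.H78.N64.Forms
import Pool.Agent.H78.N64.GTwo

/-!
MP_4f0605_nt, geometry: FINAL PACKAGE.
-/

set_option autoImplicit false

namespace N64Y

open MvPolynomial

/-- (G0) + (G1) + (G2) for six against six -/
theorem geometry_six {K : Type*} [Field K] [CharZero K] {F : Type*} [Field F] [Algebra K F]
    (x y : Fin 6 → F) (h : ∀ a ∈ Finset.Icc 1 4, ∑ i, x i ^ a = ∑ j, y j ^ a) (hne : ∀ i j, x i ≠ y j) :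
    td K (Sum.elim x y) ≤ 8 ∧
    ∃ (f : ℕ) (l : Fin f → (Fin 6 ⊕ Fin 6) → ℤ) (M : ℕ) (N : MvPolynomial (Fin 6 ⊕ Fin 6) ℤ),
      td K (Sum.elim x y) + f = 10 ∧ aeval (Sum.elim x y) N ≠ 0 ∧
      ∀ (k : Type) [Field k] (ξ : Fin 6 ⊕ Fin 6 → k), aeval ξ N ≠ 0 → ConeAt ξ l M := by
  have h8 : td K (Sum.elim x y) + 4 ≤ 2 * 6 := td_le_G0 (by norm_num) x y h hne
  have : CharZero F := charZero_of_injective_algebraMap (algebraMap K F).injective
  obtain ⟨l, M, hM⟩ := exists_forms (10 - td K (Sum.elim x y)) (ICone (Sum.elim x y)) (hom_ICone _)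
    (fun Q _ hQ => by have := G1_six (K := K) x y h hne Q hQ; omega)
  obtain ⟨N, hN, hN'⟩ := exists_Nz (Sum.elim x y) l M hM
  exact ⟨by omega, _, l, M, N, by omega, hN, fun k _ ξ hξ => hN' k ξ hξ⟩

/-- (G0) + (G1) + (G2) for five against five -/
theorem geometry_five {K : Type*} [Field K] [CharZero K] {F : Type*} [Field F] [Algebra K F]
    (x y : Fin 5 → F) (h : ∀ a ∈ Finset.Icc 1 4, ∑ i, x i ^ a = ∑ j, y j ^ a) (hne : ∀ i j, x i ≠ y j) :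
    td K (Sum.elim x y) ≤ 6 ∧
    ∃ (f : ℕ) (l : Fin f → (Fin 5 ⊕ Fin 5) → ℤ) (M : ℕ) (N : MvPolynomial (Fin 5 ⊕ Fin 5) ℤ),
      td K (Sum.elim x y) + f = 8 ∧ aeval (Sum.elim x y) N ≠ 0 ∧
      ∀ (k : Type) [Field k] (ξ : Fin 5 ⊕ Fin 5 → k), aeval ξ N ≠ 0 → ConeAt ξ l M := by
  have h8 : td K (Sum.elim x y) + 4 ≤ 2 * 5 := td_le_G0 (by norm_num) x y h hne
  have : CharZero F := charZero_of_injective_algebraMap (algebraMap K F).injective
  obtain ⟨l, M, hM⟩ := exists_forms (8 - td K (Sum.elim x y)) (ICone (Sum.elim x y)) (hom_ICone _)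
    (fun Q _ hQ => by have := G1_five (K := K) x y h hne Q hQ; omega)
  obtain ⟨N, hN, hN'⟩ := exists_Nz (Sum.elim x y) l M hM
  exact ⟨by omega, _, l, M, N, by omega, hN, fun k _ ξ hξ => hN' k ξ hξ⟩

end N64Y
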