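import Pool.Agent.H78.N64.TrdDrop

/-!
MP_4f0605_nt, geometry, module HomPr: homogeneous ideals, minimal primes, integral linear forms avoiding finitely many primes.

`HomI I` (ConeDefs): `I` contains the homogeneous components of its elements. With `attribute [local instance] MvPolynomial.gradedAlgebra` this is
`Ideal.IsHomogeneous (homogeneousSubmodule ι F) I` (`MvPolynomial.decomposition.decompose'_apply`, ..: the graded pieces are the `homogeneousComponent`s); lemma `homI_iff` below, used to import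
`Ideal.homogeneous_span`, `Ideal.IsHomogeneous.sup`, `Ideal.IsPrime.homogeneousCore`.
PROOFS.
* `hom_ICone`, `hom_LCone`: `pab ξ a b` is homogeneous of degree `b`, `lin` of degree `1`; `Ideal.homogeneous_span` (or directly). `HomI.sup`: `Ideal.IsHomogeneous.sup`.
* `le_mX_of_hom`: a homogeneous ideal `I ≠ ⊤` over a field is contained in `mX`: if `f ∈ I` has constant coefficient `c ≠ 0` then the degree `0` component `C c` is in `I`, `I = ⊤`; and
  `constantCoeff f = 0` implies `f ∈ mX` (`MvPolynomial.mem_ideal_span_X_image`-like, or `idealOfVars`).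
* `minimal_hom`: `I` homogeneous, `Q` a minimal prime of `I`. `Q' = (Q.homogeneousCore)` is prime (`Ideal.IsPrime.homogeneousCore`), `I ≤ Q' ≤ Q`, so `Q' = Q`, `Q` is homogeneous.
* `exists_form`: finitely many primes `Q ∈ T`, none of them contains all variables `X i`. There is `c : ι → ℤ` with `lin F c ∉ Q` for all `Q ∈ T` (`F` of characteristic 0). Proof: number the variables, `e : ι ≃ Fin N`,
  `c_n i = n ^ (e i)` for `n : ℕ`. For each `Q` the set of `n` with `lin F c_n ∈ Q` has fewer than `N` elements: for `N` different `n`'s the Vandermonde matrix is invertible in `F`, so all `X i ∈ Q`.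
  So the union over `T` is finite, take `n` outside (`Set.Finite`, `Infinite ℕ`).
-/

set_option autoImplicit false

namespace N64Y

open MvPolynomial

variable {F : Type*} [Field F] {ι : Type*} [Fintype ι]

section grading

attribute [local instance] MvPolynomial.gradedAlgebra

omit [Fintype ι] in
theorem homI_iff (I : Ideal (MvPolynomial ι F)) : HomI I ↔ I.IsHomogeneous (homogeneousSubmodule ι F) := by
  constructor
  · intro h n g hg
    have h1 := h g hg n
    rw [← decomposition.decompose'_apply] at h1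
    exact h1
  · intro h g hg n
    have h1 := h n hg
    rw [← decomposition.decompose'_apply]
    exact h1

omit [Fintype ι] in
private theorem HomPr_sup {I J : Ideal (MvPolynomial ι F)} (hI : HomI I) (hJ : HomI J) :
    HomI (I ⊔ J) := by
  rw [homI_iff] at *
  exact hI.sup hJ

omit [Fintype ι] in
private theorem HomPr_span (S : Set (MvPolynomial ι F))
    (h : ∀ x ∈ S, ∃ n : ℕ, x.IsHomogeneous n) : HomI (Ideal.span S) := by
  rw [homI_iff]
  refine Ideal.homogeneous_span _ _ fun x hx => ?_
  obtain ⟨n, hn⟩ := h x hx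
  exact ⟨n, (mem_homogeneousSubmodule n x).2 hn⟩

omit [Fintype ι] in
private theorem HomPr_minimal (I : Ideal (MvPolynomial ι F)) (hI : HomI I)
    (Q : Ideal (MvPolynomial ι F)) (hQ : Q ∈ I.minimalPrimes) :
    HomI Q := by
  rw [homI_iff] at *
  have hp : Q.IsPrime := hQ.1.1
  have h1 : (Q.homogeneousCore (homogeneousSubmodule ι F)).toIdeal.IsPrime := hp.homogeneousCore
  have h2 : (Q.homogeneousCore (homogeneousSubmodule ι F)).toIdeal ≤ Q :=
    Ideal.toIdeal_homogeneousCore_le _ Q
  have h3 : I ≤ (Q.homogeneousCore (homogeneousSubmodule ι F)).toIdeal := by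
    rw [← hI.toIdeal_homogeneousCore_eq_self]
    exact Ideal.homogeneousCore_mono _ hQ.1.2
  have h4 : Q ≤ (Q.homogeneousCore (homogeneousSubmodule ι F)).toIdeal := hQ.2 ⟨h1, h3⟩ h2
  have h5 : (Q.homogeneousCore (homogeneousSubmodule ι F)).toIdeal = Q := le_antisymm h2 h4
  rw [← h5]
  exact (Q.homogeneousCore (homogeneousSubmodule ι F)).isHomogeneous

end grading

omit [Fintype ι] in
private theorem HomPr_mem_mX (f : MvPolynomial ι F) : f ∈ mX F ι ↔ constantCoeff f = 0 := by
  have h1 : mX F ι = Ideal.span ((X : ι → MvPolynomial ι F) '' Set.univ) := by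
    rw [Set.image_univ]
    rfl
  rw [h1, mem_ideal_span_X_image]
  constructor
  · intro h
    by_contra h0
    have h2 : (0 : ι →₀ ℕ) ∈ f.support := by
      rw [mem_support_iff]
      exact h0
    obtain ⟨i, _, hi⟩ := h 0 h2
    exact hi rfl
  · intro h m hm
    by_contra hcon
    push Not at hcon
    have hm0 : m = 0 := by
      ext i
      exact hcon i (Set.mem_univ _)
    rw [hm0, mem_support_iff] at hm
    exact hm h

omit [Fintype ι] in
theorem HomI.sup {I J : Ideal (MvPolynomial ι F)} (hI : HomI I) (hJ : HomI J) : HomI (I ⊔ J) :=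
  HomPr_sup hI hJ

theorem hom_ICone {s : ℕ} (ξ : Fin s ⊕ Fin s → F) :
    HomI (ICone ξ) := by
  refine HomPr_span _ ?_
  rintro _ ⟨a, b, _, _, rfl⟩
  refine ⟨b, IsHomogeneous.sum _ _ _ fun i _ => ?_⟩
  have h1 := (isHomogeneous_C (Fin s ⊕ Fin s) (sg F i * ξ i ^ a)).mul
    ((isHomogeneous_X F i).pow b)
  rwa [zero_add, one_mul] at h1

theorem hom_LCone {f : ℕ} (h : Fin f → ι → ℤ) :
    HomI (LCone F h) := by
  refine HomPr_span _ ?_
  rintro _ ⟨l, rfl⟩
  refine ⟨1, IsHomogeneous.sum _ _ _ fun i _ => ?_⟩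
  have h1 := (isHomogeneous_C ι ((h l i : ℤ) : F)).mul (isHomogeneous_X F i)
  rwa [zero_add] at h1

omit [Fintype ι] in
theorem le_mX_of_hom (I : Ideal (MvPolynomial ι F)) (hI : HomI I)
    (h1 : I ≠ ⊤) : I ≤ mX F ι := by
  intro f hf
  rw [HomPr_mem_mX]
  by_contra hc
  apply h1
  have h2 := hI f hf 0
  rw [homogeneousComponent_zero] at h2
  rw [Ideal.eq_top_iff_one]
  have h3 : (1 : MvPolynomial ι F) = C (constantCoeff f)⁻¹ * C (coeff 0 f) := by
    rw [← C_mul, ← C_1]
    congr 1
    exact (inv_mul_cancel₀ hc).symm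
  rw [h3]
  exact I.mul_mem_left _ h2

theorem isMaximal_mX : (mX F ι).IsMaximal := by
  have h1 : mX F ι = RingHom.ker (constantCoeff (R := F) (σ := ι)) := by
    ext f
    rw [HomPr_mem_mX, RingHom.mem_ker]
  rw [h1]
  exact RingHom.ker_isMaximal_of_surjective _ fun c => ⟨C c, constantCoeff_C _ c⟩

omit [Fintype ι] in
theorem minimal_hom (I : Ideal (MvPolynomial ι F)) (hI : HomI I)
    (Q : Ideal (MvPolynomial ι F)) (hQ : Q ∈ I.minimalPrimes) :
    HomI Q :=
  HomPr_minimal I hI Q hQ

theorem exists_form [CharZero F] (T : Set (Ideal (MvPolynomial ι F))) (hT : T.Finite)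
    (hT' : ∀ Q ∈ T, ∃ i, (X i : MvPolynomial ι F) ∉ Q) : ∃ c : ι → ℤ, ∀ Q ∈ T, lin F c ∉ Q := by
  classical
  let e : ι ≃ Fin (Fintype.card ι) := Fintype.equivFin ι
  let cc : ℕ → ι → ℤ := fun n i => (n : ℤ) ^ ((e i : Fin _) : ℕ)
  have hfin : ∀ Q ∈ T, {n : ℕ | lin F (cc n) ∈ Q}.Finite := by
    intro Q hQ
    obtain ⟨i0, hi0⟩ := hT' Q hQ
    have hi0' : (X i0 : MvPolynomial ι F) ∉ Q.restrictScalars F := hi0
    obtain ⟨φ, hφ0, hφ⟩ := Submodule.exists_le_ker_of_notMem hi0'
    let P : Polynomial F := ∑ i, Polynomial.C (φ (X i)) * Polynomial.X ^ ((e i : Fin _) : ℕ)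
    have hP0 : P ≠ 0 := by
      intro hP
      have h1 : P.coeff ((e i0 : Fin _) : ℕ) = φ (X i0) := by
        simp only [P, Polynomial.finsetSum_coeff, Polynomial.coeff_C_mul, Polynomial.coeff_X_pow]
        rw [Finset.sum_eq_single i0]
        · simp
        · intro j _ hj
          have : ¬ (((e i0 : Fin _) : ℕ) = ((e j : Fin _) : ℕ)) := fun h =>
            hj (e.injective (Fin.ext h)).symm
          simp [this]
        · intro h
          exact absurd (Finset.mem_univ _) h
      rw [hP, Polynomial.coeff_zero] at h1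
      exact hφ0 h1.symm
    have hsub : {n : ℕ | lin F (cc n) ∈ Q} ⊆ (fun n : ℕ => (n : F)) ⁻¹' (P.roots.toFinset : Set F) := by
      intro n hn
      have h1 : lin F (cc n) ∈ LinearMap.ker φ := hφ hn
      rw [LinearMap.mem_ker, lin, map_sum] at h1
      change (n : F) ∈ (P.roots.toFinset : Set F)
      rw [Finset.mem_coe, Multiset.mem_toFinset, Polynomial.mem_roots hP0, Polynomial.IsRoot.def]
      rw [← h1]
      simp only [P, Polynomial.eval_finsetSum, Polynomial.eval_mul, Polynomial.eval_C,
        Polynomial.eval_pow, Polynomial.eval_X]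
      refine Finset.sum_congr rfl fun i _ => ?_
      rw [← smul_eq_C_mul, map_smul, smul_eq_mul, mul_comm]
      congr 1
      simp [cc]
    refine Set.Finite.subset (Set.Finite.preimage ?_ (Finset.finite_toSet _)) hsub
    exact fun a _ b _ h => Nat.cast_injective h
  have hU : (⋃ Q ∈ T, {n : ℕ | lin F (cc n) ∈ Q}).Finite := hT.biUnion hfin
  obtain ⟨n, hn⟩ := hU.exists_notMem
  refine ⟨cc n, fun Q hQ hmem => hn ?_⟩
  exact Set.mem_biUnion hQ hmem

end N64Y
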