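import Pool.Agent.H78.N64.W2

/-!
MP_4f0605_nt, geometry, module Interp (6.1).
-/

set_option autoImplicit false

namespace N64Y

open MvPolynomial Classical

variable {Ω : Type*} [Field Ω]

theorem six_le {S : Finset (Fin 2 → Ω)} {w : (Fin 2 → Ω) → Ω} (h : PC S w) {d : ℕ} (hd : d ≤ 4)
    (G : MvPolynomial (Fin 2) Ω) (hG : G.totalDegree ≤ d) (hne : ∃ z ∈ S, eval z G ≠ 0) :
    6 ≤ d + (S.filter fun z => eval z G ≠ 0).card := by
  by_contra hcon
  obtain ⟨z0, hz0, hGz0⟩ := hne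
  set T := S.filter fun z => eval z G ≠ 0 with hT
  have hz0T : z0 ∈ T := by simp [hT, hz0, hGz0]
  obtain ⟨F, hF1, hF2, hF3⟩ := Pool.Agent.H34.NA.exists_separating T z0 hz0T
  have hpos : 0 < T.card := Finset.card_pos.2 ⟨z0, hz0T⟩
  have hdeg : (G * F).totalDegree ≤ 4 := by
    refine (totalDegree_mul _ _).trans ?_
    omega
  have hsum := h.rel (G * F) hdeg
  rw [Finset.sum_eq_single z0] at hsum
  · rw [map_mul, hF2, mul_one] at hsum
    exact mul_ne_zero (h.w_ne z0 hz0) hGz0 hsum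
  · intro z hz hzz0
    by_cases hGz : eval z G = 0
    · rw [map_mul, hGz, zero_mul, mul_zero]
    · have hzT : z ∈ T := by simp [hT, hz, hGz]
      rw [map_mul, hF3 z hzT hzz0, mul_zero, mul_zero]
  · intro h0; exact absurd hz0 h0

theorem vanish_of_few {S : Finset (Fin 2 → Ω)} {w : (Fin 2 → Ω) → Ω} (h : PC S w) {d : ℕ} (hd : d ≤ 4)
    (G : MvPolynomial (Fin 2) Ω) (hG : G.totalDegree ≤ d)
    (hc : d + (S.filter fun z => eval z G ≠ 0).card < 6) : ∀ z ∈ S, eval z G = 0 := by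
  by_contra hcon
  push Not at hcon
  have := six_le h hd G hG hcon
  omega

theorem pc_card_six {S : Finset (Fin 2 → Ω)} {w : (Fin 2 → Ω) → Ω} (h : PC S w) : 6 ≤ S.card := by
  have hne : ∃ z ∈ S, eval z (1 : MvPolynomial (Fin 2) Ω) ≠ 0 := by
    by_contra hcon
    push Not at hcon
    have := h.nd 1 (by simp) hcon
    exact one_ne_zero this
  have := six_le h (Nat.zero_le 4) 1 (by simp) hne
  refine this.trans ?_
  rw [zero_add]
  exact Finset.card_filter_le _ _

end N64Y
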