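import Pool.Agent.H78.N64.TdApi
import Pool.Agent.H78.N64.Der

/-!
MP_4f0605_nt, section 6, module Jac: transcendence degrees are bounded by tangent spaces.

PROOFS.
* `td_le_finrank`: `s : Finset ι` from `td_exists_basis`. For `i ∈ s` let `D_i` be a derivation with `D_i (z j) = δ_ij` for `j ∈ s` (`exists_derivation`). The vectors
  `t_i = (D_i (z j))_{j ∈ ι} ∈ V` are linearly independent over `Ω` (look at the coordinates in `s`: identity matrix), so `s.card ≤ finrank V`
  (`LinearIndependent.fintype_card_le_finrank` for the family in `V`).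
* `exists_der_ne_zero`: if `a` is not algebraic over `K`, the family `![a]` (or `fun _ : Unit => a`) is algebraically independent (`algebraicIndependent_unique_type_iff`, `transcendental_iff`),
  `exists_derivation` with `c = 1`.
-/

set_option autoImplicit false

namespace N64Y

variable {K : Type*} [Field K] [CharZero K] {Ω : Type*} [Field Ω] [Algebra K Ω]

theorem td_le_finrank {ι : Type*} [Fintype ι] (z : ι → Ω) (V : Submodule Ω (ι → Ω))
    (hV : ∀ D : Derivation K Ω Ω, (fun i => D (z i)) ∈ V) : td K z ≤ Module.finrank Ω V := by
  classical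
  obtain ⟨s, hs, hind, -⟩ := td_exists_basis (K := K) z
  have h1 : ∀ i : s, ∃ D : Derivation K Ω Ω, ∀ j : s, D (z j) = if j = i then 1 else 0 :=
    fun i => exists_derivation (fun j : s => z j) hind fun j => if j = i then 1 else 0
  choose D hD using h1
  let t : s → V := fun i => ⟨fun j => D i (z j), hV (D i)⟩
  have hli : LinearIndependent Ω t := by
    rw [Fintype.linearIndependent_iff]
    intro g hg i
    have h2 := congrArg (fun v : V => (v : ι → Ω) (i : ι)) hg
    simp only [Submodule.coe_sum, Submodule.coe_smul, Finset.sum_apply, Pi.smul_apply, smul_eq_mul,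
      Submodule.coe_zero, Pi.zero_apply, t, hD] at h2
    simpa using h2
  have h3 := hli.fintype_card_le_finrank
  rwa [Fintype.card_coe, hs] at h3

theorem exists_der_ne_zero (a : Ω) (ha : ¬ IsAlgebraic K a) : ∃ D : Derivation K Ω Ω, D a = 1 := by
  have h : AlgebraicIndependent K (fun _ : Unit => a) :=
    algebraicIndependent_unique_type_iff.2 ha
  obtain ⟨D, hD⟩ := exists_derivation (fun _ : Unit => a) h fun _ => 1
  exact ⟨D, hD ()⟩

end N64Y
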