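import Pool.Agent.H78.N64.DimV1
import Pool.Agent.H78.N64.DimV2
import Pool.Agent.H78.N64.Jac

/-!
MP_4f0605_nt, geometry, module NTb: the transcendence degree of a non-collinear configuration.

PROOFS. `K ⊆ Ω`, characteristic 0. Step 1 (`nT_closed6`, `nT_closed5`): `Ω` algebraically closed. If no nonzero polynomial of degree `≤ 2` vanishes at all points (s = 6): `td_le_finrank` with
`V = V1` (`mem_V1_of_der`) and `dim_V1`: `≤ 10`. Otherwise (`Q`): `td_le_finrank` with `V = V2 Q` (`mem_V2_of_der`) and `dim_V2`: `+ 3 ≤ 2s`, i.e. `≤ 9` for `s = 6`.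
For `s = 5` there is always a conic: `Conf.card_PS : |PS| ≤ 10 ≤ 11`, `exists_conic (Conf.pc h)`; a polynomial vanishing on `PS` vanishes at all `pts k`
(`PS = univ.image pts`): `td ≤ 7`.
Step 2: general `Ω`: `f : Ω →ₐ[K] AlgebraicClosure Ω` (`IsScalarTower.toAlgHom`), `Conf.map`, `pts (f ∘ x) .. k e = f (pts x .. k e)` and `td_map`.
-/

set_option autoImplicit false

namespace N64Y

open MvPolynomial Classical

variable {K : Type*} [Field K] [CharZero K] {Ω : Type*} [Field Ω] [Algebra K Ω]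

theorem nT_closed6 [CharZero Ω] [IsAlgClosed Ω] {x u y v : Fin 6 → Ω} (h : Conf x u y v) :
    td K (fun ek : Fin 2 × (Fin 6 ⊕ Fin 6) => pts x u y v ek.2 ek.1) ≤ 10 := by
  by_cases hno : ∀ Q : MvPolynomial (Fin 2) Ω, Q.totalDegree ≤ 2 →
      (∀ k, eval (pts x u y v k) Q = 0) → Q = 0
  · exact (td_le_finrank _ (V1 x u y v) (fun D => mem_V1_of_der h D)).trans (dim_V1 h hno)
  · push Not at hno
    obtain ⟨Q, hQ, hv, hQ0⟩ := hno
    have h1 := td_le_finrank (K := K) (fun ek : Fin 2 × (Fin 6 ⊕ Fin 6) => pts x u y v ek.2 ek.1)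
      (V2 x u y v Q) (fun D => mem_V2_of_der h Q hQ hv D)
    have h2 := dim_V2 (le_refl 6) h Q hQ0 hQ hv
    omega

theorem nT_closed5 [CharZero Ω] [IsAlgClosed Ω] {x u y v : Fin 5 → Ω} (h : Conf x u y v) :
    td K (fun ek : Fin 2 × (Fin 5 ⊕ Fin 5) => pts x u y v ek.2 ek.1) ≤ 7 := by
  have hc : (Conf.PS x u y v).card ≤ 11 :=
    (Conf.card_PS (x := x) (u := u) (y := y) (v := v)).trans (by norm_num)
  obtain ⟨Q, hQ0, hQ, hv'⟩ := exists_conic (Conf.pc h) hc
  have hv : ∀ k, eval (pts x u y v k) Q = 0 := fun k =>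
    hv' _ (Finset.mem_image_of_mem _ (Finset.mem_univ k))
  have h1 := td_le_finrank (K := K) (fun ek : Fin 2 × (Fin 5 ⊕ Fin 5) => pts x u y v ek.2 ek.1)
    (V2 x u y v Q) (fun D => mem_V2_of_der h Q hQ hv D)
  have h2 := dim_V2 (by norm_num) h Q hQ0 hQ hv
  omega

omit [CharZero K] in
private theorem ntb_map {s : ℕ} {Ω' : Type*} [Field Ω'] [Algebra K Ω'] (f : Ω →ₐ[K] Ω')
    (x u y v : Fin s → Ω) :
    (fun ek : Fin 2 × (Fin s ⊕ Fin s) =>
      pts ((f : Ω →+* Ω') ∘ x) ((f : Ω →+* Ω') ∘ u) ((f : Ω →+* Ω') ∘ y) ((f : Ω →+* Ω') ∘ v)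
        ek.2 ek.1) =
    f ∘ (fun ek : Fin 2 × (Fin s ⊕ Fin s) => pts x u y v ek.2 ek.1) := by
  funext ek
  obtain ⟨e, k⟩ := ek
  rcases k with i | j <;> fin_cases e <;> rfl

theorem nT_le6 {x u y v : Fin 6 → Ω} (h : Conf x u y v) :
    td K (fun ek : Fin 2 × (Fin 6 ⊕ Fin 6) => pts x u y v ek.2 ek.1) ≤ 10 := by
  have hc : CharZero Ω := charZero_of_injective_algebraMap (algebraMap K Ω).injective
  have hc' : CharZero (AlgebraicClosure Ω) :=
    charZero_of_injective_algebraMap (algebraMap Ω (AlgebraicClosure Ω)).injective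
  let f : Ω →ₐ[K] AlgebraicClosure Ω := IsScalarTower.toAlgHom K Ω (AlgebraicClosure Ω)
  rw [← td_map f, ← ntb_map f]
  exact nT_closed6 (Conf.map (f : Ω →+* AlgebraicClosure Ω) h)

theorem nT_le5 {x u y v : Fin 5 → Ω} (h : Conf x u y v) :
    td K (fun ek : Fin 2 × (Fin 5 ⊕ Fin 5) => pts x u y v ek.2 ek.1) ≤ 7 := by
  have hc : CharZero Ω := charZero_of_injective_algebraMap (algebraMap K Ω).injective
  have hc' : CharZero (AlgebraicClosure Ω) :=
    charZero_of_injective_algebraMap (algebraMap Ω (AlgebraicClosure Ω)).injective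
  let f : Ω →ₐ[K] AlgebraicClosure Ω := IsScalarTower.toAlgHom K Ω (AlgebraicClosure Ω)
  rw [← td_map f, ← ntb_map f]
  exact nT_closed5 (Conf.map (f : Ω →+* AlgebraicClosure Ω) h)

end N64Y
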