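import Pool.Agent.H78.N64.ConfPC
import Pool.Agent.H34.NA.Power

/-!
MP_4f0605_nt, section 6, module Par: the points do not lie on three parallel lines (contains 6.6 and the last step of 6.8).

PROOF of `no_parallel`. Let `val k = α * pts k 0 + β * pts k 1`, `R' = univ.image val ⊆ R`, `r = R'.card ≤ 3`.
`r = 0`: `Fin s ⊕ Fin s` is empty, so `Conf.nd` with `(0,0,1)` gives `1 = 0`. `r = 1`: `val k = ρ` for all `k`: `Conf.nd` with `(α,β,-ρ)`: `α = β = 0`. So `r ∈ {2,3}`.
Let `mc : MvPolynomial` be `X 1` if `α ≠ 0` and `X 0` if `α = 0` (then `β ≠ 0`), and `mv k` its value at `pts k`: two points with the same `val` and the same `mv` are equal.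
For `ρ ∈ R'` and `a ≤ 5 - r` let `G = mc^a * ∏ ρ' ∈ R'.erase ρ, (C α * X 0 + C β * X 1 - C ρ')`, of degree `≤ a + (r - 1) ≤ 4`. `Conf.rel_poly`:
`sum_k sg k * mv k ^ a * ∏ (val k - ρ') = 0`; the terms with `val k ≠ ρ` vanish, the others have the constant nonzero factor `∏ (ρ - ρ')`. So with
`A_ρ = {i : val (inl i) = ρ}`, `B_ρ = {j : val (inr j) = ρ}`: `sum_{i ∈ A_ρ} mv (inl i)^a = sum_{j ∈ B_ρ} mv (inr j)^a` for all `a ≤ 5 - r`. `a = 0`: `|A_ρ| = |B_ρ|`; one of them is
nonempty (`ρ ∈ R'`), so both. `mv (inl i) ≠ mv (inr j)` for `i ∈ A_ρ`, `j ∈ B_ρ` by `Conf.pts_ne`. If `n = |A_ρ| ≤ 5 - r` then all power sums `0..n` are equal and `exists_equiv_of_psum_eq_finset` /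
`multiset_eq_of_psum_eq` (helper34, H34/NA/Power.lean) give a common value `mv (inl i) = mv (inr j)`, contradiction. So `|A_ρ| ≥ 6 - r`. Summing over `ρ ∈ R'`
(the `A_ρ` are a partition of `Fin s`): `s ≥ r (6 - r)`, which is `8` for `r = 2` and `9` for `r = 3`: contradiction with `s ≤ 6`.
-/

set_option autoImplicit false

namespace N64Y

open MvPolynomial Classical

private theorem par_deg {Ω : Type*} [Field Ω] (α β ρ : Ω) :
    (C α * X 0 + C β * X 1 - C ρ : MvPolynomial (Fin 2) Ω).totalDegree ≤ 1 := by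
  refine (totalDegree_sub _ _).trans (max_le ?_ ?_)
  · refine (totalDegree_add _ _).trans (max_le ?_ ?_)
    · refine (totalDegree_mul _ _).trans ?_
      rw [totalDegree_C, totalDegree_X]
    · refine (totalDegree_mul _ _).trans ?_
      rw [totalDegree_C, totalDegree_X]
  · rw [totalDegree_C]
    exact Nat.zero_le _

private theorem par_sums {Ω : Type*} [Field Ω] {s : ℕ} {x u y v : Fin s → Ω}
    (h : Conf x u y v) (α β : Ω) (c : Fin 2) (R : Finset Ω)
    (hc : ∀ k, α * pts x u y v k 0 + β * pts x u y v k 1 ∈ R) (ρ : Ω) (hρ : ρ ∈ R) (a : ℕ)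
    (ha : a + R.card ≤ 5) :
    ∑ i ∈ Finset.univ.filter (fun i : Fin s =>
        α * pts x u y v (Sum.inl i) 0 + β * pts x u y v (Sum.inl i) 1 = ρ),
          pts x u y v (Sum.inl i) c ^ a =
      ∑ j ∈ Finset.univ.filter (fun j : Fin s =>
        α * pts x u y v (Sum.inr j) 0 + β * pts x u y v (Sum.inr j) 1 = ρ),
          pts x u y v (Sum.inr j) c ^ a := by
  obtain ⟨G, hG⟩ : ∃ G : MvPolynomial (Fin 2) Ω,
      G = X c ^ a * ∏ ρ' ∈ R.erase ρ, (C α * X 0 + C β * X 1 - C ρ') := ⟨_, rfl⟩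
  have hdeg : G.totalDegree ≤ 4 := by
    rw [hG]
    refine (totalDegree_mul _ _).trans ?_
    have h1 : (X c ^ a : MvPolynomial (Fin 2) Ω).totalDegree ≤ a := by
      refine (totalDegree_pow _ _).trans ?_
      rw [totalDegree_X, mul_one]
    have h2 : (∏ ρ' ∈ R.erase ρ, (C α * X 0 + C β * X 1 - C ρ') :
        MvPolynomial (Fin 2) Ω).totalDegree ≤ R.card - 1 := by
      refine (totalDegree_finsetProd _ _).trans ?_
      refine (Finset.sum_le_card_nsmul _ _ 1 fun ρ' _ => par_deg α β ρ').trans ?_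
      rw [smul_eq_mul, mul_one, Finset.card_erase_of_mem hρ]
    have h3 : 0 < R.card := Finset.card_pos.2 ⟨ρ, hρ⟩
    omega
  obtain ⟨P, hP⟩ : ∃ P : Ω, P = ∏ ρ' ∈ R.erase ρ, (ρ - ρ') := ⟨_, rfl⟩
  have hP0 : P ≠ 0 := by
    rw [hP, Finset.prod_ne_zero_iff]
    intro ρ' hρ'
    exact sub_ne_zero.2 (Finset.ne_of_mem_erase hρ').symm
  have he : ∀ k, eval (pts x u y v k) G =
      if α * pts x u y v k 0 + β * pts x u y v k 1 = ρ then pts x u y v k c ^ a * P else 0 := by
    intro k
    have h1 : eval (pts x u y v k) G = pts x u y v k c ^ a *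
        ∏ ρ' ∈ R.erase ρ, (α * pts x u y v k 0 + β * pts x u y v k 1 - ρ') := by
      rw [hG, map_mul, map_pow, eval_X, map_prod]
      congr 1
      refine Finset.prod_congr rfl fun ρ' _ => ?_
      rw [map_sub, map_add, map_mul, map_mul, eval_C, eval_C, eval_C, eval_X, eval_X]
    rw [h1]
    split_ifs with hk
    · rw [hk, hP]
    · rw [Finset.prod_eq_zero (Finset.mem_erase.2 ⟨hk, hc k⟩) (sub_self _), mul_zero]
  have h5 := h.rel_poly G hdeg
  rw [Fintype.sum_sum_type] at h5
  simp only [he, sg, Sum.elim_inl, Sum.elim_inr, one_mul, neg_mul, Finset.sum_neg_distrib] at h5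
  rw [← Finset.sum_filter, ← Finset.sum_filter, ← Finset.sum_mul, ← Finset.sum_mul,
    ← sub_eq_add_neg, ← sub_mul] at h5
  exact sub_eq_zero.1 ((mul_eq_zero.1 h5).resolve_right hP0)

theorem no_parallel {Ω : Type*} [Field Ω] [CharZero Ω] {s : ℕ} {x u y v : Fin s → Ω} (hs : s ≤ 6)
    (h : Conf x u y v) (α β : Ω) (hαβ : ¬ (α = 0 ∧ β = 0)) (R : Finset Ω) (hR : R.card ≤ 3)
    (hc : ∀ k, α * pts x u y v k 0 + β * pts x u y v k 1 ∈ R) : False := by
  -- the coordinate which separates the points of the lines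
  obtain ⟨c, hsep⟩ : ∃ c : Fin 2, ∀ k l, α * pts x u y v k 0 + β * pts x u y v k 1 =
      α * pts x u y v l 0 + β * pts x u y v l 1 → pts x u y v k c = pts x u y v l c →
        pts x u y v k = pts x u y v l := by
    by_cases hα : α = 0
    · have hβ : β ≠ 0 := fun hβ => hαβ ⟨hα, hβ⟩
      refine ⟨0, fun k l h1 h2 => ?_⟩
      rw [hα, zero_mul, zero_mul, zero_add, zero_add] at h1
      have h3 := mul_left_cancel₀ hβ h1
      ext i
      fin_cases i
      · exact h2
      · exact h3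
    · refine ⟨1, fun k l h1 h2 => ?_⟩
      rw [h2] at h1
      have h3 := mul_left_cancel₀ hα (add_right_cancel h1)
      ext i
      fin_cases i
      · exact h3
      · exact h2
  obtain ⟨R', hR'⟩ : ∃ R' : Finset Ω, R' = Finset.univ.image (fun k =>
      α * pts x u y v k 0 + β * pts x u y v k 1) := ⟨_, rfl⟩
  have hsub : R' ⊆ R := by
    rw [hR']
    intro ρ hρ
    obtain ⟨k, _, rfl⟩ := Finset.mem_image.1 hρ
    exact hc k
  have hcard : R'.card ≤ 3 := (Finset.card_le_card hsub).trans hR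
  have hc' : ∀ k, α * pts x u y v k 0 + β * pts x u y v k 1 ∈ R' := by
    intro k
    rw [hR']
    exact Finset.mem_image_of_mem _ (Finset.mem_univ k)
  have hfib : ∀ ρ ∈ R', 6 ≤ R'.card + (Finset.univ.filter (fun i : Fin s =>
      α * pts x u y v (Sum.inl i) 0 + β * pts x u y v (Sum.inl i) 1 = ρ)).card := by
    intro ρ hρ
    by_contra hlt
    push Not at hlt
    have hA := par_sums h α β c R' hc' ρ hρ
    have hcd := hA 0 (by omega)
    simp only [pow_zero, Finset.sum_const, nsmul_eq_mul, mul_one, Nat.cast_inj] at hcd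
    obtain ⟨e, he⟩ := Pool.Agent.H34.NA.exists_equiv_of_psum_eq_finset _ _
      (fun i : Fin s => pts x u y v (Sum.inl i) c) (fun j : Fin s => pts x u y v (Sum.inr j) c)
      hcd (fun a _ ha => hA a (by omega))
    obtain ⟨i, hi⟩ : (Finset.univ.filter (fun i : Fin s =>
        α * pts x u y v (Sum.inl i) 0 + β * pts x u y v (Sum.inl i) 1 = ρ)).Nonempty := by
      rw [hR'] at hρ
      obtain ⟨k, _, hk⟩ := Finset.mem_image.1 hρ
      rcases k with i | j
      · exact ⟨i, Finset.mem_filter.2 ⟨Finset.mem_univ _, hk⟩⟩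
      · rw [← Finset.card_pos, hcd, Finset.card_pos]
        exact ⟨j, Finset.mem_filter.2 ⟨Finset.mem_univ _, hk⟩⟩
    have h1 := he ⟨i, hi⟩
    have h2 := (Finset.mem_filter.1 hi).2
    have h3 := (Finset.mem_filter.1 (e ⟨i, hi⟩).2).2
    exact h.pts_ne i _ (hsep _ _ (h2.trans h3.symm) h1)
  have hsum : s = ∑ ρ ∈ R', (Finset.univ.filter (fun i : Fin s =>
      α * pts x u y v (Sum.inl i) 0 + β * pts x u y v (Sum.inl i) 1 = ρ)).card := by
    have := Finset.card_eq_sum_card_fiberwise (s := (Finset.univ : Finset (Fin s))) (t := R')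
      (f := fun i => α * pts x u y v (Sum.inl i) 0 + β * pts x u y v (Sum.inl i) 1)
      (fun i _ => hc' (Sum.inl i))
    rw [Finset.card_univ, Fintype.card_fin] at this
    exact this
  have hge : R'.card * (6 - R'.card) ≤ s := by
    rw [hsum, ← smul_eq_mul]
    refine Finset.card_nsmul_le_sum _ _ _ fun ρ hρ => ?_
    have := hfib ρ hρ
    omega
  have h01 : R'.card = 0 ∨ R'.card = 1 ∨ R'.card = 2 ∨ R'.card = 3 := by omega
  rcases h01 with h0 | h0 | h0 | h0
  · rw [Finset.card_eq_zero] at h0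
    have h1 : ∀ k : Fin s ⊕ Fin s, False := by
      intro k
      have := hc' k
      rw [h0] at this
      exact Finset.notMem_empty _ this
    exact one_ne_zero (h.nd 0 0 1 (fun i => (h1 (Sum.inl i)).elim)
      (fun j => (h1 (Sum.inr j)).elim)).2.2
  · obtain ⟨ρ, hρ⟩ := Finset.card_eq_one.1 h0
    have h1 : ∀ k, α * pts x u y v k 0 + β * pts x u y v k 1 = ρ := by
      intro k
      have := hc' k
      rw [hρ] at this
      exact Finset.mem_singleton.1 this
    have h2 := h.nd α β (-ρ) (fun i => by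
      have := h1 (Sum.inl i)
      simp only [pts, Sum.elim_inl, Matrix.cons_val_zero, Matrix.cons_val_one] at this
      rw [this, add_neg_cancel]) (fun j => by
      have := h1 (Sum.inr j)
      simp only [pts, Sum.elim_inr, Matrix.cons_val_zero, Matrix.cons_val_one] at this
      rw [this, add_neg_cancel])
    exact hαβ ⟨h2.1, h2.2.1⟩
  · rw [h0] at hge
    omega
  · rw [h0] at hge
    omega

end N64Y
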