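import Pool.Agent.H78.N64.VMem

/-!
MP_4f0605_nt, section 6, module V2: tangent vectors which move the conic `Q`.

`V2 Q` = the `t ∈ V1` for which there is `R` of degree `≤ 2` with
(a) `sum_e Q_e(z_k) t(e,k) + R(z_k) = 0` for all `k`;
(b) for every `k` with `grad Q (z_k) = 0` and `e'`: `sum_e Q_{e e'}(z_k) t(e,k) + R_{e'}(z_k) = 0`.

PROOFS.
* `mem_V2_of_der`: `R = dcoef D Q` (`totalDegree_dcoef`); (a) is `D (eval z_k Q) = 0` and `der_eval`; (b): `eval z_k (pderiv e' Q) = 0`, apply `D`, `der_eval` for `pderiv e' Q`, `pderiv_dcoef`.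
  (`pderiv e (pderiv e' Q)`.)
* closure properties: add the `R`'s, scale the `R`'s (`totalDegree_add`, `totalDegree_smul_le`).
-/

set_option autoImplicit false

namespace N64Y

open MvPolynomial Classical

variable {Ω : Type*} [Field Ω] {s : ℕ}

/-- the conditions (a), (b) for `t` and `R` -/
def V2rel (x u y v : Fin s → Ω) (Q : MvPolynomial (Fin 2) Ω) (t : Fin 2 × (Fin s ⊕ Fin s) → Ω)
    (R : MvPolynomial (Fin 2) Ω) : Prop :=
  (∀ k, ∑ e, eval (pts x u y v k) (pderiv e Q) * t (e, k) + eval (pts x u y v k) R = 0) ∧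
  ∀ k, (∀ e, eval (pts x u y v k) (pderiv e Q) = 0) → ∀ e',
    ∑ e, eval (pts x u y v k) (pderiv e (pderiv e' Q)) * t (e, k) + eval (pts x u y v k) (pderiv e' R) = 0

theorem V2rel.add {x u y v : Fin s → Ω} {Q : MvPolynomial (Fin 2) Ω} {t t' : Fin 2 × (Fin s ⊕ Fin s) → Ω}
    {R R' : MvPolynomial (Fin 2) Ω} (h : V2rel x u y v Q t R) (h' : V2rel x u y v Q t' R') :
    V2rel x u y v Q (t + t') (R + R') := by
  obtain ⟨h1, h2⟩ := h
  obtain ⟨h1', h2'⟩ := h'
  refine ⟨fun k => ?_, fun k hk e' => ?_⟩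
  · have a := h1 k
    have b := h1' k
    simp only [Fin.sum_univ_two, Pi.add_apply, map_add] at a b ⊢
    linear_combination a + b
  · have a := h2 k hk e'
    have b := h2' k hk e'
    simp only [Fin.sum_univ_two, Pi.add_apply, map_add] at a b ⊢
    linear_combination a + b

theorem V2rel.smul {x u y v : Fin s → Ω} {Q : MvPolynomial (Fin 2) Ω} {t : Fin 2 × (Fin s ⊕ Fin s) → Ω}
    {R : MvPolynomial (Fin 2) Ω} (c : Ω) (h : V2rel x u y v Q t R) : V2rel x u y v Q (c • t) (c • R) := by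
  obtain ⟨h1, h2⟩ := h
  refine ⟨fun k => ?_, fun k hk e' => ?_⟩
  · have a := h1 k
    simp only [Fin.sum_univ_two, Pi.smul_apply, smul_eq_mul, smul_eval] at a ⊢
    linear_combination c * a
  · have a := h2 k hk e'
    have b : pderiv e' (c • R) = c • pderiv e' R := (pderiv e').map_smul c R
    rw [b]
    simp only [Fin.sum_univ_two, Pi.smul_apply, smul_eq_mul, smul_eval] at a ⊢
    linear_combination c * a

noncomputable def V2 (x u y v : Fin s → Ω) (Q : MvPolynomial (Fin 2) Ω) :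
    Submodule Ω (Fin 2 × (Fin s ⊕ Fin s) → Ω) where
  carrier := {t | t ∈ V1 x u y v ∧ ∃ R : MvPolynomial (Fin 2) Ω, R.totalDegree ≤ 2 ∧ V2rel x u y v Q t R}
  add_mem' := by
    rintro a b ⟨ha, R, hR, hR'⟩ ⟨hb, R2, hR2, hR2'⟩
    exact ⟨(V1 x u y v).add_mem ha hb, R + R2, (totalDegree_add R R2).trans (max_le hR hR2), hR'.add hR2'⟩
  zero_mem' := ⟨(V1 x u y v).zero_mem, 0, by simp, by simp [V2rel]⟩
  smul_mem' := by
    rintro c a ⟨ha, R, hR, hR'⟩
    exact ⟨(V1 x u y v).smul_mem c ha, c • R, (totalDegree_smul_le c R).trans hR, hR'.smul c⟩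

variable {x u y v : Fin s → Ω}

theorem mem_V2_of_der (h : Conf x u y v) (Q : MvPolynomial (Fin 2) Ω) (hQ : Q.totalDegree ≤ 2)
    (hv : ∀ k, eval (pts x u y v k) Q = 0) {K : Type*} [Field K] [Algebra K Ω] (D : Derivation K Ω Ω) :
    (fun ek : Fin 2 × (Fin s ⊕ Fin s) => D (pts x u y v ek.2 ek.1)) ∈ V2 x u y v Q := by
  refine ⟨mem_V1_of_der h D, dcoef D Q, (totalDegree_dcoef D Q).trans hQ, fun k => ?_,
    fun k hk e' => ?_⟩
  · have a := der_eval D Q (pts x u y v k)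
    rw [hv k, map_zero] at a
    rw [add_comm]
    exact a.symm
  · have a := der_eval D (pderiv e' Q) (pts x u y v k)
    rw [hk e', map_zero] at a
    rw [add_comm, pderiv_dcoef]
    exact a.symm

end N64Y
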