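import Pool.Agent.H78.N64.VSp

/-!
MP_4f0605_nt, geometry, module VMem: members of `V1`.

PROOFS.
* `mem_V1_of_der`: apply `D` to `sum_k sg k * eval (pts k) F = 0` (`Conf.rel_poly`), `D (sg k) = 0` (`sg k = ± 1`), `der_eval`: `sum_k sg k * eval (pts k) (dcoef D F) + sum_k sg k * sum_e .. = 0`,
  and the first sum is `0` by `rel_poly` and `totalDegree_dcoef`.
-/

set_option autoImplicit false

namespace N64Y

open MvPolynomial Classical

variable {Ω : Type*} [Field Ω] {s : ℕ}

variable {x u y v : Fin s → Ω}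

theorem mem_V1_of_der (h : Conf x u y v) {K : Type*} [Field K] [Algebra K Ω] (D : Derivation K Ω Ω) :
    (fun ek : Fin 2 × (Fin s ⊕ Fin s) => D (pts x u y v ek.2 ek.1)) ∈ V1 x u y v := by
  intro F hF
  have h1 := congrArg D (h.rel_poly F hF)
  rw [map_zero, map_sum] at h1
  have hsg : ∀ k : Fin s ⊕ Fin s, D (sg Ω k) = 0 := by
    rintro (i | i)
    · exact D.map_one_eq_zero
    · change D (-1) = 0
      rw [map_neg, D.map_one_eq_zero, neg_zero]
  have h2 : ∀ k : Fin s ⊕ Fin s, D (sg Ω k * eval (pts x u y v k) F)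
      = sg Ω k * eval (pts x u y v k) (dcoef D F)
        + sg Ω k * ∑ e, eval (pts x u y v k) (pderiv e F) * D (pts x u y v k e) := by
    intro k
    rw [Derivation.leibniz, hsg, smul_zero, add_zero, smul_eq_mul, der_eval, mul_add]
  simp only [h2] at h1
  rw [Finset.sum_add_distrib, h.rel_poly (dcoef D F) ((totalDegree_dcoef D F).trans hF),
    zero_add] at h1
  exact h1

end N64Y
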