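import Pool.Agent.H78.N64.Defs
import Pool.Agent.H34.NA.Count

/-!
MP_4f0605_nt, geometry, module W2: the space `W Ω t` of polynomials of degree `≤ t` in two variables.
-/

set_option autoImplicit false

namespace N64Y

open MvPolynomial

variable {Ω : Type*} [Field Ω]

/-- polynomials of degree `≤ t` in two variables -/
noncomputable abbrev W (Ω : Type*) [Field Ω] (t : ℕ) : Submodule Ω (MvPolynomial (Fin 2) Ω) :=
  restrictTotalDegree (Fin 2) Ω t

theorem mem_W {t : ℕ} {F : MvPolynomial (Fin 2) Ω} : F ∈ W Ω t ↔ F.totalDegree ≤ t :=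
  mem_restrictTotalDegree _ _ _

theorem finrank_W (t : ℕ) : Module.finrank Ω (W Ω t) = (t + 2).choose 2 := by
  simpa using Pool.Agent.H34.NA.finrank_restrictTotalDegree Ω (Fin 2) t

instance finite_W (t : ℕ) : Module.Finite Ω (W Ω t) := by
  refine Module.finite_of_finrank_pos ?_
  rw [finrank_W]
  exact Nat.choose_pos (by omega)

/-- evaluation at a family of points -/
noncomputable def evT {ι : Type*} (p : ι → (Fin 2 → Ω)) : MvPolynomial (Fin 2) Ω →ₗ[Ω] (ι → Ω) :=
  LinearMap.pi fun i => (MvPolynomial.aeval (R := Ω) (p i)).toLinearMap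

@[simp] theorem evT_apply {ι : Type*} (p : ι → (Fin 2 → Ω)) (F : MvPolynomial (Fin 2) Ω) (i : ι) :
    evT p F i = eval (p i) F := by
  simp [evT, MvPolynomial.aeval_eq_eval]

end N64Y
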