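import Pool.Agent.H78.N64.ConfPC
import Pool.Agent.H78.N64.LinAlg
import Pool.Agent.H78.N64.W2

/-!
MP_4f0605_nt, section 6, module VSp: the tangent space `V1` (linearised relations) and derivations on coefficients.

Index set of the tangent vectors: `Fin 2 × (Fin s ⊕ Fin s)`; `t (0,k) = dx_k`, `t (1,k) = du_k`.

PROOFS. `coeff_dcoef`: `coeff_sum`, `coeff_monomial`, and `D 0 = 0` outside the support. `totalDegree_dcoef`: the support is contained in the support of `F`
(`totalDegree_le_of_support_subset`). `der_eval`: additive in `F`; for `F = monomial d c`: `eval z F = c * z 0 ^ d 0 * z 1 ^ d 1`, Leibniz rule; e.g. `MvPolynomial.induction_on F`: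
`C a`: `D a`; sum; `F * X n`: Leibniz, using `dcoef D (F * X n) = dcoef D F * X n` (coefficients: `coeff_mul_X'`). `pderiv_dcoef`: compare coefficients
(`coeff_pderiv`-type lemma or again additive + monomials: `pderiv_monomial`, `D ((n : Ω) * a) = n * D a`).
-/

set_option autoImplicit false

namespace N64Y

open MvPolynomial Classical

variable {Ω : Type*} [Field Ω] {s : ℕ}

/-- linearised relations -/
noncomputable def V1 (x u y v : Fin s → Ω) : Submodule Ω (Fin 2 × (Fin s ⊕ Fin s) → Ω) where
  carrier := {t | ∀ F : MvPolynomial (Fin 2) Ω, F.totalDegree ≤ 4 →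
    ∑ k, sg Ω k * ∑ e, eval (pts x u y v k) (pderiv e F) * t (e, k) = 0}
  add_mem' := by
    intro a b ha hb F hF
    have := congrArg₂ (· + ·) (ha F hF) (hb F hF)
    simp only [add_zero, ← Finset.sum_add_distrib, ← mul_add] at this
    simpa [mul_add] using this
  zero_mem' := by intro F hF; simp
  smul_mem' := by
    intro c a ha F hF
    have := congrArg (c * ·) (ha F hF)
    simp only [mul_zero, Finset.mul_sum] at this
    rw [← this]
    refine Finset.sum_congr rfl fun k _ => ?_
    rw [Finset.mul_sum]
    exact Finset.sum_congr rfl fun e _ => by simp only [Pi.smul_apply, smul_eq_mul]; ring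

/-- apply a derivation to the coefficients -/
noncomputable def dcoef {K : Type*} [Field K] [Algebra K Ω] (D : Derivation K Ω Ω)
    (F : MvPolynomial (Fin 2) Ω) : MvPolynomial (Fin 2) Ω :=
  ∑ d ∈ F.support, monomial d (D (coeff d F))

theorem coeff_dcoef {K : Type*} [Field K] [Algebra K Ω] (D : Derivation K Ω Ω)
    (F : MvPolynomial (Fin 2) Ω) (d : Fin 2 →₀ ℕ) : coeff d (dcoef D F) = D (coeff d F) := by
  rw [dcoef, coeff_sum]
  simp only [coeff_monomial]
  rw [Finset.sum_ite_eq' F.support d]
  split_ifs with h
  · rfl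
  · rw [notMem_support_iff.mp h, map_zero]

theorem totalDegree_dcoef {K : Type*} [Field K] [Algebra K Ω] (D : Derivation K Ω Ω)
    (F : MvPolynomial (Fin 2) Ω) : (dcoef D F).totalDegree ≤ F.totalDegree := by
  refine totalDegree_le_of_support_subset fun d hd => ?_
  rw [mem_support_iff, coeff_dcoef] at hd
  rw [mem_support_iff]
  intro h0
  rw [h0, map_zero] at hd
  exact hd rfl

private theorem VSp_add {K : Type*} [Field K] [Algebra K Ω] (D : Derivation K Ω Ω)
    (F G : MvPolynomial (Fin 2) Ω) : dcoef D (F + G) = dcoef D F + dcoef D G := by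
  ext d
  rw [coeff_add, coeff_dcoef, coeff_dcoef, coeff_dcoef, coeff_add, map_add]

private theorem VSp_C {K : Type*} [Field K] [Algebra K Ω] (D : Derivation K Ω Ω) (a : Ω) :
    dcoef D (C a) = C (D a) := by
  ext d
  rw [coeff_dcoef, coeff_C, coeff_C]
  split_ifs
  · rfl
  · exact map_zero D

private theorem VSp_mul_X {K : Type*} [Field K] [Algebra K Ω] (D : Derivation K Ω Ω)
    (F : MvPolynomial (Fin 2) Ω) (n : Fin 2) : dcoef D (F * X n) = dcoef D F * X n := by
  ext d
  rw [coeff_dcoef, coeff_mul_X', coeff_mul_X']
  split_ifs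
  · rw [coeff_dcoef]
  · exact map_zero D

theorem der_eval {K : Type*} [Field K] [Algebra K Ω] (D : Derivation K Ω Ω)
    (F : MvPolynomial (Fin 2) Ω) (z : Fin 2 → Ω) :
    D (eval z F) = eval z (dcoef D F) + ∑ e, eval z (pderiv e F) * D (z e) := by
  induction F using MvPolynomial.induction_on with
  | C a => simp [VSp_C]
  | add F G hF hG =>
    simp only [map_add, VSp_add, hF, hG, add_mul, Finset.sum_add_distrib]
    ring
  | mul_X F n hF =>
    have h1 : ∀ e : Fin 2, eval z (pderiv e (F * X n)) * D (z e)
        = eval z (pderiv e F) * D (z e) * z n + (if n = e then eval z F * D (z e) else 0) := by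
      intro e
      rw [pderiv_mul, pderiv_X, map_add, map_mul, map_mul, eval_X, Pi.single_apply]
      split_ifs
      · rw [map_one]
        ring
      · rw [map_zero]
        ring
    simp only [h1]
    have e1 : eval z (F * X n) = eval z F * z n := by simp
    have e2 : eval z (dcoef D F * X n) = eval z (dcoef D F) * z n := by simp
    rw [Finset.sum_add_distrib, Finset.sum_ite_eq Finset.univ n, if_pos (Finset.mem_univ n),
      ← Finset.sum_mul, VSp_mul_X, e1, e2, Derivation.leibniz, hF, smul_eq_mul, smul_eq_mul]
    ring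

/-- derivations and coefficients commute with partial derivatives -/
theorem pderiv_dcoef {K : Type*} [Field K] [Algebra K Ω] (D : Derivation K Ω Ω)
    (F : MvPolynomial (Fin 2) Ω) (e : Fin 2) : pderiv e (dcoef D F) = dcoef D (pderiv e F) := by
  ext d
  rw [coeff_dcoef, coeff_pderiv, coeff_pderiv, coeff_dcoef, Derivation.leibniz, map_add,
    Derivation.map_natCast, Derivation.map_one_eq_zero, add_zero, smul_zero, zero_add,
    smul_eq_mul, mul_comm]


end N64Y
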